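import Pool.Agent.Helper95.GB.TP.Pt

/-! # GB/TP/Ball: balls in the space of a graph 

`π : V ⊕ E × I → Geo G` is the quotient map (`V`, `E` discrete).
* `iv_open`: the preimage of `ep e '' Ioo a b` under `π` is `{inr (e, x) | x ∈ Ioo a b}` (`0`, `1` are not in `Ioo a b`), open.
* `iv_simply`: `ep e` restricted to `Ioo a b` is an embedding (continuous, injective, open: the image of an open subset of `Ioo a b` is open by the
argument of `iv_open`); `Ioo a b` in `I` is simply connected (contractible: e.g. homeomorphic to a convex set in `ℝ`, or by the convex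
combination `Icc.convexComb`-type homotopy to a point).  Or directly contractible: show `ContractibleSpace (ep e '' Ioo a b)` (nonempty, `a < b`).
* `star_open`: continuity of `dv`.
* `star_contr`: `St = {p | dv v p < r}`, `0 < r ≤ 1/2`.  `Y = {y : V ⊕ E × I | dv0 v y < r}`, `π : Y → St` is a quotient map
(`IsQuotientMap.restrictPreimage_isOpen`-type lemma).  Homotopy `H̃ : Y × I → Geo`: `(inl v, t) ↦ vp v`; `(inr (e, x), t) ↦ ep e ((1 - t) x)` if
`fin e false = v ∧ x < r`, and `ep e (1 - (1 - t) (1 - x))` otherwise (then `fin e true = v ∧ 1 - x < r`).  The two conditions exclude each other (`r ≤ 1/2`),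
so the sets are open and closed in `Y` and `H̃` is continuous.  It respects the gluing (`x = 0`: the value is `ep e 0 = vp v`; `x = 1`: `ep e 1 = vp v`), so
it descends to `H : St × I → Geo`, continuous by `IsQuotientMap.continuous_lift_prod_left` (`I` is locally compact).  `H (p, t) ∈ St`
(`dv (H (p, t)) = (1 - t) dv p`), `H (p, 0) = p`, `H (p, 1) = vp v`.  So the identity of `St` is nullhomotopic (`contractible_iff_id_nullhomotopic`).
* `ball_disj`: cases; two different vertices: `dv_disj`, `ρ₀ = 1/2`.  A vertex `v` and `ep e u`: `ρ₀ = min u (1 - u) / 2`: `dv v (ep e x) < ρ` with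
`|x - u| < ρ` implies (`dv0`) `x < ρ` or `1 - x < ρ` (or `1/2 < ρ`), contradiction.  `ep e u`, `ep e u'`, `u ≠ u'`: `ρ₀ = |u - u'| / 2`; different edges:
disjoint.  `ball p ρ` for `p = ep e u` and `ρ ≤ min u (1 - u)` is `ep e '' Ioo (u - ρ) (u + ρ)`.
-/

set_option autoImplicit false

namespace GB

open unitInterval Topology

namespace TP

variable {V E : Type} (G : Gr V E)

private theorem isOpen_iff_ep (U : Set (Geo G)) : IsOpen U ↔ ∀ e, IsOpen (ep G e ⁻¹' U) := by
  constructor
  · intro h e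
    exact h.preimage (continuous_ep G e)
  · intro h
    letI : TopologicalSpace V := ⊥
    letI : TopologicalSpace E := ⊥
    haveI : DiscreteTopology V := ⟨rfl⟩
    haveI : DiscreteTopology E := ⟨rfl⟩
    have hq : IsQuotientMap (Quot.mk (GeoRel G) : V ⊕ E × I → Geo G) := isQuotientMap_quot_mk
    refine hq.isOpen_preimage.1 ?_
    rw [isOpen_sum_iff]
    refine ⟨isOpen_discrete _, ?_⟩
    have h1 : (Sum.inr : E × I → V ⊕ E × I) ⁻¹' ((Quot.mk (GeoRel G) : V ⊕ E × I → Geo G) ⁻¹' U)
        = ⋃ e, ({e} : Set E) ×ˢ (ep G e ⁻¹' U) := by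
      ext ⟨e, x⟩
      simp only [Set.mem_preimage, Set.mem_iUnion, Set.mem_prod, Set.mem_singleton_iff]
      constructor
      · intro hx
        exact ⟨e, rfl, hx⟩
      · rintro ⟨e', rfl, hx⟩
        exact hx
    rw [h1]
    exact isOpen_iUnion (fun e => (isOpen_discrete _).prod (h e))

private theorem ep_mid {e e' : E} {x y : I} (h0 : 0 < x) (h1 : x < 1)
    (h : ep G e' y = ep G e x) : e' = e ∧ y = x := by
  have h2 := congrArg (nf G) h
  rw [nf_ep G e x h0 h1] at h2
  rcases eq_or_lt_of_le (unitInterval.nonneg' : 0 ≤ y) with h3 | h3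
  · rw [← h3, ep_zero, nf_vp] at h2
    cases h2
  · rcases eq_or_lt_of_le (unitInterval.le_one' : y ≤ 1) with h4 | h4
    · rw [h4, ep_one, nf_vp] at h2
      cases h2
    · rw [nf_ep G e' y h3 h4] at h2
      injection h2 with h5
      exact ⟨congrArg Prod.fst h5, congrArg Prod.snd h5⟩

private theorem ioo_mid {a b x : I} (hx : x ∈ Set.Ioo a b) : 0 < x ∧ x < 1 :=
  ⟨lt_of_le_of_lt unitInterval.nonneg' hx.1, lt_of_lt_of_le hx.2 unitInterval.le_one'⟩

private theorem img_open (e : E) (U : Set I) (hU : IsOpen U) (h : ∀ x ∈ U, 0 < x ∧ x < 1) :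
    IsOpen (ep G e '' U) := by
  rw [isOpen_iff_ep]
  intro e'
  by_cases he : e' = e
  · subst he
    have h1 : ep G e' ⁻¹' (ep G e' '' U) = U := by
      ext y
      constructor
      · rintro ⟨x, hx, hxy⟩
        have h2 := ep_mid G (h x hx).1 (h x hx).2 hxy.symm
        rw [h2.2]
        exact hx
      · intro hy
        exact ⟨y, hy, rfl⟩
    rw [h1]
    exact hU
  · have h1 : ep G e' ⁻¹' (ep G e '' U) = ∅ := by
      ext y
      simp only [Set.mem_preimage, Set.mem_image, Set.mem_empty_iff_false, iff_false]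
      rintro ⟨x, hx, hxy⟩
      exact he (ep_mid G (h x hx).1 (h x hx).2 hxy.symm).1
    rw [h1]
    exact isOpen_empty

theorem iv_open (e : E) (a b : I) : IsOpen (ep G e '' Set.Ioo a b) :=
  img_open G e _ isOpen_Ioo (fun _ hx => ioo_mid hx)

private theorem ioo_contr (a b : I) (h : a < b) : ContractibleSpace (Set.Ioo a b) := by
  have h0 : ((Set.Ioo (a : ℝ) (b : ℝ))).Nonempty := Set.nonempty_Ioo.2 h
  haveI := (convex_Ioo (a : ℝ) (b : ℝ)).contractibleSpace h0
  have e : (Set.Ioo a b) ≃ₜ (Set.Ioo (a : ℝ) (b : ℝ)) :=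
    { toFun := fun x => ⟨(x.1 : ℝ), x.2.1, x.2.2⟩
      invFun := fun y => ⟨⟨y.1, a.2.1.trans y.2.1.le, y.2.2.le.trans b.2.2⟩, y.2.1, y.2.2⟩
      left_inv := fun x => rfl
      right_inv := fun y => rfl
      continuous_toFun := by
        exact (continuous_subtype_val.comp continuous_subtype_val).subtype_mk _
      continuous_invFun := by
        exact (continuous_subtype_val.subtype_mk _).subtype_mk _ }
  exact e.contractibleSpace

theorem iv_contr (e : E) (a b : I) (h : a < b) :
    ContractibleSpace (ep G e '' Set.Ioo a b) := by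
  haveI := ioo_contr a b h
  let g : Set.Ioo a b → (ep G e '' Set.Ioo a b : Set (Geo G)) :=
    fun x => ⟨ep G e x.1, x.1, x.2, rfl⟩
  have hg : Function.Bijective g := by
    constructor
    · intro x y hxy
      have h1 : ep G e x.1 = ep G e y.1 := congrArg Subtype.val hxy
      have h2 := ioo_mid y.2
      exact Subtype.ext (ep_mid G h2.1 h2.2 h1).2
    · rintro ⟨_, x, hx, rfl⟩
      exact ⟨⟨x, hx⟩, rfl⟩
  have hc : Continuous g := ((continuous_ep G e).comp continuous_subtype_val).subtype_mk _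
  have ho : IsOpenMap g := by
    intro U hU
    obtain ⟨W, hW, rfl⟩ := isOpen_induced_iff.1 hU
    have h1 : g '' (Subtype.val ⁻¹' W) = Subtype.val ⁻¹' (ep G e '' (W ∩ Set.Ioo a b)) := by
      ext ⟨p, x, hx, rfl⟩
      constructor
      · rintro ⟨y, hy, hyx⟩
        have h2 : ep G e y.1 = ep G e x := congrArg Subtype.val hyx
        exact ⟨y.1, ⟨hy, y.2⟩, h2⟩
      · rintro ⟨y, ⟨hy1, hy2⟩, hyx⟩
        exact ⟨⟨y, hy2⟩, hy1, Subtype.ext hyx⟩
    rw [h1]
    refine (img_open G e _ (hW.inter isOpen_Ioo) ?_).preimage continuous_subtype_val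
    intro x hx
    exact ioo_mid hx.2
  exact ((Equiv.ofBijective g hg).toHomeomorphOfContinuousOpen hc ho).symm.contractibleSpace

theorem star_open (v : V) (r : ℝ) : IsOpen {p | dv G v p < r} :=
  isOpen_Iio.preimage (continuous_dv G v)

/-- the retraction to the vertex `v`, on normal forms -/
private noncomputable def g0 (v : V) (y : V ⊕ E × I) (s : I) : Geo G := by
  classical
  exact match y with
    | .inl w => vp G w
    | .inr (e, x) => if G.fin e false = v ∧ (x : ℝ) < 1 / 2 then ep G e (s * x) else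
        ep G e (σ (s * σ x))

private noncomputable def K0 (y : V ⊕ E × I) (s : I) : Geo G := by
  classical
  exact match y with
    | .inl w => vp G w
    | .inr (e, x) => if (x : ℝ) < 1 / 2 then ep G e (s * x) else ep G e (σ (s * σ x))

private theorem dv_ep (v : V) (e : E) (x : I) {r : ℝ} (hr : r ≤ 1 / 2)
    (h : dv G v (ep G e x) < r) :
    (G.fin e false = v ∧ (x : ℝ) < r) ∨ (G.fin e true = v ∧ 1 - (x : ℝ) < r) := by
  classical
  have h1 : dv G v (ep G e x) = min (1 / 2) (min (if G.fin e false = v then (x : ℝ) else 1)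
      (if G.fin e true = v then 1 - (x : ℝ) else 1)) := rfl
  rw [h1, min_lt_iff, min_lt_iff] at h
  rcases h with h | h | h
  · linarith
  · left
    split_ifs at h with h2
    · exact ⟨h2, h⟩
    · linarith
  · right
    split_ifs at h with h2
    · exact ⟨h2, h⟩
    · linarith

private theorem g0_eq (v : V) {r : ℝ} (hr : r ≤ 1 / 2) (y : V ⊕ E × I) (s : I)
    (h : dv G v (Quot.mk _ y) < r) : g0 G v (nf G (Quot.mk _ y)) s = K0 G y s := by
  classical
  rcases y with w | ⟨e, x⟩
  · rfl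
  · have h' : dv G v (ep G e x) < r := h
    have hm : nf G (Quot.mk _ (.inr (e, x))) = nf G (ep G e x) := rfl
    rw [hm]
    have hK : K0 G (.inr (e, x)) s
        = if (x : ℝ) < 1 / 2 then ep G e (s * x) else ep G e (σ (s * σ x)) := rfl
    rw [hK]
    rcases eq_or_lt_of_le (unitInterval.nonneg' : 0 ≤ x) with h3 | h3
    · subst h3
      rw [ep_zero, nf_vp]
      have h4 : ((0 : I) : ℝ) < 1 / 2 := by
        rw [Set.Icc.coe_zero]
        norm_num
      rw [if_pos h4, mul_zero, ep_zero]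
      rfl
    · rcases eq_or_lt_of_le (unitInterval.le_one' : x ≤ 1) with h4 | h4
      · subst h4
        rw [ep_one, nf_vp]
        have h5 : ¬ ((1 : I) : ℝ) < 1 / 2 := by
          rw [Set.Icc.coe_one]
          norm_num
        rw [if_neg h5, unitInterval.symm_one, mul_zero, unitInterval.symm_zero, ep_one]
        rfl
      · rw [nf_ep G e x h3 h4]
        have hg : g0 G v (.inr (e, x)) s = if G.fin e false = v ∧ (x : ℝ) < 1 / 2 then
            ep G e (s * x) else ep G e (σ (s * σ x)) := rfl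
        rw [hg]
        rcases dv_ep G v e x hr h' with ⟨h5, h6⟩ | ⟨h5, h6⟩
        · rw [if_pos ⟨h5, h6.trans_le hr⟩, if_pos (h6.trans_le hr)]
        · have h7 : ¬ (x : ℝ) < 1 / 2 := by
            intro h8
            linarith
          rw [if_neg (fun h8 => h7 h8.2), if_neg h7]

private theorem dv_ep_false (v : V) (e : E) (x : I) (h : G.fin e false = v) :
    dv G v (ep G e x) ≤ x := by
  classical
  have h1 : dv G v (ep G e x) = min (1 / 2) (min (if G.fin e false = v then (x : ℝ) else 1)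
      (if G.fin e true = v then 1 - (x : ℝ) else 1)) := rfl
  rw [h1, if_pos h]
  exact (min_le_right _ _).trans (min_le_left _ _)

private theorem dv_ep_true (v : V) (e : E) (x : I) (h : G.fin e true = v) :
    dv G v (ep G e x) ≤ 1 - x := by
  classical
  have h1 : dv G v (ep G e x) = min (1 / 2) (min (if G.fin e false = v then (x : ℝ) else 1)
      (if G.fin e true = v then 1 - (x : ℝ) else 1)) := rfl
  rw [h1, if_pos h]
  exact (min_le_right _ _).trans (min_le_right _ _)

private theorem mem_st (v : V) {r : ℝ} (h0 : 0 < r) (hr : r ≤ 1 / 2) (y : V ⊕ E × I) (s : I)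
    (h : dv G v (Quot.mk _ y) < r) : dv G v (K0 G y s) < r := by
  classical
  rcases y with w | ⟨e, x⟩
  · exact h
  · have h' : dv G v (ep G e x) < r := h
    have hK : K0 G (.inr (e, x)) s
        = if (x : ℝ) < 1 / 2 then ep G e (s * x) else ep G e (σ (s * σ x)) := rfl
    rw [hK]
    have hs0 : (0 : ℝ) ≤ s := s.2.1
    have hs1 : (s : ℝ) ≤ 1 := s.2.2
    have hx0 : (0 : ℝ) ≤ x := x.2.1
    have hx1 : (x : ℝ) ≤ 1 := x.2.2
    rcases dv_ep G v e x hr h' with ⟨h5, h6⟩ | ⟨h5, h6⟩
    · rw [if_pos (h6.trans_le hr)]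
      refine lt_of_le_of_lt (dv_ep_false G v e _ h5) ?_
      have h7 : ((s * x : I) : ℝ) = s * x := rfl
      rw [h7]
      nlinarith
    · have h7 : ¬ (x : ℝ) < 1 / 2 := by
        intro h8
        linarith
      rw [if_neg h7]
      refine lt_of_le_of_lt (dv_ep_true G v e _ h5) ?_
      have h8 : ((σ (s * σ x) : I) : ℝ) = 1 - s * (1 - x) := rfl
      rw [h8]
      nlinarith

private theorem K0_one (y : V ⊕ E × I) : K0 G y 1 = Quot.mk _ y := by
  classical
  rcases y with w | ⟨e, x⟩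
  · rfl
  · have hK : K0 G (.inr (e, x)) 1
        = if (x : ℝ) < 1 / 2 then ep G e (1 * x) else ep G e (σ (1 * σ x)) := rfl
    rw [hK, one_mul, one_mul, unitInterval.symm_symm, ite_self]
    rfl

private theorem K0_zero (v : V) {r : ℝ} (hr : r ≤ 1 / 2) (y : V ⊕ E × I)
    (h : dv G v (Quot.mk _ y) < r) : K0 G y 0 = vp G v := by
  classical
  rcases y with w | ⟨e, x⟩
  · have h' : dv G v (vp G w) < r := h
    by_cases hw : w = v
    · subst hw
      rfl
    · rw [dv_ne G hw] at h'
      linarith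
  · have h' : dv G v (ep G e x) < r := h
    have hK : K0 G (.inr (e, x)) 0
        = if (x : ℝ) < 1 / 2 then ep G e (0 * x) else ep G e (σ (0 * σ x)) := rfl
    rw [hK, zero_mul, zero_mul, unitInterval.symm_zero]
    rcases dv_ep G v e x hr h' with ⟨h5, h6⟩ | ⟨h5, h6⟩
    · rw [if_pos (h6.trans_le hr), ep_zero, h5]
    · have h7 : ¬ (x : ℝ) < 1 / 2 := by
        intro h8
        linarith
      rw [if_neg h7, ep_one, h5]

theorem star_contr (v : V) (r : ℝ) (h0 : 0 < r) (h1 : r ≤ 1 / 2) :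
    ContractibleSpace {p | dv G v p < r} := by
  classical
  letI : TopologicalSpace V := ⊥
  letI : TopologicalSpace E := ⊥
  haveI : DiscreteTopology V := ⟨rfl⟩
  haveI : DiscreteTopology E := ⟨rfl⟩
  have hq : IsQuotientMap (Quot.mk (GeoRel G) : V ⊕ E × I → Geo G) := isQuotientMap_quot_mk
  have hqY := hq.restrictPreimage_isOpen (star_open G v r)
  have hK : Continuous (fun p :
      ((Quot.mk (GeoRel G) : V ⊕ E × I → Geo G) ⁻¹' {p | dv G v p < r}) × I =>
        K0 G p.1.1 p.2) := by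
    rw [continuous_iff_continuousAt]
    rintro ⟨⟨y, hy⟩, s⟩
    have hX : Continuous (fun p :
        ((Quot.mk (GeoRel G) : V ⊕ E × I → Geo G) ⁻¹' {p | dv G v p < r}) × I =>
        (Sum.elim (fun _ => 0) Prod.snd : V ⊕ E × I → I) p.1.1) :=
      (continuous_const.sumElim continuous_snd).comp
        (continuous_subtype_val.comp continuous_fst)
    rcases y with w | ⟨e, x⟩
    · have h2 : (fun p : ((Quot.mk (GeoRel G) : V ⊕ E × I → Geo G) ⁻¹' {p | dv G v p < r}) × I =>
          K0 G p.1.1 p.2) =ᶠ[𝓝 (⟨⟨.inl w, hy⟩, s⟩)] fun _ => vp G w := by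
        have h3 : (fun p : ((Quot.mk (GeoRel G) : V ⊕ E × I → Geo G) ⁻¹'
            {p | dv G v p < r}) × I => p.1.1) ⁻¹' (Sum.inl '' {w}) ∈
            𝓝 ((⟨⟨.inl w, hy⟩, s⟩) : ((Quot.mk (GeoRel G) : V ⊕ E × I → Geo G) ⁻¹'
            {p | dv G v p < r}) × I) := by
          apply IsOpen.mem_nhds
          · exact (isOpenMap_inl _ (isOpen_discrete _)).preimage
              (continuous_subtype_val.comp continuous_fst)
          · exact ⟨w, rfl, rfl⟩
        filter_upwards [h3] with p hp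
        obtain ⟨w', hw', hp'⟩ := hp
        have hw'' : w' = w := hw'
        subst hw''
        have hp2 : p.1.1 = .inl w' := hp'.symm
        show K0 G p.1.1 p.2 = _
        rw [hp2]
        rfl
      exact (continuousAt_const).congr h2.symm
    · have hxr := dv_ep G v e x h1 hy
      have hx2 : (x : ℝ) < 1 / 2 ∨ 1 / 2 < (x : ℝ) := by
        rcases hxr with ⟨_, h6⟩ | ⟨_, h6⟩
        · left; linarith
        · right; linarith
      rcases hx2 with hx2 | hx2
      · have h2 : (fun p : ((Quot.mk (GeoRel G) : V ⊕ E × I → Geo G) ⁻¹'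
            {p | dv G v p < r}) × I =>
            K0 G p.1.1 p.2) =ᶠ[𝓝 (⟨⟨.inr (e, x), hy⟩, s⟩)] fun p => ep G e (p.2 *
              (Sum.elim (fun _ => 0) Prod.snd : V ⊕ E × I → I) p.1.1) := by
          have h3 : (fun p : ((Quot.mk (GeoRel G) : V ⊕ E × I → Geo G) ⁻¹'
              {p | dv G v p < r}) × I => p.1.1) ⁻¹'
              (Sum.inr '' (({e} : Set E) ×ˢ {x' : I | (x' : ℝ) < 1 / 2})) ∈
              𝓝 ((⟨⟨.inr (e, x), hy⟩, s⟩) : ((Quot.mk (GeoRel G) : V ⊕ E × I → Geo G) ⁻¹'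
              {p | dv G v p < r}) × I) := by
            apply IsOpen.mem_nhds
            · refine (isOpenMap_inr _ ((isOpen_discrete _).prod ?_)).preimage
                (continuous_subtype_val.comp continuous_fst)
              exact isOpen_lt continuous_subtype_val continuous_const
            · exact ⟨(e, x), ⟨rfl, hx2⟩, rfl⟩
          filter_upwards [h3] with p hp
          obtain ⟨⟨e', x'⟩, ⟨he', hx'⟩, hp'⟩ := hp
          have he'' : e' = e := he'
          subst he''
          have hp2 : p.1.1 = .inr (e', x') := hp'.symm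
          show K0 G p.1.1 p.2 = ep G e' (p.2 * (Sum.elim (fun _ => 0) Prod.snd) p.1.1)
          rw [hp2]
          exact if_pos hx'
        refine ContinuousAt.congr ?_ h2.symm
        exact ((continuous_ep G e).comp (continuous_snd.mul hX)).continuousAt
      · have h2 : (fun p : ((Quot.mk (GeoRel G) : V ⊕ E × I → Geo G) ⁻¹'
            {p | dv G v p < r}) × I =>
            K0 G p.1.1 p.2) =ᶠ[𝓝 (⟨⟨.inr (e, x), hy⟩, s⟩)] fun p => ep G e (σ (p.2 *
              σ ((Sum.elim (fun _ => 0) Prod.snd : V ⊕ E × I → I) p.1.1))) := by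
          have h3 : (fun p : ((Quot.mk (GeoRel G) : V ⊕ E × I → Geo G) ⁻¹'
              {p | dv G v p < r}) × I => p.1.1) ⁻¹'
              (Sum.inr '' (({e} : Set E) ×ˢ {x' : I | 1 / 2 < (x' : ℝ)})) ∈
              𝓝 ((⟨⟨.inr (e, x), hy⟩, s⟩) : ((Quot.mk (GeoRel G) : V ⊕ E × I → Geo G) ⁻¹'
              {p | dv G v p < r}) × I) := by
            apply IsOpen.mem_nhds
            · refine (isOpenMap_inr _ ((isOpen_discrete _).prod ?_)).preimage
                (continuous_subtype_val.comp continuous_fst)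
              exact isOpen_lt continuous_const continuous_subtype_val
            · exact ⟨(e, x), ⟨rfl, hx2⟩, rfl⟩
          filter_upwards [h3] with p hp
          obtain ⟨⟨e', x'⟩, ⟨he', hx'⟩, hp'⟩ := hp
          have he'' : e' = e := he'
          subst he''
          have hp2 : p.1.1 = .inr (e', x') := hp'.symm
          show K0 G p.1.1 p.2 = ep G e' (σ (p.2 * σ ((Sum.elim (fun _ => 0) Prod.snd) p.1.1)))
          rw [hp2]
          exact if_neg (not_lt.2 (le_of_lt hx'))
        refine ContinuousAt.congr ?_ h2.symm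
        exact ((continuous_ep G e).comp (unitInterval.continuous_symm.comp
          (continuous_snd.mul (unitInterval.continuous_symm.comp hX)))).continuousAt
  have hcont : Continuous (fun p : {p | dv G v p < r} × I => g0 G v (nf G p.1.1) p.2) := by
    apply hqY.continuous_lift_prod_left
    exact hK.congr (fun p => (g0_eq G v h1 p.1.1 p.2 p.1.2).symm)
  have hmem : ∀ p : {p | dv G v p < r} × I, dv G v (g0 G v (nf G p.1.1) p.2) < r := by
    rintro ⟨⟨p, hp⟩, s⟩
    induction p using Quot.ind with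
    | mk y =>
      show dv G v (g0 G v (nf G (Quot.mk _ y)) s) < r
      rw [g0_eq G v h1 y s hp]
      exact mem_st G v h0 h1 y s hp
  have hv : dv G v (vp G v) < r := by
    rw [(dv_eq_zero G v _).2 rfl]
    exact h0
  rw [contractible_iff_id_nullhomotopic]
  refine ⟨⟨vp G v, hv⟩, ⟨?_⟩⟩
  exact
    { toFun := fun q => ⟨g0 G v (nf G q.2.1) (σ q.1), hmem (q.2, σ q.1)⟩
      continuous_toFun := by
        apply Continuous.subtype_mk
        exact hcont.comp (continuous_snd.prodMk (unitInterval.continuous_symm.comp continuous_fst))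
      map_zero_left := by
        rintro ⟨p, hp⟩
        induction p using Quot.ind with
        | mk y =>
          apply Subtype.ext
          show g0 G v (nf G (Quot.mk _ y)) (σ 0) = Quot.mk _ y
          rw [g0_eq G v h1 y _ hp, unitInterval.symm_zero, K0_one]
      map_one_left := by
        rintro ⟨p, hp⟩
        induction p using Quot.ind with
        | mk y =>
          apply Subtype.ext
          show g0 G v (nf G (Quot.mk _ y)) (σ 1) = vp G v
          rw [g0_eq G v h1 y _ hp, unitInterval.symm_one, K0_zero G v h1 y hp] }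

/-- a good ball around `p`: a star or an interval -/
def Good (p : Geo G) (B : Set (Geo G)) : Prop :=
  (∃ v r, p = vp G v ∧ 0 < r ∧ r ≤ 1 / 2 ∧ B = {q | dv G v q < r}) ∨
  (∃ e u a b, p = ep G e u ∧ a < u ∧ u < b ∧ B = ep G e '' Set.Ioo a b)

/-- the ball of radius `ρ`, on normal forms -/
private def Bl0 (y : V ⊕ E × I) (ρ : ℝ) : Set (Geo G) := match y with
  | .inl v => {q | dv G v q < ρ}
  | .inr (e, u) => ep G e '' Set.Ioo (Set.projIcc (0 : ℝ) 1 zero_le_one ((u : ℝ) - ρ))
      (Set.projIcc (0 : ℝ) 1 zero_le_one ((u : ℝ) + ρ))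

private theorem ioo_abs {u x : I} {ρ : ℝ}
    (hx : x ∈ Set.Ioo (Set.projIcc (0 : ℝ) 1 zero_le_one ((u : ℝ) - ρ))
      (Set.projIcc (0 : ℝ) 1 zero_le_one ((u : ℝ) + ρ))) :
    (u : ℝ) - ρ < x ∧ (x : ℝ) < u + ρ := by
  obtain ⟨h1, h2⟩ := hx
  have h3 : ((Set.projIcc (0 : ℝ) 1 zero_le_one ((u : ℝ) - ρ) : I) : ℝ) < x := h1
  have h4 : (x : ℝ) < ((Set.projIcc (0 : ℝ) 1 zero_le_one ((u : ℝ) + ρ) : I) : ℝ) := h2
  rw [Set.coe_projIcc] at h3 h4
  have hx0 : (0 : ℝ) ≤ x := x.2.1
  have hx1 : (x : ℝ) ≤ 1 := x.2.2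
  constructor
  · by_contra h5
    push Not at h5
    have h6 : (x : ℝ) ≤ max 0 (min 1 ((u : ℝ) - ρ)) := by
      apply le_max_of_le_right
      exact le_min hx1 h5
    linarith
  · by_contra h5
    push Not at h5
    have h6 : max 0 (min 1 ((u : ℝ) + ρ)) ≤ x := by
      apply max_le hx0
      exact (min_le_right _ _).trans h5
    linarith

private theorem self_mem {u : I} {ρ : ℝ} (h0 : 0 < u) (h1 : u < 1) (hρ : 0 < ρ) :
    (Set.projIcc (0 : ℝ) 1 zero_le_one ((u : ℝ) - ρ) : I) < u ∧
      u < (Set.projIcc (0 : ℝ) 1 zero_le_one ((u : ℝ) + ρ) : I) := by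
  have h0' : (0 : ℝ) < u := h0
  have h1' : (u : ℝ) < 1 := h1
  constructor
  · show ((Set.projIcc (0 : ℝ) 1 zero_le_one ((u : ℝ) - ρ) : I) : ℝ) < u
    rw [Set.coe_projIcc]
    apply max_lt h0'
    apply min_lt_of_right_lt
    linarith
  · show (u : ℝ) < ((Set.projIcc (0 : ℝ) 1 zero_le_one ((u : ℝ) + ρ) : I) : ℝ)
    rw [Set.coe_projIcc]
    apply lt_max_of_lt_right
    apply lt_min h1'
    linarith

private theorem ball_good (p : Geo G) {ρ : ℝ} (h0 : 0 < ρ) (h1 : ρ ≤ 1 / 2) :
    Good G p (Bl0 G (nf G p) ρ) ∧ IsOpen (Bl0 G (nf G p) ρ) ∧ p ∈ Bl0 G (nf G p) ρ ∧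
      ContractibleSpace (Bl0 G (nf G p) ρ) := by
  rcases pt_cases G p with ⟨v, rfl⟩ | ⟨e, u, hu0, hu1, rfl⟩
  · rw [nf_vp]
    refine ⟨Or.inl ⟨v, ρ, rfl, h0, h1, rfl⟩, star_open G v ρ, ?_, star_contr G v ρ h0 h1⟩
    show dv G v (vp G v) < ρ
    rw [(dv_eq_zero G v _).2 rfl]
    exact h0
  · rw [nf_ep G e u hu0 hu1]
    obtain ⟨h2, h3⟩ := self_mem hu0 hu1 h0
    exact ⟨Or.inr ⟨e, u, _, _, rfl, h2, h3, rfl⟩, iv_open G e _ _, ⟨u, ⟨h2, h3⟩, rfl⟩,
      iv_contr G e _ _ (h2.trans h3)⟩

private theorem disj_ve (v : V) (e : E) (u : I) (hu0 : 0 < u) (hu1 : u < 1) :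
    ∀ᶠ ρ in 𝓝[>] (0 : ℝ), Disjoint (Bl0 G (.inl v) ρ) (Bl0 G (.inr (e, u)) ρ) := by
  have hu0' : (0 : ℝ) < u := hu0
  have hu1' : (0 : ℝ) < 1 - u := sub_pos.2 hu1
  have h3 : ∀ᶠ ρ in 𝓝[>] (0 : ℝ), ρ < min (1 / 2) (min ((u : ℝ) / 2) ((1 - (u : ℝ)) / 2)) :=
    (eventually_lt_nhds (by positivity)).filter_mono nhdsWithin_le_nhds
  filter_upwards [h3] with ρ hρ
  rw [lt_min_iff, lt_min_iff] at hρ
  rw [Set.disjoint_left]
  rintro z hz ⟨x, hx, rfl⟩
  have hx' := ioo_abs hx
  rcases dv_ep G v e x (le_of_lt hρ.1) hz with ⟨_, h6⟩ | ⟨_, h6⟩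
  · linarith [hρ.2.1, hρ.2.2]
  · linarith [hρ.2.1, hρ.2.2]

private theorem ball_disj (p q : Geo G) (hpq : p ≠ q) :
    ∀ᶠ ρ in 𝓝[>] (0 : ℝ), Disjoint (Bl0 G (nf G p) ρ) (Bl0 G (nf G q) ρ) := by
  rcases pt_cases G p with ⟨v, rfl⟩ | ⟨e, u, hu0, hu1, rfl⟩
  · rcases pt_cases G q with ⟨w, rfl⟩ | ⟨e', u', hu0', hu1', rfl⟩
    · rw [nf_vp, nf_vp]
      have h3 : ∀ᶠ ρ in 𝓝[>] (0 : ℝ), ρ < 1 / 2 :=
        (eventually_lt_nhds (by norm_num)).filter_mono nhdsWithin_le_nhds
      filter_upwards [h3] with ρ hρ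
      rw [Set.disjoint_left]
      intro z hz hz'
      have hz1 : dv G v z < ρ := hz
      have hz2 : dv G w z < ρ := hz'
      exact hpq (congrArg (vp G) (dv_disj G (hz1.trans hρ) (hz2.trans hρ)))
    · rw [nf_vp, nf_ep G e' u' hu0' hu1']
      exact disj_ve G v e' u' hu0' hu1'
  · rcases pt_cases G q with ⟨w, rfl⟩ | ⟨e', u', hu0', hu1', rfl⟩
    · rw [nf_vp, nf_ep G e u hu0 hu1]
      filter_upwards [disj_ve G w e u hu0 hu1] with ρ hρ
      exact hρ.symm
    · rw [nf_ep G e u hu0 hu1, nf_ep G e' u' hu0' hu1']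
      by_cases he : e = e'
      · subst he
        have hu : (u : ℝ) ≠ u' := by
          intro h
          exact hpq (congrArg (ep G e) (Subtype.ext h))
        have h3 : ∀ᶠ ρ in 𝓝[>] (0 : ℝ), ρ < |(u : ℝ) - u'| / 2 :=
          (eventually_lt_nhds (by
            have := abs_pos.2 (sub_ne_zero.2 hu)
            positivity)).filter_mono nhdsWithin_le_nhds
        filter_upwards [h3] with ρ hρ
        rw [Set.disjoint_left]
        rintro z ⟨x, hx, rfl⟩ ⟨x', hx', hxx⟩
        have hm := ioo_mid hx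
        have h4 := (ep_mid G hm.1 hm.2 hxx).2
        subst h4
        have h5 := ioo_abs hx
        have h6 := ioo_abs hx'
        have h7 : |(u : ℝ) - u'| ≤ 2 * ρ := by
          rw [abs_le]
          constructor <;> linarith
        linarith
      · filter_upwards with ρ
        rw [Set.disjoint_left]
        rintro z ⟨x, hx, rfl⟩ ⟨x', hx', hxx⟩
        have hm := ioo_mid hx
        exact he (ep_mid G hm.1 hm.2 hxx).1.symm

/-- finitely many different points have disjoint good balls -/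
theorem exists_balls {n : ℕ} (x : Fin n → Geo G) (hx : Function.Injective x) :
    ∃ B : Fin n → Set (Geo G), (∀ i, Good G (x i) (B i)) ∧ (∀ i, IsOpen (B i)) ∧
      (∀ i, x i ∈ B i) ∧ (∀ i, ContractibleSpace (B i)) ∧
      ∀ i j, i ≠ j → Disjoint (B i) (B j) := by
  have h1 : ∀ᶠ ρ in 𝓝[>] (0 : ℝ), ∀ i j : Fin n, i ≠ j →
      Disjoint (Bl0 G (nf G (x i)) ρ) (Bl0 G (nf G (x j)) ρ) := by
    rw [Filter.eventually_all]
    intro i
    rw [Filter.eventually_all]
    intro j
    by_cases hij : i = j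
    · filter_upwards with ρ h
      exact absurd hij h
    · filter_upwards [ball_disj G (x i) (x j) (fun h => hij (hx h))] with ρ hρ _
      exact hρ
  have h2 : ∀ᶠ ρ in 𝓝[>] (0 : ℝ), ρ < 1 / 2 :=
    (eventually_lt_nhds (by norm_num)).filter_mono nhdsWithin_le_nhds
  have h3 : ∀ᶠ ρ in 𝓝[>] (0 : ℝ), 0 < ρ := self_mem_nhdsWithin
  obtain ⟨ρ, hρ1, hρ2, hρ3⟩ := (h1.and (h2.and h3)).exists
  exact ⟨fun i => Bl0 G (nf G (x i)) ρ, fun i => (ball_good G (x i) hρ3 hρ2.le).1,
    fun i => (ball_good G (x i) hρ3 hρ2.le).2.1, fun i => (ball_good G (x i) hρ3 hρ2.le).2.2.1,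
    fun i => (ball_good G (x i) hρ3 hρ2.le).2.2.2, hρ1⟩

end TP

end GB
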