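import Pool.Agent.Helper95.GB.TP.Defs

/-! # GB/TP/Chart: charts of the unordered configuration space of a general space (stub, prove in place)

`q : OConf n X → UConf n X` is open: for `U` open, `q⁻¹ (q U) = ⋃ τ, {x | x ∘ τ ∈ U}`; it is a quotient map.
`chart B hd : (∀ i, B i) → UConf n X` is the composition of `(∀ i, B i) → OConf n X`, which is an open embedding for open `B i` (open embedding into
`Fin n → X` because `Fin n` is finite: the image of a basic open box is a box), and `q`.  Injective: if `b' = b ∘ τ` then `b' i ∈ B i ∩ B (τ i)`, so `τ i = i`.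
`chart_simply`: a product of contractible spaces over `Fin n` is contractible (homotopies in each coordinate), so simply connected;
`Topology.IsEmbedding.isSimplyConnected_image` (with `Set.range = image of univ`).
`uc_surj`: `Quot.ind`.  `uc_eq`: the relation is an equivalence relation (`Quot` takes the generated one): `Quot.eqvGen_exact` and induction.
`path_uc`: continuity of `t ↦ uc (x t) _` from the continuity of `x : I → (Fin n → X)`.
-/

set_option autoImplicit false

namespace GB

open unitInterval Topology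

namespace TP

variable {n : ℕ} {X : Type}

theorem uc_surj (s : UConf n X) : ∃ x hx, s = uc x hx := by
  induction s using Quot.ind with
  | mk x => exact ⟨x.1, x.2, rfl⟩

theorem uc_eq {x y : Fin n → X} (hx : Function.Injective x) (hy : Function.Injective y) :
    uc x hx = uc y hy ↔ ∃ τ : Equiv.Perm (Fin n), y = x ∘ τ := by
  constructor
  · intro h
    have h1 := Quot.eqvGen_exact h
    have h2 : ∀ a b : OConf n X, Relation.EqvGen
        (fun x y : OConf n X => ∃ τ : Equiv.Perm (Fin n), y.1 = x.1 ∘ τ) a b →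
        ∃ τ : Equiv.Perm (Fin n), b.1 = a.1 ∘ τ := by
      intro a b hab
      induction hab with
      | rel a b h => exact h
      | refl a => exact ⟨1, rfl⟩
      | symm a b _ ih =>
        obtain ⟨τ, hτ⟩ := ih
        refine ⟨τ⁻¹, ?_⟩
        rw [hτ]
        funext i
        simp
      | trans a b c _ _ ih1 ih2 =>
        obtain ⟨τ, hτ⟩ := ih1
        obtain ⟨τ', hτ'⟩ := ih2
        refine ⟨τ * τ', ?_⟩
        rw [hτ', hτ]
        rfl
    exact h2 ⟨x, hx⟩ ⟨y, hy⟩ h1
  · rintro ⟨τ, hτ⟩
    exact Quot.sound ⟨τ, hτ⟩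

theorem inj_of_disj {B : Fin n → Set X} (hd : ∀ i j, i ≠ j → Disjoint (B i) (B j))
    (b : ∀ i, B i) : Function.Injective (fun i => (b i : X)) := by
  intro i j hij
  by_contra hne
  have h1 : (b i : X) ∈ B j := by
    have h2 : (b i : X) = b j := hij
    rw [h2]
    exact (b j).2
  exact Set.disjoint_left.1 (hd i j hne) (b i).2 h1

/-- chart given by disjoint sets -/
def chart (B : Fin n → Set X) (hd : ∀ i j, i ≠ j → Disjoint (B i) (B j)) (b : ∀ i, B i) :
    UConf n X := uc (fun i => (b i : X)) (inj_of_disj hd b)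

/-- image of the chart -/
def CR (B : Fin n → Set X) : Set (UConf n X) :=
  {s | ∃ x hx, s = uc x hx ∧ ∀ i, x i ∈ B i}

variable [TopologicalSpace X]

theorem isOpenMap_uc : IsOpenMap (fun x : OConf n X => uc x.1 x.2) := by
  intro U hU
  have hq : IsQuotientMap (fun x : OConf n X => uc x.1 x.2) :=
    isQuotientMap_quot_mk
  rw [← hq.isOpen_preimage]
  have h1 : (fun x : OConf n X => uc x.1 x.2) ⁻¹' ((fun x : OConf n X => uc x.1 x.2) '' U) =
      ⋃ τ : Equiv.Perm (Fin n),
        (fun x : OConf n X => (⟨x.1 ∘ τ, x.2.comp τ.injective⟩ : OConf n X)) ⁻¹' U := by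
    ext x
    rw [Set.mem_preimage, Set.mem_image, Set.mem_iUnion]
    constructor
    · rintro ⟨y, hy, hxy⟩
      obtain ⟨τ, hτ⟩ := (uc_eq x.2 y.2).1 hxy.symm
      refine ⟨τ, ?_⟩
      have h2 : (⟨x.1 ∘ τ, x.2.comp τ.injective⟩ : OConf n X) = y := Subtype.ext hτ.symm
      exact (congrArg (· ∈ U) h2).mpr hy
    · rintro ⟨τ, hτ⟩
      exact ⟨_, hτ, ((uc_eq _ _).2 ⟨τ, rfl⟩).symm⟩
  rw [h1]
  refine isOpen_iUnion fun τ => IsOpen.preimage ?_ hU
  refine Continuous.subtype_mk ?_ _
  exact continuous_pi fun i => (continuous_apply (τ i)).comp continuous_subtype_val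

theorem continuous_uc {A : Type} [TopologicalSpace A] (f : A → Fin n → X)
    (hf : ∀ i, Continuous (fun a => f a i)) (hi : ∀ a, Function.Injective (f a)) :
    Continuous (fun a => uc (f a) (hi a)) := by
  have h1 : Continuous (fun a => (⟨f a, hi a⟩ : OConf n X)) :=
    Continuous.subtype_mk (continuous_pi hf) hi
  exact continuous_quot_mk.comp h1

theorem chart_emb (B : Fin n → Set X) (hB : ∀ i, IsOpen (B i))
    (hd : ∀ i j, i ≠ j → Disjoint (B i) (B j)) : IsOpenEmbedding (chart B hd) := by
  refine IsOpenEmbedding.of_continuous_injective_isOpenMap ?_ ?_ ?_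
  · exact continuous_uc _ (fun i => continuous_subtype_val.comp (continuous_apply i)) _
  · intro b b' h
    obtain ⟨τ, hτ⟩ := (uc_eq _ _).1 h
    funext i
    have h1 : (b' i : X) = b (τ i) := congrFun hτ i
    by_cases h2 : τ i = i
    · rw [h2] at h1
      exact Subtype.ext h1.symm
    · exfalso
      refine Set.disjoint_left.1 (hd (τ i) i h2) (b (τ i)).2 ?_
      rw [← h1]
      exact (b' i).2
  · have h1 : IsOpenEmbedding (Pi.map (fun i => ((↑) : B i → X))) :=
      IsOpenEmbedding.piMap fun i => (hB i).isOpenEmbedding_subtypeVal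
    intro U hU
    have h2 : chart B hd '' U = (fun x : OConf n X => uc x.1 x.2) ''
        ((Subtype.val : OConf n X → Fin n → X) ⁻¹' (Pi.map (fun i => ((↑) : B i → X)) '' U)) := by
      ext s
      constructor
      · rintro ⟨b, hb, rfl⟩
        exact ⟨⟨fun i => (b i : X), inj_of_disj hd b⟩, ⟨b, hb, rfl⟩, rfl⟩
      · rintro ⟨x, ⟨b, hb, hx⟩, rfl⟩
        refine ⟨b, hb, ?_⟩
        unfold chart
        refine (uc_eq _ _).2 ⟨1, ?_⟩
        rw [← hx]
        rfl
    rw [h2]
    exact isOpenMap_uc _ ((h1.isOpenMap _ hU).preimage continuous_subtype_val)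

theorem range_chart {n : ℕ} {X : Type} (B : Fin n → Set X)
    (hd : ∀ i j, i ≠ j → Disjoint (B i) (B j)) : Set.range (chart B hd) = CR B := by
  ext s
  constructor
  · rintro ⟨b, rfl⟩
    exact ⟨_, inj_of_disj hd b, rfl, fun i => (b i).2⟩
  · rintro ⟨x, hx, rfl, h⟩
    exact ⟨fun i => ⟨x i, h i⟩, rfl⟩

theorem CR_open (B : Fin n → Set X) (hB : ∀ i, IsOpen (B i))
    (hd : ∀ i j, i ≠ j → Disjoint (B i) (B j)) : IsOpen (CR B) := by
  rw [← range_chart B hd]
  exact (chart_emb B hB hd).isOpen_range

/-- two paths in the image of a chart with contractible pieces are homotopic -/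
theorem CR_paths (B : Fin n → Set X) (hB : ∀ i, IsOpen (B i))
    (hd : ∀ i j, i ≠ j → Disjoint (B i) (B j)) (hc : ∀ i, ContractibleSpace (B i))
    {s s' : UConf n X} (γ γ' : Path s s') (h : ∀ t, γ t ∈ CR B) (h' : ∀ t, γ' t ∈ CR B) :
    γ.Homotopic γ' := by
  have hemb := (chart_emb B hB hd).isEmbedding
  obtain ⟨b, hb⟩ : ∃ b, chart B hd b = s := by
    have h1 := h 0
    rw [← range_chart B hd, γ.source] at h1
    exact h1
  obtain ⟨b', hb'⟩ : ∃ b, chart B hd b = s' := by
    have h1 := h 1
    rw [← range_chart B hd, γ.target] at h1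
    exact h1
  subst hb hb'
  have key : ∀ δ : Path (chart B hd b) (chart B hd b'), (∀ t, δ t ∈ CR B) →
      ∃ e : Path b b', e.map hemb.continuous = δ := by
    intro δ hδ
    have h1 : ∀ t, ∃ c, chart B hd c = δ t := by
      intro t
      have h2 := hδ t
      rw [← range_chart B hd] at h2
      exact h2
    choose e he using h1
    have hc : Continuous e := by
      rw [hemb.isInducing.continuous_iff]
      have h3 : chart B hd ∘ e = δ := funext he
      rw [h3]
      exact δ.continuous
    refine ⟨⟨⟨e, hc⟩, hemb.injective ?_, hemb.injective ?_⟩, ?_⟩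
    · change chart B hd (e 0) = _
      rw [he, δ.source]
    · change chart B hd (e 1) = _
      rw [he, δ.target]
    · ext t
      exact he t
  obtain ⟨e, rfl⟩ := key γ h
  obtain ⟨e', rfl⟩ := key γ' h'
  have h4 : ∀ i, ((e.map (continuous_apply i)).Homotopic (e'.map (continuous_apply i))) :=
    fun i => SimplyConnectedSpace.paths_homotopic _ _
  have h5 : e.Homotopic e' := by
    have h6 : (Path.pi fun i => e.map (continuous_apply i)).Homotopic
        (Path.pi fun i => e'.map (continuous_apply i)) :=
      ⟨Path.Homotopic.piHomotopy _ _ fun i => (h4 i).some⟩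
    have h7 : (Path.pi fun i => e.map (continuous_apply i)) = e := by
      ext t
      rfl
    have h8 : (Path.pi fun i => e'.map (continuous_apply i)) = e' := by
      ext t
      rfl
    rw [h7, h8] at h6
    exact h6
  exact h5.map ⟨chart B hd, hemb.continuous⟩

end TP

end GB
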