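import Pool.Agent.Helper95.GB.Defs

/-! # GB/TP: the topological configuration spaces of graphs -/

set_option autoImplicit false

namespace GB

open unitInterval Topology

/-- gluing of the intervals of the edges at the vertices -/
inductive GeoRel {V E : Type} (G : Gr V E) : V ⊕ E × I → V ⊕ E × I → Prop
  | zero (e : E) : GeoRel G (.inr (e, 0)) (.inl (G.fin e false))
  | one (e : E) : GeoRel G (.inr (e, 1)) (.inl (G.fin e true))

/-- The topological space of a graph: the quotient of the disjoint union of the discrete space of
the vertices and one unit interval for each edge, where the ends of the intervals are glued to the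
end vertices of the edges. -/
def Geo {V E : Type} (G : Gr V E) : Type := Quot (GeoRel G)

instance {V E : Type} (G : Gr V E) : TopologicalSpace (Geo G) :=
  letI : TopologicalSpace V := ⊥
  letI : TopologicalSpace E := ⊥
  inferInstanceAs (TopologicalSpace (Quot (GeoRel G)))

/-- the ordered configuration space of `n` different points of `X` -/
def OConf (n : ℕ) (X : Type) : Type := {x : Fin n → X // Function.Injective x}

instance (n : ℕ) (X : Type) [TopologicalSpace X] : TopologicalSpace (OConf n X) :=
  inferInstanceAs (TopologicalSpace {x : Fin n → X // Function.Injective x})

/-- The unordered configuration space: the quotient of the ordered configuration space by the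
permutations of the `n` points. -/
def UConf (n : ℕ) (X : Type) : Type :=
  Quot (fun x y : OConf n X => ∃ τ : Equiv.Perm (Fin n), y.1 = x.1 ∘ τ)

instance (n : ℕ) (X : Type) [TopologicalSpace X] : TopologicalSpace (UConf n X) :=
  inferInstanceAs (TopologicalSpace (Quot _))

namespace TP

variable {V E : Type} (G : Gr V E)

/-- points of the space of a graph: a vertex, a point of an edge, the point at the distance `t` from the
end of a half-edge -/
def vp (v : V) : Geo G := Quot.mk _ (.inl v)
def ep (e : E) (x : I) : Geo G := Quot.mk _ (.inr (e, x))
def hp (d : Dart E) (t : I) : Geo G := ep G d.1 (if d.2 then σ t else t)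

/-- the configuration of different points -/
def uc {n : ℕ} {X : Type} (x : Fin n → X) (hx : Function.Injective x) : UConf n X :=
  Quot.mk _ ⟨x, hx⟩

/-- normal form of the points of the space of a graph -/
noncomputable def nf0 (y : V ⊕ E × I) : V ⊕ E × I := by
  classical
  exact match y with
    | .inl v => .inl v
    | .inr (e, x) => if x = 0 then .inl (G.fin e false) else
        if x = 1 then .inl (G.fin e true) else .inr (e, x)

/-- distance from the vertex `v`, cut off at `1/2` -/
noncomputable def dv0 (v : V) (y : V ⊕ E × I) : ℝ := by
  classical
  exact match y with
    | .inl w => if w = v then 0 else 1 / 2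
    | .inr (e, x) => min (1 / 2) (min (if G.fin e false = v then (x : ℝ) else 1)
        (if G.fin e true = v then 1 - (x : ℝ) else 1))

end TP

end GB
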