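import Pool.Agent.Helper95.GB.TP.Mv

/-! # GB/TP/Ed: the classes of the edges of the Swiatkowski complex (stub, prove in place)

* `exists_ed`: `s = uc x`, `x i = vp (vt d)` for some `i` (`mem_occ`), `exists_adm`, `exists_mvPath`; `tpE i x = m` from `tpO_vertex` (`insert v a = insert v b` with `v ∉ a`,
`v ∉ b` implies `a = b`); `IsMv.tp` and `exists_lin` for the last part.
* `IsEd.unique`: `q = q₁ q₂ q₃`, `q' = q₁' q₂' q₃'`.  `p = q₁⁻¹ q₁'`, `p' = q₃ q₃'⁻¹` are linear; `IsMv.nat`: `q₂ p' = p q₂'`.  So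
`q' = q₁' q₂' q₃' = q₁ p q₂' q₃' = q₁ q₂ p' q₃' = q₁ q₂ q₃` (associativity, `symm` cancellation in `Path.Homotopic.Quotient`).
* `IsEd.pre`, `IsEd.post`: `IsLin.trans`.   * `of_mv`: with `IsLin.refl`.
* `ed_square`: let `s = uc z`, `z i = vp v`, `z j = vp w`, `v = vt x`, `w = vt y`, `i ≠ j`.  Choose `ε < 1/2` with `Adm z i x ε`, `Adm z j y ε` (`exists_adm`, `Adm.mono`).  For
`0 ≤ a, b ≤ ε`: `hp x a ≠ hp y b` (`dv_disj`, `dv_hp`; `v ≠ w`).  `F (a, b) = uc (update (update z i (hp x (ε * a))) j (hp y (ε * b)))` is well defined and continuous.  Its four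
sides are moves: `F (·, 0)`: `x` with `m = ⟨insert w occ, num⟩`; `F (1, ·)`: `y` with `m = ⟨occ, num + δ x.1⟩`; `F (0, ·)`: `y` with `⟨insert v occ, num⟩`; `F (·, 1)`: `x` with
`⟨occ, num + δ y.1⟩` (`tpE` of the updated tuples: `tpO_vertex`, `tpO_edge`; `update_comm`).  `square`: `μ₁ μ₂ = μ₁' μ₂'`.  By `IsEd.unique`: `q₁ = μ₁ l`, `q₂ = l⁻¹ μ₂ l₂` for linear `l`, `l₂`,
so `q₁ q₂ = μ₁ μ₂ l₂`, similarly `q₁' q₂' = μ₁' μ₂' l₂'`, and `l₂ = l₂'` (`IsLin.unique`).
-/

set_option autoImplicit false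

namespace GB

open unitInterval Topology

namespace TP

variable {V E : Type} [DecidableEq V] {G : Gr V E} {n : ℕ}

theorem ed_cancel {v : V} {a b : Finset V} {p q : E →₀ ℕ} (ha : v ∉ a) (hb : v ∉ b)
    (h : (⟨insert v a, p⟩ : Conf V E) = ⟨insert v b, q⟩) : a = b ∧ p = q := by
  have h1 : insert v a = insert v b := congrArg Conf.occ h
  have h2 : p = q := congrArg Conf.num h
  refine ⟨?_, h2⟩
  rw [← Finset.erase_insert ha, h1, Finset.erase_insert hb]

/-- moves exist -/
theorem exists_mv {z : Fin n → Geo G} (hz : Function.Injective z) {i : Fin n} {d : Dart E}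
    (hi : z i = vp G (G.vt d)) {ε : I} (h0 : 0 < ε) (h1 : ε < 1) (ha : Adm G z i d ε)
    (s s' : UConf n (Geo G)) (hs : s = uc z hz)
    (hs' : ∃ h', s' = uc (Function.update z i (hp G d ε)) h') :
    ∃ γ : Path s s', (∀ t, ∃ h, γ t = uc (Function.update z i (hp G d (ε * t))) h) ∧
      IsMv G d (tpE G i z) (Path.Homotopic.Quotient.mk γ) := by
  subst hs
  obtain ⟨h', rfl⟩ := hs'
  obtain ⟨γ, hγ⟩ := exists_mvPath hz hi ha h'
  exact ⟨γ, hγ, z, i, ε, γ, hz, hi, h0, h1, ha, rfl, hγ, rfl⟩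

theorem IsEd.tp {d : Dart E} {m : Conf V E} {s s' : UConf n (Geo G)}
    {q : Path.Homotopic.Quotient s s'} (h : IsEd G d m q) : G.vt d ∉ m.occ ∧
      tp G s = ⟨insert (G.vt d) m.occ, m.num⟩ ∧ tp G s' = ⟨m.occ, m.num + δ d.1⟩ := by
  obtain ⟨s1, s2, q1, q2, q3, h1, h2, h3, rfl⟩ := h
  obtain ⟨h4, h5, h6⟩ := h2.tp
  exact ⟨h4, h1.tp.trans h5, h3.tp.symm.trans h6⟩

theorem exists_ed {d : Dart E} {m : Conf V E} (hd : G.vt d ∉ m.occ) {s s' : UConf n (Geo G)}
    (hs : tp G s = ⟨insert (G.vt d) m.occ, m.num⟩) (hs' : tp G s' = ⟨m.occ, m.num + δ d.1⟩) :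
    ∃ q : Path.Homotopic.Quotient s s', IsEd G d m q := by
  obtain ⟨x, hx, rfl⟩ := uc_surj s
  have hs1 : tpO G x = ⟨insert (G.vt d) m.occ, m.num⟩ := hs
  have hmem : G.vt d ∈ (tpO G x).occ := by
    rw [hs1]
    exact Finset.mem_insert_self _ _
  obtain ⟨i, hi⟩ := (mem_occ G x _).1 hmem
  obtain ⟨ε, h0, _, h2, ha⟩ := exists_adm hx hi 1 zero_lt_one
  have h1 : ε < 1 := by
    have : (ε : ℝ) < 1 := by linarith
    exact this
  have hinj : Function.Injective (Function.update x i (hp G d ε)) := by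
    have h3 := Adm.inj hx hi ha 1
    rwa [mul_one] at h3
  obtain ⟨γ, _, hmv⟩ := exists_mv hx hi h0 h1 ha _ _ rfl ⟨hinj, rfl⟩
  have hE : tpE G i x = m := by
    obtain ⟨h4, h5⟩ := tpO_vertex G hx hi
    rw [hs1] at h5
    obtain ⟨h6, h7⟩ := ed_cancel hd h4 h5
    exact Conf.ext h6.symm h7.symm
  rw [hE] at hmv
  obtain ⟨q3, h3⟩ := exists_lin (hmv.tp.2.2.trans hs'.symm)
  exact ⟨_, _, _, _, _, q3, IsLin.refl _, hmv, h3, rfl⟩

theorem IsEd.unique {d : Dart E} {m : Conf V E} {s s' : UConf n (Geo G)}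
    {q q' : Path.Homotopic.Quotient s s'} (h : IsEd G d m q) (h' : IsEd G d m q') : q = q' := by
  obtain ⟨s1, s2, q1, q2, q3, h1, h2, h3, rfl⟩ := h
  obtain ⟨s1', s2', q1', q2', q3', h1', h2', h3', rfl⟩ := h'
  have hn := IsMv.nat h2 h2' (h1.symm.trans h1') (h3.trans h3'.symm)
  have h4 : q1.trans (q2.trans (q3.trans q3'.symm)) = q1'.trans q2' := by
    rw [hn, ← Path.Homotopic.Quotient.trans_assoc, ← Path.Homotopic.Quotient.trans_assoc,
      Path.Homotopic.Quotient.trans_symm, Path.Homotopic.Quotient.refl_trans]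
  rw [← h4]
  simp only [Path.Homotopic.Quotient.trans_assoc, Path.Homotopic.Quotient.symm_trans,
    Path.Homotopic.Quotient.trans_refl]

theorem IsEd.pre {d : Dart E} {m : Conf V E} {s₀ s s' : UConf n (Geo G)}
    {p : Path.Homotopic.Quotient s₀ s} {q : Path.Homotopic.Quotient s s'} (hp : IsLin G p)
    (h : IsEd G d m q) : IsEd G d m (p.trans q) := by
  obtain ⟨s1, s2, q1, q2, q3, h1, h2, h3, rfl⟩ := h
  refine ⟨s1, s2, p.trans q1, q2, q3, hp.trans h1, h2, h3, ?_⟩
  simp only [Path.Homotopic.Quotient.trans_assoc]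

theorem IsEd.post {d : Dart E} {m : Conf V E} {s s' s₀ : UConf n (Geo G)}
    {q : Path.Homotopic.Quotient s s'} {p : Path.Homotopic.Quotient s' s₀}
    (h : IsEd G d m q) (hp : IsLin G p) : IsEd G d m (q.trans p) := by
  obtain ⟨s1, s2, q1, q2, q3, h1, h2, h3, rfl⟩ := h
  refine ⟨s1, s2, q1, q2, q3.trans p, h1, h2, h3.trans hp, ?_⟩
  simp only [Path.Homotopic.Quotient.trans_assoc]

theorem IsEd.of_mv {d : Dart E} {m : Conf V E} {s s' : UConf n (Geo G)}
    {q : Path.Homotopic.Quotient s s'} (h : IsMv G d m q) : IsEd G d m q := by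
  refine ⟨s, s', _, q, _, IsLin.refl s, h, IsLin.refl s', ?_⟩
  rw [Path.Homotopic.Quotient.refl_trans, Path.Homotopic.Quotient.trans_refl]

theorem inj_update2 {X : Type} {z : Fin n → X} {i j : Fin n} {p q : X} (_ : i ≠ j)
    (h1 : Function.Injective (Function.update z i p))
    (h2 : Function.Injective (Function.update z j q)) (hpq : p ≠ q) :
    Function.Injective (Function.update (Function.update z i p) j q) := by
  have hp : ∀ k, k ≠ i → z k ≠ p := by
    intro k hk h
    apply hk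
    apply h1
    rw [Function.update_of_ne hk, Function.update_self, h]
  have hq : ∀ k, k ≠ j → z k ≠ q := by
    intro k hk h
    apply hk
    apply h2
    rw [Function.update_of_ne hk, Function.update_self, h]
  have key : ∀ b, b ≠ j → Function.update z i p b ≠ q := by
    intro b hb
    by_cases hbi : b = i
    · rw [hbi, Function.update_self]
      exact hpq
    · rw [Function.update_of_ne hbi]
      exact hq b hb
  intro a b hab
  by_cases ha : a = j
  · by_cases hb : b = j
    · rw [ha, hb]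
    · rw [ha, Function.update_self, Function.update_of_ne hb] at hab
      exact absurd hab.symm (key b hb)
  · by_cases hb : b = j
    · rw [hb, Function.update_self, Function.update_of_ne ha] at hab
      exact absurd hab (key a ha)
    · rw [Function.update_of_ne ha, Function.update_of_ne hb] at hab
      exact h1 hab

omit [DecidableEq V] in
theorem hp_ne_hp {x y : Dart E} (hxy : G.vt x ≠ G.vt y) {a b : I} (ha : (a : ℝ) < 1 / 2)
    (hb : (b : ℝ) < 1 / 2) : hp G x a ≠ hp G y b := by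
  intro h
  apply hxy
  apply dv_disj G (p := hp G x a)
  · rw [dv_hp G x a ha.le]
    exact ha
  · rw [h, dv_hp G y b hb.le]
    exact hb

theorem ed_square {x y : Dart E} {m : Conf V E} (hxy : G.vt x ≠ G.vt y)
    (hx : G.vt x ∉ m.occ) (hy : G.vt y ∉ m.occ) {s s₁ s₁' s₂ : UConf n (Geo G)}
    {q₁ : Path.Homotopic.Quotient s s₁} {q₂ : Path.Homotopic.Quotient s₁ s₂}
    {q₁' : Path.Homotopic.Quotient s s₁'} {q₂' : Path.Homotopic.Quotient s₁' s₂}
    (h₁ : IsEd G x ⟨insert (G.vt y) m.occ, m.num⟩ q₁) (h₂ : IsEd G y ⟨m.occ, m.num + δ x.1⟩ q₂)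
    (h₁' : IsEd G y ⟨insert (G.vt x) m.occ, m.num⟩ q₁')
    (h₂' : IsEd G x ⟨m.occ, m.num + δ y.1⟩ q₂') :
    q₁.trans q₂ = q₁'.trans q₂' := by
  obtain ⟨z, hz, hsz⟩ := uc_surj s
  have hx1 : G.vt x ∉ insert (G.vt y) m.occ := by
    rw [Finset.mem_insert, not_or]
    exact ⟨hxy, hx⟩
  have hy1 : G.vt y ∉ insert (G.vt x) m.occ := by
    rw [Finset.mem_insert, not_or]
    exact ⟨hxy.symm, hy⟩
  have htz : tpO G z = ⟨insert (G.vt x) (insert (G.vt y) m.occ), m.num⟩ := by
    have h := h₁.tp.2.1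
    rw [hsz] at h
    exact h
  have htz' : tpO G z = ⟨insert (G.vt y) (insert (G.vt x) m.occ), m.num⟩ := by
    rw [htz, Finset.insert_comm]
  obtain ⟨i, hi⟩ := (mem_occ G z (G.vt x)).1 (by
    rw [htz]
    exact Finset.mem_insert_self _ _)
  obtain ⟨j, hj⟩ := (mem_occ G z (G.vt y)).1 (by
    rw [htz']
    exact Finset.mem_insert_self _ _)
  have hvw : vp G (G.vt x) ≠ vp G (G.vt y) := by
    intro h
    have h' := congrArg (nf G) h
    rw [nf_vp, nf_vp] at h'
    exact hxy (Sum.inl_injective h')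
  have hij : i ≠ j := by
    intro h
    rw [h, hj] at hi
    exact hvw hi.symm
  obtain ⟨ε', h0', _, h2', ha'⟩ := exists_adm hz hi 1 zero_lt_one
  obtain ⟨ε, h0, hle, h2, hb⟩ := exists_adm hz hj ε' h0'
  have ha : Adm G z i x ε := ha'.mono hle
  have h1 : ε < 1 := by
    have : (ε : ℝ) < 1 := by linarith
    exact this
  have hmul : ∀ t : I, ((ε * t : I) : ℝ) < 1 / 2 := by
    intro t
    have h3 : ((ε * t : I) : ℝ) = (ε : ℝ) * t := rfl
    have h4 : (ε : ℝ) * t ≤ (ε : ℝ) * 1 := mul_le_mul_of_nonneg_left t.2.2 ε.2.1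
    rw [h3]
    linarith
  -- the configurations
  have hFinj : ∀ a : I × I, Function.Injective (Function.update
      (Function.update z i (hp G x (ε * a.1))) j (hp G y (ε * a.2))) := fun a =>
    inj_update2 hij (Adm.inj hz hi ha a.1) (Adm.inj hz hj hb a.2)
      (hp_ne_hp hxy (hmul _) (hmul _))
  have hz1 : Function.Injective (Function.update z i (hp G x ε)) := by
    have h3 := Adm.inj hz hi ha 1
    rwa [mul_one] at h3
  have hz2 : Function.Injective (Function.update z j (hp G y ε)) := by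
    have h3 := Adm.inj hz hj hb 1
    rwa [mul_one] at h3
  have hz3 : Function.Injective (Function.update (Function.update z i (hp G x ε)) j
      (hp G y ε)) := by
    have h3 := hFinj (1, 1)
    simp only [mul_one] at h3
    exact h3
  have hcomm : ∀ p q : Geo G, Function.update (Function.update z i p) j q =
      Function.update (Function.update z j q) i p := fun p q =>
    Function.update_comm hij.symm q p z |>.symm
  have hz1j : (Function.update z i (hp G x ε)) j = vp G (G.vt y) := by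
    rw [Function.update_of_ne hij.symm, hj]
  have hz2i : (Function.update z j (hp G y ε)) i = vp G (G.vt x) := by
    rw [Function.update_of_ne hij, hi]
  have ha1 : Adm G (Function.update z i (hp G x ε)) j y ε := by
    intro k hk t ht ht'
    by_cases hki : k = i
    · rw [hki, Function.update_self]
      refine hp_ne_hp hxy h2 ?_
      have : (t : ℝ) ≤ ε := ht'
      linarith
    · rw [Function.update_of_ne hki]
      exact hb k hk t ht ht'
  have ha2 : Adm G (Function.update z j (hp G y ε)) i x ε := by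
    intro k hk t ht ht'
    by_cases hkj : k = j
    · rw [hkj, Function.update_self]
      refine hp_ne_hp hxy.symm h2 ?_
      have : (t : ℝ) ≤ ε := ht'
      linarith
    · rw [Function.update_of_ne hkj]
      exact ha k hk t ht ht'
  obtain ⟨μ₁, hμ₁, m₁⟩ := exists_mv hz hi h0 h1 ha s _ hsz ⟨hz1, rfl⟩
  obtain ⟨μ₂, hμ₂, m₂⟩ := exists_mv hz1 hz1j h0 h1 ha1 _ _ rfl ⟨hz3, rfl⟩
  obtain ⟨μ₁', hμ₁', m₁'⟩ := exists_mv hz hj h0 h1 hb s _ hsz ⟨hz2, rfl⟩
  obtain ⟨μ₂', hμ₂', m₂'⟩ := exists_mv hz2 hz2i h0 h1 ha2 _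
    (uc (Function.update (Function.update z i (hp G x ε)) j (hp G y ε)) hz3) rfl
    ⟨by rw [← hcomm]; exact hz3, uc_cong (hcomm _ _) _ _⟩
  -- the types
  have e₁ : tpE G i z = ⟨insert (G.vt y) m.occ, m.num⟩ := by
    obtain ⟨h4, h5⟩ := tpO_vertex G hz hi
    rw [htz] at h5
    obtain ⟨h6, h7⟩ := ed_cancel hx1 h4 h5
    exact Conf.ext h6.symm h7.symm
  have e₁' : tpE G j z = ⟨insert (G.vt x) m.occ, m.num⟩ := by
    obtain ⟨h4, h5⟩ := tpO_vertex G hz hj
    rw [htz'] at h5
    obtain ⟨h6, h7⟩ := ed_cancel hy1 h4 h5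
    exact Conf.ext h6.symm h7.symm
  rw [e₁] at m₁
  rw [e₁'] at m₁'
  have e₂ : tpE G j (Function.update z i (hp G x ε)) = ⟨m.occ, m.num + δ x.1⟩ := by
    obtain ⟨h4, h5⟩ := tpO_vertex G hz1 hz1j
    have h6 := m₁.tp.2.2
    rw [tp_uc, h5] at h6
    obtain ⟨h7, h8⟩ := ed_cancel h4 hy h6
    exact Conf.ext h7 h8
  have e₂' : tpE G i (Function.update z j (hp G y ε)) = ⟨m.occ, m.num + δ y.1⟩ := by
    obtain ⟨h4, h5⟩ := tpO_vertex G hz2 hz2i
    have h6 := m₁'.tp.2.2
    rw [tp_uc, h5] at h6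
    obtain ⟨h7, h8⟩ := ed_cancel h4 hx h6
    exact Conf.ext h7 h8
  rw [e₂] at m₂
  rw [e₂'] at m₂'
  -- the square
  have hcont : Continuous (fun a : I × I => uc (Function.update
      (Function.update z i (hp G x (ε * a.1))) j (hp G y (ε * a.2))) (hFinj a)) := by
    refine continuous_uc (fun (a : I × I) => Function.update
      (Function.update z i (hp G x (ε * a.1))) j (hp G y (ε * a.2))) (fun k => ?_) _
    by_cases hkj : k = j
    · have h3 : (fun a : I × I => Function.update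
          (Function.update z i (hp G x (ε * a.1))) j (hp G y (ε * a.2)) k) =
          fun a => hp G y (ε * a.2) := by
        funext a
        rw [hkj, Function.update_self]
      rw [h3]
      exact (continuous_hp G y).comp (by fun_prop)
    · by_cases hki : k = i
      · have h3 : (fun a : I × I => Function.update
            (Function.update z i (hp G x (ε * a.1))) j (hp G y (ε * a.2)) k) =
            fun a => hp G x (ε * a.1) := by
          funext a
          rw [Function.update_of_ne hkj, hki, Function.update_self]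
        rw [h3]
        exact (continuous_hp G x).comp (by fun_prop)
      · have h3 : (fun a : I × I => Function.update
            (Function.update z i (hp G x (ε * a.1))) j (hp G y (ε * a.2)) k) =
            fun _ => z k := by
          funext a
          rw [Function.update_of_ne hkj, Function.update_of_ne hki]
        rw [h3]
        exact continuous_const
  have hx0 : ∀ f : Fin n → Geo G, f i = vp G (G.vt x) →
      Function.update f i (hp G x (ε * 0)) = f := by
    intro f hf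
    rw [mul_zero, hp_zero, ← hf, Function.update_eq_self]
  have hy0 : ∀ f : Fin n → Geo G, f j = vp G (G.vt y) →
      Function.update f j (hp G y (ε * 0)) = f := by
    intro f hf
    rw [mul_zero, hp_zero, ← hf, Function.update_eq_self]
  have hsq := square _ hcont μ₁ μ₂ μ₁' μ₂'
    (fun t => by
      obtain ⟨h3, h4⟩ := hμ₁ t
      rw [h4]
      refine uc_cong ?_ _ _
      exact (hy0 _ (by rw [Function.update_of_ne hij.symm, hj])).symm)
    (fun t => by
      obtain ⟨h3, h4⟩ := hμ₂ t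
      rw [h4]
      refine uc_cong ?_ _ _
      simp only [mul_one])
    (fun t => by
      obtain ⟨h3, h4⟩ := hμ₁' t
      rw [h4]
      refine uc_cong ?_ _ _
      simp only [hx0 z hi])
    (fun t => by
      obtain ⟨h3, h4⟩ := hμ₂' t
      rw [h4]
      refine uc_cong ?_ _ _
      simp only [mul_one]
      exact (hcomm _ _).symm)
  have hsq2 : (Path.Homotopic.Quotient.mk μ₁).trans (Path.Homotopic.Quotient.mk μ₂) =
      (Path.Homotopic.Quotient.mk μ₁').trans (Path.Homotopic.Quotient.mk μ₂') := by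
    rw [← Path.Homotopic.Quotient.mk_trans, ← Path.Homotopic.Quotient.mk_trans]
    exact Path.Homotopic.Quotient.eq.2 hsq
  -- conclusion
  obtain ⟨l, hl⟩ := exists_lin (m₁.tp.2.2.trans h₁.tp.2.2.symm)
  obtain ⟨l', hl'⟩ := exists_lin (m₁'.tp.2.2.trans h₁'.tp.2.2.symm)
  obtain ⟨l₂, hl₂⟩ := exists_lin (m₂.tp.2.2.trans h₂.tp.2.2.symm)
  have u₁ : q₁ = (Path.Homotopic.Quotient.mk μ₁).trans l := h₁.unique ((IsEd.of_mv m₁).post hl)
  have u₁' : q₁' = (Path.Homotopic.Quotient.mk μ₁').trans l' :=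
    h₁'.unique ((IsEd.of_mv m₁').post hl')
  have u₂ : l.trans q₂ = (Path.Homotopic.Quotient.mk μ₂).trans l₂ :=
    (IsEd.pre hl h₂).unique ((IsEd.of_mv m₂).post hl₂)
  have u₂' : l'.trans q₂' = (Path.Homotopic.Quotient.mk μ₂').trans l₂ :=
    (IsEd.pre hl' h₂').unique ((IsEd.of_mv m₂').post hl₂)
  rw [u₁, u₁', Path.Homotopic.Quotient.trans_assoc, Path.Homotopic.Quotient.trans_assoc, u₂, u₂',
    ← Path.Homotopic.Quotient.trans_assoc, ← Path.Homotopic.Quotient.trans_assoc, hsq2]

end TP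

end GB
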