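import Pool.Agent.Helper95.GB.TP.Lin2

/-! # GB/TP/Lin3: paths inside a stratum are linear 

`path_ind` with `A = {y | tp y = tp s}`, `Q = IsLin`, and `N s₀ = CR B` for balls `B` around an ordered representative `z` of `s₀` (`exists_balls`, `uc_surj`, choose).
`htr`: `IsLin.trans`.  `hloc`: `s₀ = uc z`, `tp s₀ = tp s`, `γ` from `y` to `y'` with `γ t ∈ CR B`, `tp (γ t) = tp s`.  `y = uc x`, `y' = uc x'` with `x i, x' i ∈ B i`.
(1) If `B i` is a star at `v` (`z i = vp v`) then `x i = vp v`: `v ∈ occ` of `tp y = tp s₀` (`mem_occ`), so `x j = vp v` for some `j`; `x j ∈ B j`; if `j ≠ i` then `B j`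
is a star at some `w ≠ v` (`z` injective) and `dv w (vp v) = 1/2` contradicts `vp v ∈ B j`, or `B j` is in an open edge, contradiction.  The same for `x'`.
(2) `Cmp x x'`: labels by (1) and since an interval lies in one open edge; order: for `i`, `j` on the same edge, `B i`, `B j` are disjoint intervals of this edge, so
the order of `x i`, `x j` is the order of the intervals, the same for `x'`.
(3) the linear path from `x` to `x'` (`exists_linPath`) lies in `CR B`: convexity of the intervals.  `CR_paths`: it is homotopic to `γ`.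
-/

set_option autoImplicit false

namespace GB

open unitInterval Topology

namespace TP

variable {V E : Type} [DecidableEq V] {G : Gr V E} {n : ℕ}

theorem lin3_cc_mem {a b c c' : I} (h : c ∈ Set.Ioo a b) (h' : c' ∈ Set.Ioo a b) (t : I) :
    cc c c' t ∈ Set.Ioo a b := by
  have h1 : (c : ℝ) ∈ Set.Ioo (a : ℝ) b := h
  have h2 : (c' : ℝ) ∈ Set.Ioo (a : ℝ) b := h'
  exact convex_Ioo (a : ℝ) (b : ℝ) h1 h2 (by linarith [t.2.2]) t.2.1 (by ring)

theorem lin3_Ioo_bounds {a b c : I} (h : c ∈ Set.Ioo a b) : 0 < c ∧ c < 1 := by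
  refine ⟨lt_of_le_of_lt ?_ h.1, lt_of_lt_of_le h.2 ?_⟩
  · exact a.2.1
  · exact b.2.2

theorem lin3_co_ep (e : E) {u : I} (h0 : 0 < u) (h1 : u < 1) : co G (ep G e u) = u := by
  unfold co
  rw [nf_ep G e u h0 h1]

theorem lin3_seg_ep (e : E) {u u' : I} (h0 : 0 < u) (h1 : u < 1) (h0' : 0 < u') (h1' : u' < 1) (t : I) :
    seg G (ep G e u) (ep G e u') t = ep G e (cc u u' t) := by
  unfold seg
  rw [nf_ep G e u h0 h1, nf_ep G e u' h0' h1']

theorem lin3_seg_vp (v : V) (p : Geo G) (t : I) : seg G (vp G v) p t = vp G v := by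
  unfold seg
  rw [nf_vp]

theorem lin3_chart_vertex {z y : Fin n → Geo G} {B : Fin n → Set (Geo G)}
    (hz : Function.Injective z) (hg : ∀ i, Good G (z i) (B i)) (hy : ∀ i, y i ∈ B i)
    (ht : tpO G y = tpO G z) {i : Fin n} {v : V} (hi : z i = vp G v) : y i = vp G v := by
  have h1 : v ∈ (tpO G z).occ := (mem_occ G z v).2 ⟨i, hi⟩
  rw [← ht] at h1
  obtain ⟨j, hj⟩ := (mem_occ G y v).1 h1
  by_cases hij : j = i
  · rw [← hij]
    exact hj
  exfalso
  have h2 := hy j
  rw [hj] at h2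
  rcases hg j with ⟨w, r, hw, hr0, hr, hB⟩ | ⟨e, u, a, b, hu, hau, hub, hB⟩
  · rw [hB] at h2
    have hvw : v ≠ w := by
      rintro rfl
      exact hij (hz (hw.trans hi.symm))
    have h3 : dv G w (vp G v) < r := h2
    rw [dv_ne G hvw] at h3
    linarith
  · rw [hB] at h2
    obtain ⟨c, hc, hc'⟩ := h2
    obtain ⟨hc0, hc1⟩ := lin3_Ioo_bounds hc
    have h3 := congrArg (lab G) hc'
    rw [lab_vp, lab_ep G e c hc0 hc1] at h3
    exact absurd h3 (by simp)

/-- two configurations of the same type in a chart around a configuration of this type -/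
theorem chart_cmp {z x x' : Fin n → Geo G} {B : Fin n → Set (Geo G)}
    (hz : Function.Injective z) (hg : ∀ i, Good G (z i) (B i))
    (hd : ∀ i j, i ≠ j → Disjoint (B i) (B j)) (hx : ∀ i, x i ∈ B i) (hx' : ∀ i, x' i ∈ B i)
    (ht : tpO G x = tpO G z) (ht' : tpO G x' = tpO G z) :
    Cmp G x x' ∧ (∀ t i, seg G (x i) (x' i) t ∈ B i) ∧
      ∀ i v, z i = vp G v → x i = vp G v := by
  have hxi : Function.Injective x := inj_of_disj hd (fun i => ⟨x i, hx i⟩)
  have hxi' : Function.Injective x' := inj_of_disj hd (fun i => ⟨x' i, hx' i⟩)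
  -- the two kinds of indices
  have hkind : ∀ i, (∃ v, x i = vp G v ∧ x' i = vp G v) ∨
      ∃ (e : E) (a b c c' : I), a < b ∧ c ∈ Set.Ioo a b ∧ c' ∈ Set.Ioo a b ∧ x i = ep G e c ∧
        x' i = ep G e c' ∧ B i = ep G e '' Set.Ioo a b := by
    intro i
    rcases hg i with ⟨w, r, hw, hr0, hr, hB⟩ | ⟨e, u, a, b, hu, hau, hub, hB⟩
    · left
      exact ⟨w, lin3_chart_vertex hz hg hx ht hw, lin3_chart_vertex hz hg hx' ht' hw⟩
    · right
      have h1 := hx i
      have h2 := hx' i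
      rw [hB] at h1 h2
      obtain ⟨c, hc, hce⟩ := h1
      obtain ⟨c', hc', hce'⟩ := h2
      exact ⟨e, a, b, c, c', hau.trans hub, hc, hc', hce.symm, hce'.symm, hB⟩
  refine ⟨⟨hxi, hxi', fun i => ?_, fun i j hij => ?_⟩, fun t i => ?_,
    fun i v hi => lin3_chart_vertex hz hg hx ht hi⟩
  · rcases hkind i with ⟨v, h1, h2⟩ | ⟨e, a, b, c, c', -, hc, hc', h1, h2, -⟩
    · rw [h1, h2]
    · rw [h1, h2, lab_ep G e c (lin3_Ioo_bounds hc).1 (lin3_Ioo_bounds hc).2,
        lab_ep G e c' (lin3_Ioo_bounds hc').1 (lin3_Ioo_bounds hc').2]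
  · by_cases hne : i = j
    · rw [hne]
      exact ⟨fun h => absurd h (lt_irrefl _), fun h => absurd h (lt_irrefl _)⟩
    rcases hkind i with ⟨v, h1, h2⟩ | ⟨e, a, b, c, c', hab, hc, hc', h1, h2, hB⟩
    · exfalso
      rw [h1, lab_vp] at hij
      have h3 := (lab_eq_inl G).1 hij.symm
      exact hne (hxi (h1.trans h3.symm))
    · rcases hkind j with ⟨v, h3, h4⟩ | ⟨e₁, a₁, b₁, c₁, c₁', hab₁, hc₁, hc₁', h3, h4, hB₁⟩
      · exfalso
        rw [h3, lab_vp] at hij
        have h5 := (lab_eq_inl G).1 hij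
        exact hne (hxi (h5.trans h3.symm))
      · rw [h1, h3, lab_ep G e c (lin3_Ioo_bounds hc).1 (lin3_Ioo_bounds hc).2,
          lab_ep G e₁ c₁ (lin3_Ioo_bounds hc₁).1 (lin3_Ioo_bounds hc₁).2] at hij
        obtain rfl := Sum.inr_injective hij
        rw [h1, h2, h3, h4, lin3_co_ep e (lin3_Ioo_bounds hc).1 (lin3_Ioo_bounds hc).2,
          lin3_co_ep e (lin3_Ioo_bounds hc').1 (lin3_Ioo_bounds hc').2,
          lin3_co_ep e (lin3_Ioo_bounds hc₁).1 (lin3_Ioo_bounds hc₁).2,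
          lin3_co_ep e (lin3_Ioo_bounds hc₁').1 (lin3_Ioo_bounds hc₁').2]
        by_cases hba : b ≤ a₁
        · exact ⟨fun _ => (hc'.2.trans_le hba).trans hc₁'.1,
            fun _ => (hc.2.trans_le hba).trans hc₁.1⟩
        by_cases hba₁ : b₁ ≤ a
        · have h5 : c₁ < c := (hc₁.2.trans_le hba₁).trans hc.1
          have h6 : c₁' < c' := (hc₁'.2.trans_le hba₁).trans hc'.1
          exact ⟨fun h => absurd h (not_lt.2 h5.le), fun h => absurd h (not_lt.2 h6.le)⟩
        exfalso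
        rw [not_le] at hba hba₁
        obtain ⟨m, hm1, hm2⟩ := exists_between (a₁ := max a a₁) (a₂ := min b b₁)
          (max_lt (lt_min hab hba₁) (lt_min hba hab₁))
        have hm3 : ep G e m ∈ B i := by
          rw [hB]
          exact ⟨m, ⟨(le_max_left _ _).trans_lt hm1, hm2.trans_le (min_le_left _ _)⟩, rfl⟩
        have hm4 : ep G e m ∈ B j := by
          rw [hB₁]
          exact ⟨m, ⟨(le_max_right _ _).trans_lt hm1, hm2.trans_le (min_le_right _ _)⟩, rfl⟩
        exact Set.disjoint_left.1 (hd i j hne) hm3 hm4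
  · rcases hkind i with ⟨v, h1, h2⟩ | ⟨e, a, b, c, c', -, hc, hc', h1, h2, hB⟩
    · rw [h1, lin3_seg_vp, ← h1]
      exact hx i
    · rw [h1, h2, lin3_seg_ep e (lin3_Ioo_bounds hc).1 (lin3_Ioo_bounds hc).2 (lin3_Ioo_bounds hc').1
        (lin3_Ioo_bounds hc').2, hB]
      exact ⟨_, lin3_cc_mem hc hc' t, rfl⟩

theorem isLin_of_stratum {s s' : UConf n (Geo G)} (γ : Path s s')
    (h : ∀ t, tp G (γ t) = tp G s) : IsLin G (Path.Homotopic.Quotient.mk γ) := by
  choose z hz hzs using fun s : UConf n (Geo G) => uc_surj s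
  choose B hgood hopen hmem hcontr hdisj using fun s : UConf n (Geo G) =>
    exists_balls G (z s) (hz s)
  refine path_ind (fun s => CR (B s)) (fun s => CR_open (B s) (hopen s) (hdisj s))
    (fun s => ⟨z s, hz s, hzs s, hmem s⟩) {y | tp G y = tp G s}
    (fun _ _ q => IsLin G q) (fun x y w p q _ _ _ hp hq => hp.trans hq) ?_ s s' γ h
  intro s₀ hs₀ y y' δ hδ hδ'
  have h0 := hδ 0
  have h1 := hδ 1
  rw [δ.source] at h0
  rw [δ.target] at h1
  have t0 := hδ' 0
  have t1 := hδ' 1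
  rw [δ.source] at t0
  rw [δ.target] at t1
  obtain ⟨x, hx, hxy, hxB⟩ := h0
  obtain ⟨x', hx', hxy', hxB'⟩ := h1
  have hs₁ : tp G s₀ = tp G s := hs₀
  have hzt : tpO G (z s₀) = tp G s := by
    rw [← tp_uc G (z s₀) (hz s₀), ← hzs s₀]
    exact hs₁
  have hxt : tpO G x = tpO G (z s₀) := by
    rw [hzt, ← tp_uc G x hx, ← hxy]
    exact t0
  have hxt' : tpO G x' = tpO G (z s₀) := by
    rw [hzt, ← tp_uc G x' hx', ← hxy']
    exact t1
  obtain ⟨hc, hseg, -⟩ := chart_cmp (hz s₀) (hgood s₀) (hdisj s₀) hxB hxB' hxt hxt'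
  subst hxy
  subst hxy'
  obtain ⟨γ', hγ'⟩ := exists_linPath hc
  have hhom : δ.Homotopic γ' := by
    refine CR_paths (B s₀) (hopen s₀) (hdisj s₀) (hcontr s₀) δ γ' hδ fun t => ?_
    rw [hγ' t]
    exact ⟨_, _, rfl, fun i => hseg t i⟩
  have heq : Path.Homotopic.Quotient.mk δ = Path.Homotopic.Quotient.mk γ' :=
    Path.Homotopic.Quotient.eq.2 hhom
  rw [heq]
  exact isLin_of hc γ' hγ'

end TP

end GB
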