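import Pool.Agent.Helper95.GB.TP.Mv
import Pool.Agent.Helper95.GB.TP.Lin3

/-! # GB/TP/Gen: all path classes are generated by linear classes and moves (stub, prove in place)

`path_ind` with `A = univ`, `Q = Gn`, and for each `s₀ = uc z` (chosen representative) `N s₀ = CR B`, `B` from `exists_balls z`.  `htr`: `Gn.trans`.
`hloc`: let `γ` from `y` to `y'` be a path in `CR B`.  Claim: for every `y = uc x`, `x i ∈ B i`, there is a path `δ` from `s₀ = uc z` to `y` in `CR B` with `Gn [δ]`.  Then `γ` is
homotopic to `δ_y⁻¹ δ_{y'}` (`CR_paths`), so `Gn [γ]` (`Gn.symm`, `Gn.trans`).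
Claim: let `x⁰ i = z i` if `z i` is a vertex and `x⁰ i = x i` otherwise.  `Cmp z x⁰`, and the linear path from `z` to `x⁰` lies in `CR B` (`chart_cmp` with `x = z`, `x' = x⁰`; the types of `z` and `x⁰`
agree since the points move in open edges).  For a finite set `J` of indices let `x^J i = x i` if `i ∈ J`, `x⁰ i` otherwise; by induction on `J` there is a path from `s₀` to `uc x^J` in `CR B` with
class in `Gn` (`uc x^univ = y`).  Step `J ∪ {i}`: if `z i` is in an open edge then `x^J i = x i` already.  If `z i = vp v`, `B i = {dv v < r}`, `r ≤ 1/2`: if `x i = vp v` nothing happens.  Otherwise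
(`of_dv_lt`) `x i = hp d t`, `vt d = v`, `0 < t < 1/2`, `t = dv v (x i) < r`.  `Adm x^J i d t`: for `j ≠ i` `x^J j ∈ B j` is not in `B i`, but `hp d u ∈ B i` for `u ≤ t`.  The move path
(`exists_mvPath`) lies in `CR B` and is an `IsMv` class.
-/

set_option autoImplicit false

namespace GB

open unitInterval Topology

namespace TP

variable {V E : Type} [DecidableEq V] {G : Gr V E} {n : ℕ}

theorem gen_vs {p p' : Geo G} (h : lab G p = lab G p') : vs G p = vs G p' ∧ nm G p = nm G p' := by
  rcases two_cases h with ⟨v, hv, hv'⟩ | ⟨e, u, u', h0, h1, h0', h1', hp, hp'⟩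
  · rw [hv, hv']
    exact ⟨rfl, rfl⟩
  · rw [hp, hp']
    unfold vs nm
    rw [nf_ep G e u h0 h1, nf_ep G e u' h0' h1']
    exact ⟨rfl, rfl⟩

theorem gen_tpO {x x' : Fin n → Geo G} (h : ∀ i, lab G (x i) = lab G (x' i)) :
    tpO G x = tpO G x' := by
  have h1 : (fun i => vs G (x i)) = fun i => vs G (x' i) := funext fun i => (gen_vs (h i)).1
  have h2 : (fun i => nm G (x i)) = fun i => nm G (x' i) := funext fun i => (gen_vs (h i)).2
  unfold tpO tpF
  rw [h1]
  congr 1
  exact Finset.sum_congr rfl fun i _ => (gen_vs (h i)).2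

/-- reachable from the centre of a chart inside the chart by generated paths -/
def GR (z : Fin n → Geo G) (hz : Function.Injective z) (B : Fin n → Set (Geo G))
    (x : Fin n → Geo G) : Prop :=
  ∃ (h : Function.Injective x) (δ : Path (uc z hz) (uc x h)), (∀ t, δ t ∈ CR B) ∧
    Gn G (Path.Homotopic.Quotient.mk δ)

theorem trans_mem {X : Type} [TopologicalSpace X] {a b c : X} {A : Set X} (γ : Path a b)
    (γ' : Path b c) (h : ∀ t, γ t ∈ A) (h' : ∀ t, γ' t ∈ A) (t : I) : (γ.trans γ') t ∈ A := by
  have h1 : (γ.trans γ') t ∈ Set.range (γ.trans γ') := ⟨t, rfl⟩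
  rw [Path.trans_range] at h1
  rcases h1 with ⟨u, hu⟩ | ⟨u, hu⟩
  · rw [← hu]
    exact h u
  · rw [← hu]
    exact h' u

theorem gr_step {z : Fin n → Geo G} {hz : Function.Injective z} {B : Fin n → Set (Geo G)}
    (hd : ∀ i j, i ≠ j → Disjoint (B i) (B j)) {w : Fin n → Geo G} (hw : ∀ i, w i ∈ B i)
    (h : GR z hz B w) {i : Fin n} {v : V} {r : ℝ} (hr : r ≤ 1 / 2)
    (hB : B i = {q | dv G v q < r}) (hwi : w i = vp G v) {p : Geo G} (hpB : p ∈ B i) :
    GR z hz B (Function.update w i p) := by
  have hp' : dv G v p < r := by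
    rw [hB] at hpB
    exact hpB
  rcases of_dv_lt G (lt_of_lt_of_le hp' hr) with h1 | ⟨d, t, hdv, ht0, ht1, rfl⟩
  · rw [h1, ← hwi, Function.update_eq_self]
    exact h
  · subst hdv
    rw [dv_hp G d t ht1.le] at hp'
    obtain ⟨hwinj, δ, hδ, hg⟩ := h
    have hmem : ∀ u : I, u ≤ t → hp G d u ∈ B i := by
      intro u hu
      have hu' : (u : ℝ) ≤ t := hu
      rw [hB]
      change dv G (G.vt d) (hp G d u) < r
      rw [dv_hp G d u (by linarith)]
      linarith
    have ha : Adm G w i d t := by
      intro j hj u hu0 hut heq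
      have h2 := hw j
      rw [heq] at h2
      exact Set.disjoint_left.1 (hd j i hj) h2 (hmem u hut)
    have hinj : Function.Injective (Function.update w i (hp G d t)) := by
      have h3 := Adm.inj hwinj hwi ha 1
      rwa [mul_one] at h3
    obtain ⟨γ, hγ⟩ := exists_mvPath hwinj hwi ha hinj
    have hγB : ∀ τ, γ τ ∈ CR B := by
      intro τ
      obtain ⟨h4, h5⟩ := hγ τ
      refine ⟨_, h4, h5, ?_⟩
      intro j
      by_cases hj : j = i
      · subst hj
        rw [Function.update_self]
        apply hmem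
        change ((t * τ : I) : ℝ) ≤ t
        have h6 : (τ : ℝ) ≤ 1 := τ.2.2
        have h7 : (0 : ℝ) ≤ t := t.2.1
        change (t : ℝ) * τ ≤ t
        exact mul_le_of_le_one_right h7 h6
      · rw [Function.update_of_ne hj]
        exact hw j
    refine ⟨hinj, δ.trans γ, trans_mem δ γ hδ hγB, ?_⟩
    rw [Path.Homotopic.Quotient.mk_trans]
    refine Gn.trans _ _ hg (Gn.mv d (tpE G i w) _ ?_)
    refine ⟨w, i, t, γ, hwinj, hwi, ht0, ?_, ha, rfl, hγ, rfl⟩
    change (t : ℝ) < 1
    linarith

theorem gr_all {z : Fin n → Geo G} (hz : Function.Injective z) {B : Fin n → Set (Geo G)}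
    (hgood : ∀ i, Good G (z i) (B i)) (hmem : ∀ i, z i ∈ B i)
    (hd : ∀ i j, i ≠ j → Disjoint (B i) (B j)) {x : Fin n → Geo G} (hx : ∀ i, x i ∈ B i) :
    GR z hz B x := by
  classical
  set x0 : Fin n → Geo G := fun i => if ∃ v, z i = vp G v then z i else x i with hx0
  have hx0B : ∀ i, x0 i ∈ B i := by
    intro i
    rw [hx0]
    beta_reduce
    split_ifs
    · exact hmem i
    · exact hx i
  have hlab : ∀ i, lab G (x0 i) = lab G (z i) := by
    intro i
    rw [hx0]
    beta_reduce
    split_ifs with h1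
    · rfl
    · rcases hgood i with ⟨w, r, hw, hr0, hr, hB⟩ | ⟨e, u, a, b, hu, hau, hub, hB⟩
      · exact absurd ⟨w, hw⟩ h1
      · have h2 := hx i
        rw [hB] at h2
        obtain ⟨c, hc, hce⟩ := h2
        rw [← hce, hu, lab_ep G e c (lin3_Ioo_bounds hc).1 (lin3_Ioo_bounds hc).2,
          lab_ep G e u (lin3_Ioo_bounds ⟨hau, hub⟩).1 (lin3_Ioo_bounds ⟨hau, hub⟩).2]
  have hbase : GR z hz B x0 := by
    obtain ⟨hc, hseg, -⟩ := chart_cmp hz hgood hd hmem hx0B rfl (gen_tpO hlab)
    obtain ⟨γ', hγ'⟩ := exists_linPath hc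
    refine ⟨hc.inj', γ', ?_, Gn.lin _ (isLin_of hc γ' hγ')⟩
    intro t
    rw [hγ' t]
    exact ⟨_, _, rfl, fun i => hseg t i⟩
  have key : ∀ J : Finset (Fin n), GR z hz B (fun i => if i ∈ J then x i else x0 i) := by
    intro J
    induction J using Finset.induction_on with
    | empty =>
      simpa using hbase
    | insert i J hiJ ih =>
      have hwB : ∀ k, (fun i => if i ∈ J then x i else x0 i) k ∈ B k := by
        intro k
        beta_reduce
        split_ifs
        · exact hx k
        · exact hx0B k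
      have hup : (fun k => if k ∈ insert i J then x k else x0 k) =
          Function.update (fun k => if k ∈ J then x k else x0 k) i (x i) := by
        funext k
        by_cases hk : k = i
        · subst hk
          rw [Function.update_self, if_pos (Finset.mem_insert_self _ _)]
        · rw [Function.update_of_ne hk]
          have h2 : k ∈ insert i J ↔ k ∈ J := by
            rw [Finset.mem_insert]
            exact ⟨fun h => h.resolve_left hk, Or.inr⟩
          simp only [h2]
      rw [hup]
      have hwi : (fun k => if k ∈ J then x k else x0 k) i = x0 i := by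
        beta_reduce
        rw [if_neg hiJ]
      rcases hgood i with ⟨v, r, hv, hr0, hr, hB⟩ | ⟨e, u, a, b, hu, hau, hub, hB⟩
      · refine gr_step hd hwB ih hr hB ?_ (hx i)
        refine hwi.trans ?_
        rw [hx0]
        beta_reduce
        rw [if_pos ⟨v, hv⟩, hv]
      · have h3 : x0 i = x i := by
          rw [hx0]
          beta_reduce
          rw [if_neg]
          rintro ⟨v, hv⟩
          have h4 := congrArg (lab G) (hu.symm.trans hv)
          rw [lab_vp, lab_ep G e u (lin3_Ioo_bounds ⟨hau, hub⟩).1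
            (lin3_Ioo_bounds ⟨hau, hub⟩).2] at h4
          exact absurd h4 (by simp)
        have h5 : Function.update (fun k => if k ∈ J then x k else x0 k) i (x i) =
            fun k => if k ∈ J then x k else x0 k := by
          rw [← h3, ← hwi]
          exact Function.update_eq_self _ _
        rw [h5]
        exact ih
  have h6 := key Finset.univ
  simpa using h6

theorem all_gn {s s' : UConf n (Geo G)} (q : Path.Homotopic.Quotient s s') : Gn G q := by
  obtain ⟨γ, rfl⟩ := Path.Homotopic.Quotient.mk_surjective q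
  choose z hz hzs using fun s : UConf n (Geo G) => uc_surj s
  choose B hgood hopen hmem hcontr hdisj using fun s : UConf n (Geo G) =>
    exists_balls G (z s) (hz s)
  refine path_ind (fun s => CR (B s)) (fun s => CR_open (B s) (hopen s) (hdisj s))
    (fun s => ⟨z s, hz s, hzs s, hmem s⟩) Set.univ
    (fun _ _ q => Gn G q) (fun x y w p q _ _ _ hp hq => hp.trans _ _ hq) ?_ s s' γ
    (fun _ => Set.mem_univ _)
  intro s₀ _ y y' δ hδ _
  have h0 := hδ 0
  have h1 := hδ 1
  rw [δ.source] at h0
  rw [δ.target] at h1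
  obtain ⟨x, hx, hxy, hxB⟩ := h0
  obtain ⟨x', hx', hxy', hxB'⟩ := h1
  obtain ⟨hi, γ₁, hγ₁, hg₁⟩ := gr_all (hz s₀) (hgood s₀) (hmem s₀) (hdisj s₀) hxB
  obtain ⟨hi', γ₂, hγ₂, hg₂⟩ := gr_all (hz s₀) (hgood s₀) (hmem s₀) (hdisj s₀) hxB'
  subst hxy
  subst hxy'
  have hhom : δ.Homotopic (γ₁.symm.trans γ₂) := by
    refine CR_paths (B s₀) (hopen s₀) (hdisj s₀) (hcontr s₀) δ _ hδ ?_
    exact trans_mem _ _ (fun t => hγ₁ (σ t)) hγ₂
  have heq : Path.Homotopic.Quotient.mk δ = (Path.Homotopic.Quotient.mk γ₁).symm.trans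
      (Path.Homotopic.Quotient.mk γ₂) := by
    rw [Path.Homotopic.Quotient.eq.2 hhom, Path.Homotopic.Quotient.mk_trans,
      Path.Homotopic.Quotient.mk_symm]
  rw [heq]
  exact Gn.trans _ _ (Gn.symm _ hg₁) hg₂

end TP

end GB
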