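import Mathlib

/-! # GB/TP/Hol: parallel transport for a locally constant transition system (stub, prove in place)

Let `core : FiberBundleCore X X L` (`L` with the discrete topology): `baseSet s = N s`, `indexAt x = x`,
`coordChange s s' y c = c * (lam s y * (lam s' y)⁻¹)`.  `coordChange_self`, `coordChange_comp`: clear.  `continuousOn_coordChange`: the function
`y ↦ lam s y * (lam s' y)⁻¹` is locally constant on `N s ∩ N s'`: by `coc` for `y'` near `y`
`lam s y' * (lam s' y')⁻¹ = lam s y * lam y y' * (lam y y')⁻¹ * (lam s' y)⁻¹`.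
`FiberBundle.isCoveringMap` makes the projection `p` of the total space a covering map.  `lam y y = 1` (`coc` at `s = y`, `y' = y`, from `Filter.Eventually.self_of_nhds`).
`Hol γ` is the fiber coordinate of `cov.monodromy γ ⟨(x, 1), rfl⟩` (the coordinate in the chart with index `y` at `y`).
* left multiplication by `g` in the fibers is a homeomorphism of the total space over `X` (in the charts it is `(y, c) ↦ (y, g * c)`, which commutes with
`coordChange`), so by the uniqueness of lifts (`IsCoveringMap.eq_liftPath_iff'`) `monodromy γ (x, g) = (y, g * Hol γ)`.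
* `refl`: `monodromy_refl`; `trans`: `monodromy_trans_apply` and the previous item.
* if `γ ⊆ N s`: the lift of `γ` starting at `(x, 1)` is `t ↦ (γ t, (lam s x)⁻¹ * lam s (γ t))`: in the chart `s` its coordinate is
`coordChange (γ t) s (γ t) ((lam s x)⁻¹ * lam s (γ t)) = (lam s x)⁻¹ * lam s (γ t) * (lam (γ t) (γ t) * (lam s (γ t))⁻¹) = (lam s x)⁻¹`, constant, so it is
continuous (the chart `s` is a homeomorphism over `N s`).
-/

set_option autoImplicit false

namespace GB

open unitInterval Topology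

namespace TP

/-- a locally constant transition system with values in the group `L` -/
structure LamSys (X : Type) [TopologicalSpace X] (L : Type) [Group L] where
  N : X → Set X
  isOpen : ∀ s, IsOpen (N s)
  mem : ∀ s, s ∈ N s
  lam : X → X → L
  coc : ∀ s, ∀ y ∈ N s, ∀ᶠ y' in 𝓝 y, lam s y' = lam s y * lam y y'

section hol

variable {X : Type} [TopologicalSpace X] {L : Type} [Group L] (Λ : LamSys X L)

private theorem lam_self (y : X) : Λ.lam y y = 1 := by
  have h := (Λ.coc y y (Λ.mem y)).self_of_nhds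
  exact mul_eq_left.1 h.symm

variable [TopologicalSpace L] [DiscreteTopology L]

omit [Group L] in
private theorem eventually_eq_discrete (c : L) : ∀ᶠ c' in 𝓝 c, c' = c := by
  rw [nhds_discrete]
  exact Filter.eventually_pure.2 rfl

/-- the bundle -/
private def core : FiberBundleCore X X L where
  baseSet := Λ.N
  isOpen_baseSet := Λ.isOpen
  indexAt := fun x => x
  mem_baseSet_at := Λ.mem
  coordChange := fun s s' y c => c * (Λ.lam s y * (Λ.lam s' y)⁻¹)
  coordChange_self := by
    intro s x _ v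
    rw [mul_inv_cancel, mul_one]
  continuousOn_coordChange := by
    rintro s s' ⟨y, c⟩ ⟨⟨hy, hy'⟩, -⟩
    apply ContinuousAt.continuousWithinAt
    have h4 := ((Λ.coc s y hy).and (Λ.coc s' y hy')).prod_nhds (eventually_eq_discrete c)
    have h5 : (fun p : X × L => p.2 * (Λ.lam s p.1 * (Λ.lam s' p.1)⁻¹)) =ᶠ[𝓝 (y, c)]
        fun _ => c * (Λ.lam s y * (Λ.lam s' y)⁻¹) := by
      filter_upwards [h4] with p hp
      obtain ⟨⟨h6, h7⟩, h8⟩ := hp
      rw [h6, h7, h8]
      group
    exact continuousAt_const.congr h5.symm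
  coordChange_comp := by
    intro i j k x _ v
    group

/-- the fibre coordinate -/
private def sn (z : (core Λ).TotalSpace) : L := z.2

private theorem coord_eventually {A : Type} [TopologicalSpace A]
    {φ : A → (core Λ).TotalSpace} {a : A} {s : X} (hs : (φ a).1 ∈ Λ.N s)
    (hφ : ContinuousAt φ a) :
    ∀ᶠ b in 𝓝 a, sn Λ (φ b) * (Λ.lam s (φ b).1)⁻¹ = sn Λ (φ a) * (Λ.lam s (φ a).1)⁻¹ := by
  have h1 : ContinuousAt ((core Λ).localTriv s) (φ a) :=
    ((core Λ).localTriv s).toOpenPartialHomeomorph.continuousAt hs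
  have h2 : ContinuousAt (fun b => ((core Λ).localTriv s (φ b)).2) a :=
    continuousAt_snd.comp (h1.comp hφ)
  have h3 : ∀ b, ((core Λ).localTriv s (φ b)).2 = sn Λ (φ b) * (Λ.lam s (φ b).1)⁻¹ := by
    intro b
    change sn Λ (φ b) * (Λ.lam (φ b).1 (φ b).1 * (Λ.lam s (φ b).1)⁻¹) = _
    rw [lam_self, one_mul]
  have h4 := h2.eventually (eventually_eq_discrete _)
  filter_upwards [h4] with b hb
  rw [← h3, ← h3]
  exact hb

private theorem continuousAt_of_coord {A : Type} [TopologicalSpace A]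
    {φ : A → (core Λ).TotalSpace} {a : A} {s : X} (hs : (φ a).1 ∈ Λ.N s)
    (h1 : ContinuousAt (fun b => (φ b).1) a)
    (h2 : ∀ᶠ b in 𝓝 a,
      sn Λ (φ b) * (Λ.lam s (φ b).1)⁻¹ = sn Λ (φ a) * (Λ.lam s (φ a).1)⁻¹) :
    ContinuousAt φ a := by
  have hsrc : φ ⁻¹' ((core Λ).localTriv s).source ∈ 𝓝 a :=
    h1.preimage_mem_nhds ((Λ.isOpen s).mem_nhds hs)
  rw [((core Λ).localTriv s).toOpenPartialHomeomorph.continuousAt_iff_continuousAt_comp_left hsrc]
  have h3 : ∀ b, ((core Λ).localTriv s (φ b)) =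
      ((φ b).1, sn Λ (φ b) * (Λ.lam s (φ b).1)⁻¹) := by
    intro b
    change ((φ b).1, sn Λ (φ b) * (Λ.lam (φ b).1 (φ b).1 * (Λ.lam s (φ b).1)⁻¹)) = _
    rw [lam_self, one_mul]
  have h4 : (fun b => ((φ b).1, sn Λ (φ b) * (Λ.lam s (φ b).1)⁻¹)) =ᶠ[𝓝 a]
      fun b => ((φ b).1, sn Λ (φ a) * (Λ.lam s (φ a).1)⁻¹) := by
    filter_upwards [h2] with b hb
    rw [hb]
  have h5 : ContinuousAt (fun b => ((φ b).1, sn Λ (φ b) * (Λ.lam s (φ b).1)⁻¹)) a :=
    (h1.prodMk continuousAt_const).congr h4.symm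
  refine h5.congr (Filter.Eventually.of_forall fun b => ?_)
  exact (h3 b).symm

private theorem cov : IsCoveringMap (Bundle.TotalSpace.proj : (core Λ).TotalSpace → X) :=
  FiberBundle.isCoveringMap (F := L) (E := (core Λ).Fiber)

/-- the point of the total space -/
private def pt (x : X) (g : L) : (core Λ).TotalSpace := ⟨x, g⟩

private def fpt (x : X) (g : L) :
    (Bundle.TotalSpace.proj : (core Λ).TotalSpace → X) ⁻¹' {x} := ⟨pt Λ x g, rfl⟩

private theorem fpt_eq {y : X}
    (e : (Bundle.TotalSpace.proj : (core Λ).TotalSpace → X) ⁻¹' {y}) :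
    e = fpt Λ y (sn Λ e.1) := by
  obtain ⟨⟨y', c⟩, hy⟩ := e
  have hy' : y' = y := hy
  subst hy'
  rfl

/-- lifts and left multiplication -/
private def mulLift (g : L) (Γ : C(I, (core Λ).TotalSpace)) : C(I, (core Λ).TotalSpace) where
  toFun t := pt Λ (Γ t).1 (g * sn Λ (Γ t))
  continuous_toFun := by
    rw [continuous_iff_continuousAt]
    intro t
    have h1 : ContinuousAt (fun b => (Γ b).1) t :=
      ((core Λ).continuous_proj.comp Γ.continuous).continuousAt
    refine continuousAt_of_coord Λ (φ := fun t => pt Λ (Γ t).1 (g * sn Λ (Γ t)))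
      (s := (Γ t).1) (Λ.mem _) h1 ?_
    filter_upwards [coord_eventually Λ (Λ.mem (Γ t).1) (Γ.continuous.continuousAt (x := t))]
      with b hb
    change g * sn Λ (Γ b) * (Λ.lam (Γ t).1 (Γ b).1)⁻¹ =
      g * sn Λ (Γ t) * (Λ.lam (Γ t).1 (Γ t).1)⁻¹
    rw [mul_assoc, hb, mul_assoc]

private theorem monodromy_mul {x y : X} (γ : Path.Homotopic.Quotient x y) (g h : L) :
    (cov Λ).monodromy γ (fpt Λ x (g * h)) =
      fpt Λ y (g * sn Λ ((cov Λ).monodromy γ (fpt Λ x h)).1) := by
  obtain ⟨γ⟩ := γ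
  apply Subtype.ext
  have h0 : (γ : C(I, X)) 0 = (Bundle.TotalSpace.proj : (core Λ).TotalSpace → X) (pt Λ x h) :=
    γ.source
  have h0' : (γ : C(I, X)) 0 =
      (Bundle.TotalSpace.proj : (core Λ).TotalSpace → X) (pt Λ x (g * h)) := γ.source
  have h1 : mulLift Λ g ((cov Λ).liftPath γ (pt Λ x h) h0) =
      (cov Λ).liftPath γ (pt Λ x (g * h)) h0' := by
    rw [IsCoveringMap.eq_liftPath_iff']
    constructor
    · funext t
      exact congrFun ((cov Λ).liftPath_lifts γ (pt Λ x h) h0) t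
    · change pt Λ ((cov Λ).liftPath γ (pt Λ x h) h0 0).1
        (g * sn Λ ((cov Λ).liftPath γ (pt Λ x h) h0 0)) = _
      rw [(cov Λ).liftPath_zero γ (pt Λ x h) h0]
      rfl
  have h2 : (cov Λ).liftPath γ (pt Λ x (g * h)) h0' 1 =
      pt Λ ((cov Λ).liftPath γ (pt Λ x h) h0 1).1
        (g * sn Λ ((cov Λ).liftPath γ (pt Λ x h) h0 1)) := by
    rw [← h1]
    rfl
  have h3 : ((cov Λ).liftPath γ (pt Λ x h) h0 1).1 = y :=
    (congrFun ((cov Λ).liftPath_lifts γ (pt Λ x h) h0) 1).trans γ.target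
  change (cov Λ).liftPath γ (pt Λ x (g * h)) h0' 1 =
    pt Λ y (g * sn Λ ((cov Λ).liftPath γ (pt Λ x h) h0 1))
  rw [h2]
  unfold pt
  congr 1

end hol

theorem LamSys.exists_hol {X : Type} [TopologicalSpace X] {L : Type} [Group L]
    (Λ : LamSys X L) : ∃ Hol : ∀ x y : X, Path.Homotopic.Quotient x y → L,
      (∀ x, Hol x x (Path.Homotopic.Quotient.refl x) = 1) ∧
      (∀ x y z (p : Path.Homotopic.Quotient x y) (q : Path.Homotopic.Quotient y z),
        Hol x z (p.trans q) = Hol x y p * Hol y z q) ∧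
      (∀ s x y (γ : Path x y), (∀ t, γ t ∈ Λ.N s) →
        Hol x y (Path.Homotopic.Quotient.mk γ) = (Λ.lam s x)⁻¹ * Λ.lam s y) := by
  let _ : TopologicalSpace L := ⊥
  have : DiscreteTopology L := ⟨rfl⟩
  refine ⟨fun x y γ => sn Λ ((cov Λ).monodromy γ (fpt Λ x 1)).1, ?_, ?_, ?_⟩
  · intro x
    dsimp only
    rw [IsCoveringMap.monodromy_refl]
    rfl
  · intro x y z p q
    dsimp only
    rw [IsCoveringMap.monodromy_trans_apply]
    have h1 := fpt_eq Λ ((cov Λ).monodromy p (fpt Λ x 1))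
    have h2 := monodromy_mul Λ q (sn Λ ((cov Λ).monodromy p (fpt Λ x 1)).1) 1
    rw [mul_one, ← h1] at h2
    rw [h2]
    rfl
  · intro s x y γ hγ
    have h0 : (γ : C(I, X)) 0 = (Bundle.TotalSpace.proj : (core Λ).TotalSpace → X) (pt Λ x 1) :=
      γ.source
    let Γ : C(I, (core Λ).TotalSpace) :=
      { toFun := fun t => pt Λ (γ t) ((Λ.lam s x)⁻¹ * Λ.lam s (γ t))
        continuous_toFun := by
          rw [continuous_iff_continuousAt]
          intro t
          apply continuousAt_of_coord Λ (s := s) (hγ t) γ.continuous.continuousAt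
          refine Filter.Eventually.of_forall fun b => ?_
          change (Λ.lam s x)⁻¹ * Λ.lam s (γ b) * (Λ.lam s (γ b))⁻¹ =
            (Λ.lam s x)⁻¹ * Λ.lam s (γ t) * (Λ.lam s (γ t))⁻¹
          rw [mul_inv_cancel_right, mul_inv_cancel_right] }
    have h1 : Γ = (cov Λ).liftPath γ (pt Λ x 1) h0 := by
      rw [IsCoveringMap.eq_liftPath_iff']
      refine ⟨rfl, ?_⟩
      change pt Λ (γ 0) ((Λ.lam s x)⁻¹ * Λ.lam s (γ 0)) = pt Λ x 1
      rw [γ.source, inv_mul_cancel]
    change sn Λ ((cov Λ).liftPath γ (pt Λ x 1) h0 1) = _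
    rw [← h1]
    change (Λ.lam s x)⁻¹ * Λ.lam s (γ 1) = _
    rw [γ.target]

end TP

end GB
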