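import Pool.Agent.Helper95.GB.TP.Sys
import Pool.Agent.Helper95.GB.TP.Ed

/-! # GB/TP/HolP: parallel transport of linear classes and moves (stub, prove in place)

`Λ` from `exists_sys`, `Hol` from `Λ.exists_hol`.
* linear classes: `path_ind` with `A = {y | tp y = tp s}`, `Q = (Hol = 1)`, `N = Λ.N`: for a path `γ` in `N s₀ ∩ A`, `s₀ ∈ A`: `Hol γ = (lam s₀ x)⁻¹ * lam s₀ y = 1` (first property of `exists_sys`).  The points of
a linear path have the same type (`Cmp.seg`, `Cmp.tp`).
* moves: let `(x, i, ε, γ)` be as in `IsMv`; `ε₀` from `exists_sys`, `ε' = min ε ε₀` (or smaller); the move path `γ'` by `ε'` lies in `N (uc x)`, so `Hol [γ'] = (lam s s)⁻¹ * gg ..`, `lam s s = 1` (first property).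
`IsMv.nat` with `p = refl` and a linear `p'` (`exists_lin`; the types agree by `IsMv.tp`): `[γ'] p' = refl q`, so `Hol q = Hol [γ']`.
* `IsEd`: product.
-/

set_option autoImplicit false

namespace GB

open unitInterval Topology

namespace TP

variable {V E : Type} [DecidableEq V] [Finite E] (G : Gr V E)

theorem exists_holP (n : ℕ) {L : Type} [Group L] (gg : Dart E → Finset V → (E →₀ ℕ) → L)
    (hg : GRel G gg) : ∃ Hol : ∀ s s' : UConf n (Geo G), Path.Homotopic.Quotient s s' → L,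
      (∀ s, Hol s s (Path.Homotopic.Quotient.refl s) = 1) ∧
      (∀ s s' s'' (p : Path.Homotopic.Quotient s s') (q : Path.Homotopic.Quotient s' s''),
        Hol s s'' (p.trans q) = Hol s s' p * Hol s' s'' q) ∧
      ∀ d m s s' (q : Path.Homotopic.Quotient s s'), IsEd G d m q →
        Hol s s' q = gg d m.occ m.num := by
  obtain ⟨Λ, hΛ1, hΛ2⟩ := exists_sys (n := n) G gg hg
  obtain ⟨Hol, h1, h2, h3⟩ := Λ.exists_hol
  have hlin : ∀ s s' (q : Path.Homotopic.Quotient s s'), IsLin G q → Hol s s' q = 1 := by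
    rintro s s' q ⟨x, x', γ, hc, hγ, rfl⟩
    have hA : ∀ t, γ t ∈ {y | tp G y = tp G s} := by
      intro t
      obtain ⟨h, ht⟩ := hγ t
      have hs := (lin_ends hc γ hγ).1
      change tp G (γ t) = tp G s
      rw [ht, hs, tp_uc, tp_uc]
      exact ((hc.seg t).tp).symm
    refine path_ind Λ.N Λ.isOpen Λ.mem {y | tp G y = tp G s} (fun x y q => Hol x y q = 1)
      ?_ ?_ s s' γ hA
    · intro x y z p q _ _ _ hp hq
      rw [h2, hp, hq, mul_one]
    · intro s₀ hs₀ x y γ hγN hγA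
      have e1 : tp G x = tp G s₀ := by
        have h4 : tp G (γ 0) = tp G s := hγA 0
        have h5 : tp G s₀ = tp G s := hs₀
        rw [γ.source] at h4
        rw [h4, h5]
      have e2 : tp G y = tp G s₀ := by
        have h4 : tp G (γ 1) = tp G s := hγA 1
        have h5 : tp G s₀ = tp G s := hs₀
        rw [γ.target] at h4
        rw [h4, h5]
      have m1 : x ∈ Λ.N s₀ := by
        have h4 := hγN 0
        rwa [γ.source] at h4
      have m2 : y ∈ Λ.N s₀ := by
        have h4 := hγN 1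
        rwa [γ.target] at h4
      rw [h3 s₀ x y γ hγN, hΛ1 s₀ x m1 e1, hΛ1 s₀ y m2 e2, inv_one, one_mul]
  have hmv : ∀ d m s s' (q : Path.Homotopic.Quotient s s'), IsMv G d m q →
      Hol s s' q = gg d m.occ m.num := by
    intro d m s s' q hq
    obtain ⟨x, i, ε, γ, hx, hi, h0, h1', ha, hm, hγ, hqq⟩ := id hq
    obtain ⟨ε₀, he0, heN, heL⟩ := hΛ2 x hx i d hi
    have ha' : Adm G x i d (min ε ε₀) := ha.mono (min_le_left _ _)
    have h0' : 0 < min ε ε₀ := lt_min h0 he0
    have hlt : min ε ε₀ < 1 := (min_le_left _ _).trans_lt h1'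
    have hinj : Function.Injective (Function.update x i (hp G d (min ε ε₀))) := by
      have h4 := Adm.inj hx hi ha' 1
      rwa [mul_one] at h4
    obtain ⟨γ', hγ', hm'⟩ := exists_mv hx hi h0' hlt ha' (uc x hx) (uc _ hinj) rfl ⟨hinj, rfl⟩
    rw [hm] at hm'
    have hN : ∀ t, γ' t ∈ Λ.N (uc x hx) := by
      intro t
      obtain ⟨h, ht⟩ := hγ' t
      rw [ht]
      exact heN _ ((mul_le_self _ t).trans (min_le_right _ _)) h
    have e1 : Hol _ _ (Path.Homotopic.Quotient.mk γ') = gg d m.occ m.num := by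
      rw [h3 _ _ _ γ' hN, hΛ1 _ _ (Λ.mem _) rfl, inv_one, one_mul,
        heL _ h0' (min_le_right _ _) hinj, hm]
    have hend := (mv_ends hx hi γ hγ).1
    obtain ⟨p, hp⟩ := exists_lin (show tp G (uc x hx) = tp G s from by rw [hend])
    obtain ⟨p', hp'⟩ := exists_lin (hm'.tp.2.2.trans hq.tp.2.2.symm)
    have hnat := congrArg (Hol _ _) (IsMv.nat hm' hq hp hp')
    rw [h2, h2, hlin _ _ _ hp, hlin _ _ _ hp', mul_one, one_mul, e1] at hnat
    exact hnat.symm
  refine ⟨Hol, h1, h2, ?_⟩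
  rintro d m s s' q ⟨s1, s2, q1, q2, q3, hq1, hq2, hq3, rfl⟩
  rw [h2, h2, hlin _ _ _ hq1, hmv _ _ _ _ _ hq2, hlin _ _ _ hq3, mul_one, one_mul]

end TP

end GB
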