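import Mathlib

/-! # GB/TP/Ind: induction for paths (stub, prove in place)

`path_ind`: the sets `γ⁻¹ (N (γ u))`, `u : I`, are open and cover `I`; `exists_monotone_Icc_subset_open_cover_unitInterval` gives
`t : ℕ → I` monotone, `t 0 = 0`, eventually `1`, with `γ '' Icc (t k) (t (k+1)) ⊆ N (γ u_k)`.  By induction on `k`: `Q` holds for the class of
`γ.subpath 0 (t k)` (`Mathlib.Topology.Subpath`: `range_subpath`, and the class of `γ.subpath 0 (t (k+1))` is the product of the classes of
`γ.subpath 0 (t k)` and `γ.subpath (t k) (t (k+1))`).  For `k = 0` the constant path lies in `N (γ 0)` and `A`.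
At the end `γ.subpath 0 1` is `γ` (up to the obvious equality of the end points).
`square`: the square `I × I` is simply connected (contractible); the two boundary paths of the square from `(0,0)` to `(1,1)` are homotopic,
map by `F`.   `trans_assoc` etc. for `Path.Homotopic.Quotient` are in Mathlib.
-/

set_option autoImplicit false

namespace GB

open unitInterval Topology

namespace TP

variable {X : Type} [TopologicalSpace X]

theorem path_ind (N : X → Set X) (hN : ∀ s, IsOpen (N s)) (hm : ∀ s, s ∈ N s) (A : Set X)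
    (Q : ∀ x y : X, Path.Homotopic.Quotient x y → Prop)
    (htr : ∀ x y z (p : Path.Homotopic.Quotient x y) (q : Path.Homotopic.Quotient y z),
      x ∈ A → y ∈ A → z ∈ A → Q x y p → Q y z q → Q x z (p.trans q))
    (hloc : ∀ s ∈ A, ∀ x y (γ : Path x y), (∀ t, γ t ∈ N s) → (∀ t, γ t ∈ A) →
      Q x y (Path.Homotopic.Quotient.mk γ)) :
    ∀ x y (γ : Path x y), (∀ t, γ t ∈ A) → Q x y (Path.Homotopic.Quotient.mk γ) := by
  intro x y γ hA
  obtain ⟨t, ht0, hmono, ⟨n, hn⟩, hcov⟩ :=
    exists_monotone_Icc_subset_open_cover_unitInterval (c := fun u : I => γ ⁻¹' N (γ u))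
      (fun u => (hN _).preimage γ.continuous) (fun s _ => Set.mem_iUnion.2 ⟨s, hm _⟩)
  have hsub : ∀ (a b : I) (s : I), γ.subpath a b s = γ (Set.Icc.convexComb a b s) :=
    fun a b s => rfl
  have key : ∀ k, Q (γ 0) (γ (t k)) (Path.Homotopic.Quotient.mk (γ.subpath 0 (t k))) := by
    intro k
    induction k with
    | zero =>
      refine hloc (γ 0) (hA 0) _ _ _ (fun s => ?_) (fun s => ?_)
      · have h1 : ∀ b : I, b = 0 → γ.subpath 0 b s = γ 0 := by
          rintro b rfl
          have h1 : γ.subpath 0 0 s ∈ Set.range (γ.subpath 0 0) := ⟨s, rfl⟩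
          rw [Path.range_subpath, Set.uIcc_self, Set.image_singleton] at h1
          exact Set.mem_singleton_iff.1 h1
        rw [h1 _ ht0]
        exact hm _
      · rw [hsub]
        exact hA _
    | succ k ih =>
      have h1 : Path.Homotopic.Quotient.mk (γ.subpath 0 (t (k + 1))) =
          (Path.Homotopic.Quotient.mk (γ.subpath 0 (t k))).trans
            (Path.Homotopic.Quotient.mk (γ.subpath (t k) (t (k + 1)))) := by
        rw [← Path.Homotopic.Quotient.mk_trans, Path.Homotopic.Quotient.eq]
        exact Path.Homotopic.symm ⟨Path.Homotopy.subpathTransSubpath γ 0 (t k) (t (k + 1))⟩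
      rw [h1]
      refine htr _ _ _ _ _ (hA _) (hA _) (hA _) ih ?_
      obtain ⟨u, hu⟩ := hcov k
      refine hloc (γ u) (hA u) _ _ _ (fun s => ?_) (fun s => ?_)
      · have h2 : γ.subpath (t k) (t (k + 1)) s ∈ Set.range (γ.subpath (t k) (t (k + 1))) :=
          ⟨s, rfl⟩
        rw [Path.range_subpath_of_le _ _ _ (hmono (Nat.le_succ k))] at h2
        obtain ⟨v, hv, hvs⟩ := h2
        rw [← hvs]
        exact hu hv
      · rw [hsub]
        exact hA _
  have h2 := key n
  rw [hn n le_rfl, Path.subpath_zero_one] at h2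
  have h3 : ∀ (a b : X) (ha : a = x) (hb : b = y),
      Q a b (Path.Homotopic.Quotient.mk (γ.cast ha hb)) →
      Q x y (Path.Homotopic.Quotient.mk γ) := by
    intro a b ha hb h
    subst ha hb
    exact h
  exact h3 _ _ _ _ h2

/-- a square in `X`: two boundary paths are homotopic -/
theorem square (F : I × I → X) (hF : Continuous F) {a b c d : X} (α : Path a b) (β : Path b d)
    (γ : Path a c) (δ : Path c d) (h1 : ∀ t, α t = F (t, 0)) (h2 : ∀ t, β t = F (1, t))
    (h3 : ∀ t, γ t = F (0, t)) (h4 : ∀ t, δ t = F (t, 1)) :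
    (α.trans β).Homotopic (γ.trans δ) := by
  obtain rfl : a = F (0, 0) := by rw [← h1, α.source]
  obtain rfl : b = F (1, 0) := by rw [← h1, α.target]
  obtain rfl : c = F (0, 1) := by rw [← h3, γ.target]
  obtain rfl : d = F (1, 1) := by rw [← h2, β.target]
  let p1 : Path ((0, 0) : I × I) (1, 0) := ⟨⟨fun t => (t, 0), by fun_prop⟩, rfl, rfl⟩
  let p2 : Path ((1, 0) : I × I) (1, 1) := ⟨⟨fun t => (1, t), by fun_prop⟩, rfl, rfl⟩
  let p3 : Path ((0, 0) : I × I) (0, 1) := ⟨⟨fun t => (0, t), by fun_prop⟩, rfl, rfl⟩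
  let p4 : Path ((0, 1) : I × I) (1, 1) := ⟨⟨fun t => (t, 1), by fun_prop⟩, rfl, rfl⟩
  have hI : ContractibleSpace I := (convex_Icc (0 : ℝ) 1).contractibleSpace ⟨0, by simp⟩
  have hsc : SimplyConnectedSpace (I × I) := inferInstance
  have h5 : (p1.trans p2).Homotopic (p3.trans p4) := SimplyConnectedSpace.paths_homotopic _ _
  have h6 := h5.map ⟨F, hF⟩
  rw [Path.map_trans, Path.map_trans] at h6
  have e1 : p1.map hF = α := by
    ext t
    exact (h1 t).symm
  have e2 : p2.map hF = β := by
    ext t
    exact (h2 t).symm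
  have e3 : p3.map hF = γ := by
    ext t
    exact (h3 t).symm
  have e4 : p4.map hF = δ := by
    ext t
    exact (h4 t).symm
  rw [← e1, ← e2, ← e3, ← e4]
  exact h6

end TP

end GB
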