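import Pool.Agent.Helper95.GB.GT.Pi1

/-! # GB/TP/Iso: comparison of the edge path group with the fundamental group 

`PC x y w q`: `q` is the class of the edge walk `w` (only edges whose ends satisfy `R`).
(1) if `R x` and `K.IsWalk x w y` then there is exactly one `q` with `PC x y w q` (induction on `w`; `hR` keeps `R`; inversion of `PC`); conversely `PC x y w q → K.IsWalk x w y`.
(2) `PC x y u p`, `PC y z v q` imply `PC x z (u ++ v) (p.trans q)`.
(3) if `K.Elem r r'`, `R x`, `PC x y r p`, `PC x y r' p'` then `p = p'`: for `canc`: `P a` and `(P a).symm` cancel; `sq`: `hsq`; `sqi`: take inverses of `hsq` (reversed walks have the inverse classes).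
So `w ↦` (class of `w`) is well defined on `K.Pi1 S₀`.  Let `F (cls w) = (class of w)⁻¹` in `FundamentalGroup X (pt S₀)`; there `p * q = q.trans p`, so `F` is a homomorphism.
Surjective: `hsurj`.  Injective: by `exists_lab` (below, in `GT/Pi1`) there is `g : K.Ed → K.Pi1 S₀` with `K.Lab g` and `K.val g w = cls w` for closed walks `w` at `S₀`.  `hhol` for `g` gives `Hol`; `Hol q = K.val g w` for `PC x y w q`
(induction; `Hol` of the inverse is the inverse).  If the class of `w` is trivial then `cls w = K.val g w = Hol refl = 1`.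
-/

set_option autoImplicit false

namespace GB

open unitInterval Topology

namespace TP

/-- classes of edge walks -/
inductive PC (K : Cx) {X : Type} [TopologicalSpace X] (R : K.X → Prop) (pt : K.X → X)
    (P : ∀ a : K.Ed, R (K.s a) → Path.Homotopic.Quotient (pt (K.s a)) (pt (K.t a))) :
    ∀ x y : K.X, List (K.Ed × Bool) → Path.Homotopic.Quotient (pt x) (pt y) → Prop
  | nil (x : K.X) : PC K R pt P x x [] (Path.Homotopic.Quotient.refl (pt x))
  | fwd (a : K.Ed) (h : R (K.s a)) (y : K.X) (w : List (K.Ed × Bool))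
      (q : Path.Homotopic.Quotient (pt (K.t a)) (pt y)) : PC K R pt P (K.t a) y w q →
      PC K R pt P (K.s a) y ((a, true) :: w) ((P a h).trans q)
  | bwd (a : K.Ed) (h : R (K.s a)) (y : K.X) (w : List (K.Ed × Bool))
      (q : Path.Homotopic.Quotient (pt (K.s a)) (pt y)) : PC K R pt P (K.s a) y w q →
      PC K R pt P (K.t a) y ((a, false) :: w) ((P a h).symm.trans q)

section

open Path.Homotopic

private theorem Iso_trans_symm' {X : Type} [TopologicalSpace X] {x y z : X}
    (p : Path.Homotopic.Quotient x y) (q : Path.Homotopic.Quotient y z) :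
    (p.trans q).symm = q.symm.trans p.symm := by
  induction p using Path.Homotopic.Quotient.ind with
  | mk p =>
    induction q using Path.Homotopic.Quotient.ind with
    | mk q =>
      rw [← Path.Homotopic.Quotient.mk_trans, ← Path.Homotopic.Quotient.mk_symm,
        ← Path.Homotopic.Quotient.mk_symm, ← Path.Homotopic.Quotient.mk_symm,
        ← Path.Homotopic.Quotient.mk_trans, Path.trans_symm]

private theorem Iso_symm_symm {X : Type} [TopologicalSpace X] {x y : X}
    (p : Path.Homotopic.Quotient x y) : p.symm.symm = p := by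
  induction p using Path.Homotopic.Quotient.ind with
  | mk p =>
    rw [← Path.Homotopic.Quotient.mk_symm, ← Path.Homotopic.Quotient.mk_symm, Path.symm_symm]

private theorem Iso_symm_refl {X : Type} [TopologicalSpace X] (x : X) :
    (Path.Homotopic.Quotient.refl x).symm = Path.Homotopic.Quotient.refl x := by
  rw [← Path.Homotopic.Quotient.mk_refl, ← Path.Homotopic.Quotient.mk_symm, Path.refl_symm]

variable {K : Cx} {X : Type} [TopologicalSpace X] {R : K.X → Prop} {pt : K.X → X}
    {P : ∀ a : K.Ed, R (K.s a) → Path.Homotopic.Quotient (pt (K.s a)) (pt (K.t a))}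

private theorem PC_inv_nil {x y : K.X} {q : Path.Homotopic.Quotient (pt x) (pt y)}
    (H : PC K R pt P x y [] q) :
    ∃ _ : x = y, HEq q (Path.Homotopic.Quotient.refl (pt x)) := by
  cases H
  exact ⟨rfl, HEq.rfl⟩

private theorem PC_inv_fwd {x y : K.X} {a : K.Ed} {w : List (K.Ed × Bool)}
    {q : Path.Homotopic.Quotient (pt x) (pt y)}
    (H : PC K R pt P x y ((a, true) :: w) q) :
    ∃ (_ : K.s a = x) (h : R (K.s a)) (q1 : Path.Homotopic.Quotient (pt (K.t a)) (pt y)),
      PC K R pt P (K.t a) y w q1 ∧ HEq q ((P a h).trans q1) := by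
  cases H with
  | fwd _ h _ _ q1 H1 => exact ⟨rfl, h, q1, H1, HEq.rfl⟩

private theorem PC_inv_bwd {x y : K.X} {a : K.Ed} {w : List (K.Ed × Bool)}
    {q : Path.Homotopic.Quotient (pt x) (pt y)}
    (H : PC K R pt P x y ((a, false) :: w) q) :
    ∃ (_ : K.t a = x) (h : R (K.s a)) (q1 : Path.Homotopic.Quotient (pt (K.s a)) (pt y)),
      PC K R pt P (K.s a) y w q1 ∧ HEq q ((P a h).symm.trans q1) := by
  cases H with
  | bwd _ h _ _ q1 H1 => exact ⟨rfl, h, q1, H1, HEq.rfl⟩

private theorem PC_uniq {x y : K.X} {w : List (K.Ed × Bool)}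
    {q : Path.Homotopic.Quotient (pt x) (pt y)} (H : PC K R pt P x y w q) :
    ∀ q', PC K R pt P x y w q' → q = q' := by
  induction H with
  | nil x =>
    intro q' H'
    obtain ⟨_, h⟩ := PC_inv_nil H'
    exact (eq_of_heq h).symm
  | fwd a h y w q _ ih =>
    intro q' H'
    obtain ⟨_, h', q1, H1, e⟩ := PC_inv_fwd H'
    rw [eq_of_heq e, ih q1 H1]
  | bwd a h y w q _ ih =>
    intro q' H'
    obtain ⟨_, h', q1, H1, e⟩ := PC_inv_bwd H'
    rw [eq_of_heq e, ih q1 H1]

private theorem PC_walk {x y : K.X} {w : List (K.Ed × Bool)}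
    {q : Path.Homotopic.Quotient (pt x) (pt y)} (H : PC K R pt P x y w q) : K.IsWalk x w y := by
  induction H with
  | nil x => rfl
  | fwd a h y w q _ ih => exact ⟨rfl, ih⟩
  | bwd a h y w q _ ih => exact ⟨rfl, ih⟩

private theorem PC_R (hR : ∀ a, R (K.s a) ↔ R (K.t a)) {x y : K.X} {w : List (K.Ed × Bool)}
    {q : Path.Homotopic.Quotient (pt x) (pt y)} (H : PC K R pt P x y w q) : R x → R y := by
  induction H with
  | nil x => exact id
  | fwd a h y w q _ ih => exact fun _ => ih ((hR a).1 h)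
  | bwd a h y w q _ ih => exact fun _ => ih h

private theorem PC_ex (hR : ∀ a, R (K.s a) ↔ R (K.t a)) (w : List (K.Ed × Bool)) :
    ∀ x y, R x → K.IsWalk x w y → ∃ q, PC K R pt P x y w q := by
  induction w with
  | nil =>
    intro x y _ h
    obtain rfl : x = y := h
    exact ⟨_, PC.nil x⟩
  | cons a w ih =>
    intro x y hx h
    obtain ⟨a, _ | _⟩ := a
    · obtain ⟨rfl, hw⟩ := h
      have hs : R (K.s a) := (hR a).2 hx
      obtain ⟨q, hq⟩ := ih (K.s a) y hs hw
      exact ⟨_, PC.bwd a hs y w q hq⟩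
    · obtain ⟨rfl, hw⟩ := h
      have hs : R (K.s a) := hx
      obtain ⟨q, hq⟩ := ih (K.t a) y ((hR a).1 hs) hw
      exact ⟨_, PC.fwd a hs y w q hq⟩

private theorem PC_trans {x y z : K.X} {u v : List (K.Ed × Bool)}
    {p : Path.Homotopic.Quotient (pt x) (pt y)} {q : Path.Homotopic.Quotient (pt y) (pt z)}
    (H : PC K R pt P x y u p) (H' : PC K R pt P y z v q) :
    PC K R pt P x z (u ++ v) (p.trans q) := by
  induction H with
  | nil x =>
    rw [Path.Homotopic.Quotient.refl_trans]
    exact H'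
  | fwd a h y w p _ ih =>
    rw [Path.Homotopic.Quotient.trans_assoc]
    exact PC.fwd a h z _ _ (ih H')
  | bwd a h y w p _ ih =>
    rw [Path.Homotopic.Quotient.trans_assoc]
    exact PC.bwd a h z _ _ (ih H')

private theorem PC_split {z : K.X} (u v : List (K.Ed × Bool)) :
    ∀ {x : K.X} {p : Path.Homotopic.Quotient (pt x) (pt z)}, PC K R pt P x z (u ++ v) p →
    ∃ (y : K.X) (q1 : Path.Homotopic.Quotient (pt x) (pt y))
      (q2 : Path.Homotopic.Quotient (pt y) (pt z)),
      PC K R pt P x y u q1 ∧ PC K R pt P y z v q2 := by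
  induction u with
  | nil =>
    intro x p H
    exact ⟨x, _, p, PC.nil x, H⟩
  | cons a u ih =>
    intro x p H
    obtain ⟨a, _ | _⟩ := a
    · obtain ⟨rfl, h, q1, H1, _⟩ := PC_inv_bwd H
      obtain ⟨y, q2, q3, H2, H3⟩ := ih H1
      exact ⟨y, _, q3, PC.bwd a h y u q2 H2, H3⟩
    · obtain ⟨rfl, h, q1, H1, _⟩ := PC_inv_fwd H
      obtain ⟨y, q2, q3, H2, H3⟩ := ih H1
      exact ⟨y, _, q3, PC.fwd a h y u q2 H2, H3⟩

private theorem PC_rev {x y : K.X} {w : List (K.Ed × Bool)}
    {q : Path.Homotopic.Quotient (pt x) (pt y)} (H : PC K R pt P x y w q) :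
    PC K R pt P y x (K.rev w) q.symm := by
  induction H with
  | nil x =>
    rw [Iso_symm_refl]
    exact PC.nil x
  | fwd a h y w q _ ih =>
    rw [Cx.rev_cons, Iso_trans_symm']
    refine PC_trans ih ?_
    have := PC.bwd (K := K) (P := P) a h (K.s a) [] _ (PC.nil (K.s a))
    rw [Path.Homotopic.Quotient.trans_refl] at this
    exact this
  | bwd a h y w q _ ih =>
    rw [Cx.rev_cons, Iso_trans_symm', Iso_symm_symm]
    refine PC_trans ih ?_
    have := PC.fwd (K := K) (P := P) a h (K.t a) [] _ (PC.nil (K.t a))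
    rw [Path.Homotopic.Quotient.trans_refl] at this
    exact this

private theorem elem_walk {r r' : List (K.Ed × Bool)} (h : K.Elem r r') {x y : K.X}
    (hw : K.IsWalk x r y) : K.IsWalk x r' y := by
  cases h with
  | canc a =>
    rcases a with ⟨a, _ | _⟩
    · obtain ⟨h1, _, h3⟩ := hw
      exact h1.symm.trans h3
    · obtain ⟨h1, _, h3⟩ := hw
      exact h1.symm.trans h3
  | sq a b c d h =>
    obtain ⟨e1, e2, e3, e4⟩ := K.wf a b c d h
    obtain ⟨h1, h2, h3⟩ := hw
    exact ⟨e1.symm.trans h1, e3.symm, e4.symm.trans h3⟩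
  | sqi a b c d h =>
    obtain ⟨e1, e2, e3, e4⟩ := K.wf a b c d h
    obtain ⟨h1, h2, h3⟩ := hw
    exact ⟨e4.symm.trans h1, e3, e1.symm.trans h3⟩

private theorem elem_eq
    (hsq : ∀ a b c d, K.sq a b c d → R (K.s a) → ∀ q q',
      PC K R pt P (K.s a) (K.t b) [(a, true), (b, true)] q →
      PC K R pt P (K.s a) (K.t b) [(c, true), (d, true)] q' → q = q')
    {r r' : List (K.Ed × Bool)} (h : K.Elem r r') {x y : K.X}
    {p p' : Path.Homotopic.Quotient (pt x) (pt y)} (H : PC K R pt P x y r p)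
    (H' : PC K R pt P x y r' p') : p = p' := by
  cases h with
  | canc a =>
    obtain ⟨rfl, h⟩ := PC_inv_nil H'
    rw [eq_of_heq h]
    rcases a with ⟨a, _ | _⟩
    · obtain ⟨rfl, h1, q1, H1, e⟩ := PC_inv_bwd H
      have := PC.fwd (K := K) (P := P) a h1 (K.t a) [] _ (PC.nil (K.t a))
      rw [Path.Homotopic.Quotient.trans_refl] at this
      rw [eq_of_heq e, PC_uniq H1 _ this, Path.Homotopic.Quotient.symm_trans]
    · obtain ⟨rfl, h1, q1, H1, e⟩ := PC_inv_fwd H
      have := PC.bwd (K := K) (P := P) a h1 (K.s a) [] _ (PC.nil (K.s a))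
      rw [Path.Homotopic.Quotient.trans_refl] at this
      rw [eq_of_heq e, PC_uniq H1 _ this, Path.Homotopic.Quotient.trans_symm]
  | sq a b c d h =>
    obtain ⟨h1, _, h3⟩ := PC_walk H
    obtain rfl : K.s a = x := h1
    obtain rfl : K.t b = y := h3
    obtain ⟨_, h4, _⟩ := PC_inv_fwd H
    exact hsq a b c d h h4 p p' H H'
  | sqi a b c d h =>
    have H1 := PC_rev H
    have H1' := PC_rev H'
    obtain ⟨h1, _, h3⟩ := PC_walk H
    obtain rfl : K.t b = x := h1
    obtain rfl : K.s a = y := h3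
    obtain ⟨_, h4, _⟩ := PC_inv_fwd (K := K) (a := a) (w := [(b, true)]) H1
    have := hsq a b c d h h4 p.symm p'.symm H1 H1'
    rw [← Iso_symm_symm p, this, Iso_symm_symm]

private theorem PC_step (hR : ∀ a, R (K.s a) ↔ R (K.t a))
    (hsq : ∀ a b c d, K.sq a b c d → R (K.s a) → ∀ q q',
      PC K R pt P (K.s a) (K.t b) [(a, true), (b, true)] q →
      PC K R pt P (K.s a) (K.t b) [(c, true), (d, true)] q' → q = q')
    {S₀ : K.X} (h₀ : R S₀) {p p' : K.Loop S₀} (h : K.Step S₀ p p')
    {q q' : Path.Homotopic.Quotient (pt S₀) (pt S₀)} (H : PC K R pt P S₀ S₀ p.1 q)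
    (H' : PC K R pt P S₀ S₀ p'.1 q') : q = q' := by
  obtain ⟨u, v, r, r', e1, e2, h3⟩ := h
  rw [e1] at H
  rw [e2] at H'
  obtain ⟨y2, q1, q2, H1, H2⟩ := PC_split (x := S₀) _ _ H
  obtain ⟨y1, q3, q4, H3, H4⟩ := PC_split (x := S₀) _ _ H1
  have hy1 : R y1 := PC_R hR H3 h₀
  obtain ⟨q5, H5⟩ := PC_ex (pt := pt) (P := P) hR r' y1 y2 hy1 (elem_walk h3 (PC_walk H4))
  have e3 : q4 = q5 := elem_eq hsq h3 H4 H5
  have e4 := PC_uniq H _ (PC_trans (PC_trans H3 H4) H2)
  have e5 := PC_uniq H' _ (PC_trans (PC_trans H3 H5) H2)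
  rw [e4, e5, e3]

end

theorem iso_of (K : Cx) {X : Type} [TopologicalSpace X] (R : K.X → Prop)
    (hR : ∀ a, R (K.s a) ↔ R (K.t a)) (pt : K.X → X)
    (P : ∀ a : K.Ed, R (K.s a) → Path.Homotopic.Quotient (pt (K.s a)) (pt (K.t a)))
    (hsq : ∀ a b c d, K.sq a b c d → R (K.s a) → ∀ q q',
      PC K R pt P (K.s a) (K.t b) [(a, true), (b, true)] q →
      PC K R pt P (K.s a) (K.t b) [(c, true), (d, true)] q' → q = q')
    (S₀ : K.X) (h₀ : R S₀)
    (hsurj : ∀ γ : Path.Homotopic.Quotient (pt S₀) (pt S₀), ∃ w, PC K R pt P S₀ S₀ w γ)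
    (hhol : ∀ (L : Type) [Group L] (l : K.Ed → L), K.Lab l →
      ∃ Hol : ∀ x y : X, Path.Homotopic.Quotient x y → L,
        (∀ x, Hol x x (Path.Homotopic.Quotient.refl x) = 1) ∧
        (∀ x y z (p : Path.Homotopic.Quotient x y) (q : Path.Homotopic.Quotient y z),
          Hol x z (p.trans q) = Hol x y p * Hol y z q) ∧
        ∀ a h, Hol _ _ (P a h) = l a) :
    Nonempty (K.Pi1 S₀ ≃* FundamentalGroup X (pt S₀)) := by
  classical
  have hex : ∀ p : K.Loop S₀, ∃ q, PC K R pt P S₀ S₀ p.1 q := fun p =>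
    PC_ex hR p.1 S₀ S₀ h₀ p.2
  choose c hc using hex
  let F : K.Pi1 S₀ → FundamentalGroup X (pt S₀) :=
    Quot.lift (fun p => (FundamentalGroup.fromPath (c p).symm : FundamentalGroup X (pt S₀))) (by
      intro p p' h
      change (c p).symm = (c p').symm
      rw [PC_step hR hsq h₀ h (hc p) (hc p')])
  have hF : ∀ (w : List (K.Ed × Bool)) (hw : K.IsWalk S₀ w S₀)
      (q : Path.Homotopic.Quotient (pt S₀) (pt S₀)), PC K R pt P S₀ S₀ w q →
      F (Cx.cls w hw) = FundamentalGroup.fromPath q.symm := by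
    intro w hw q H
    change (c ⟨w, hw⟩).symm = q.symm
    rw [PC_uniq (hc ⟨w, hw⟩) q H]
  have hmul : ∀ x y : K.Pi1 S₀, F (x * y) = F x * F y := by
    intro x y
    induction x using Quot.ind with
    | mk u =>
      induction y using Quot.ind with
      | mk v =>
        have h1 := hF (u.1 ++ v.1) (Cx.isWalk_append u.2 v.2) _ (PC_trans (hc u) (hc v))
        exact h1.trans (Iso_trans_symm' (c u) (c v))
  refine ⟨MulEquiv.ofBijective (MonoidHom.mk' F hmul) ⟨?_, ?_⟩⟩
  · rw [injective_iff_map_eq_one]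
    intro x hx
    change F x = 1 at hx
    induction x using Quot.ind with
    | mk u =>
      obtain ⟨g, hg, hval⟩ := exists_lab K S₀
      obtain ⟨Hol, hol1, hol2, hol3⟩ := hhol (K.Pi1 S₀) g hg
      have hinv : ∀ (x y : X) (q : Path.Homotopic.Quotient x y),
          Hol y x q.symm = (Hol x y q)⁻¹ := by
        intro x y q
        have h1 := hol2 x y x q q.symm
        rw [Path.Homotopic.Quotient.trans_symm, hol1] at h1
        exact (inv_eq_of_mul_eq_one_right h1.symm).symm
      have key : ∀ (x y : K.X) (w : List (K.Ed × Bool))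
          (q : Path.Homotopic.Quotient (pt x) (pt y)), PC K R pt P x y w q →
          Hol _ _ q = K.val g w := by
        intro x y w q H
        induction H with
        | nil x => exact hol1 _
        | fwd a h y w q _ ih =>
          rw [hol2, hol3, ih]
          rfl
        | bwd a h y w q _ ih =>
          rw [hol2, hinv, hol3, ih]
          rfl
      have h1 := key _ _ _ _ (hc u)
      have h2 : (c u).symm = Path.Homotopic.Quotient.refl (pt S₀) := hx
      have h3 : c u = Path.Homotopic.Quotient.refl (pt S₀) := by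
        rw [← Iso_symm_symm (c u), h2, Iso_symm_refl]
      rw [h3, hol1, hval u.1 u.2] at h1
      exact h1.symm
  · intro γ
    obtain ⟨w, hw⟩ := hsurj (FundamentalGroup.toPath γ).symm
    refine ⟨Cx.cls w (PC_walk hw), ?_⟩
    exact (hF w (PC_walk hw) _ hw).trans (Iso_symm_symm (FundamentalGroup.toPath γ))

end TP

end GB
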