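import Pool.Agent.Helper95.GB.TP.Tp
import Pool.Agent.Helper95.GB.TP.Ball

/-! # GB/TP/LDefs: linear paths, moves (definitions) -/

set_option autoImplicit false

namespace GB

open unitInterval Topology

namespace TP

variable {V E : Type} [DecidableEq V] (G : Gr V E) {n : ℕ}

/-- the vertex or the edge containing a point -/
noncomputable def lab (p : Geo G) : V ⊕ E := match nf G p with
  | .inl v => .inl v
  | .inr (e, _) => .inr e

/-- coordinate of a point in an open edge -/
noncomputable def co (p : Geo G) : I := match nf G p with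
  | .inl _ => 0
  | .inr (_, x) => x

/-- convex combination -/
noncomputable def cc (u u' t : I) : I := ⟨(1 - t) * u + t * u', by
  obtain ⟨u, h1, h2⟩ := u
  obtain ⟨u', h3, h4⟩ := u'
  obtain ⟨t, h5, h6⟩ := t
  have a1 : 0 ≤ (1 - t) * u := mul_nonneg (by linarith) h1
  have a2 : 0 ≤ t * u' := mul_nonneg h5 h3
  have a3 : (1 - t) * u ≤ (1 - t) * 1 := mul_le_mul_of_nonneg_left h2 (by linarith)
  have a4 : t * u' ≤ t * 1 := mul_le_mul_of_nonneg_left h4 h5
  exact ⟨by simp only; linarith, by simp only; linarith⟩⟩

/-- linear motion inside an open edge; a vertex is fixed -/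
noncomputable def seg (p p' : Geo G) (t : I) : Geo G := match nf G p, nf G p' with
  | .inr (e, u), .inr (_, u') => ep G e (cc u u' t)
  | _, _ => p

/-- two ordered configurations of the same type, with the same order of the points on each edge -/
structure Cmp (x x' : Fin n → Geo G) : Prop where
  inj : Function.Injective x
  inj' : Function.Injective x'
  lab : ∀ i, lab G (x i) = lab G (x' i)
  ord : ∀ i j, TP.lab G (x i) = TP.lab G (x j) →
    (co G (x i) < co G (x j) ↔ co G (x' i) < co G (x' j))

/-- the class of a linear path -/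
def IsLin {s s' : UConf n (Geo G)} (q : Path.Homotopic.Quotient s s') : Prop :=
  ∃ (x x' : Fin n → Geo G) (γ : Path s s'), Cmp G x x' ∧
    (∀ t, ∃ h, γ t = uc (fun i => seg G (x i) (x' i) t) h) ∧
    q = Path.Homotopic.Quotient.mk γ

/-- no other point is on the half-edge `d` up to distance `ε` -/
def Adm (x : Fin n → Geo G) (i : Fin n) (d : Dart E) (ε : I) : Prop :=
  ∀ j, j ≠ i → ∀ t : I, 0 < t → t ≤ ε → x j ≠ hp G d t

/-- the class of a path moving one point from the vertex of `d` a little into `d`; the other points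
have the type `m` -/
def IsMv (d : Dart E) (m : Conf V E) {s s' : UConf n (Geo G)}
    (q : Path.Homotopic.Quotient s s') : Prop :=
  ∃ (x : Fin n → Geo G) (i : Fin n) (ε : I) (γ : Path s s'), Function.Injective x ∧
    x i = vp G (G.vt d) ∧ 0 < ε ∧ ε < 1 ∧ Adm G x i d ε ∧ tpE G i x = m ∧
    (∀ t, ∃ h, γ t = uc (Function.update x i (hp G d (ε * t))) h) ∧
    q = Path.Homotopic.Quotient.mk γ

/-- the class of an edge of the Swiatkowski complex -/
def IsEd (d : Dart E) (m : Conf V E) {s s' : UConf n (Geo G)}
    (q : Path.Homotopic.Quotient s s') : Prop :=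
  ∃ (s1 s2 : UConf n (Geo G)) (q1 : Path.Homotopic.Quotient s s1)
    (q2 : Path.Homotopic.Quotient s1 s2) (q3 : Path.Homotopic.Quotient s2 s'),
    IsLin G q1 ∧ IsMv G d m q2 ∧ IsLin G q3 ∧ q = (q1.trans q2).trans q3

/-- generated classes -/
inductive Gn : ∀ {s s' : UConf n (Geo G)}, Path.Homotopic.Quotient s s' → Prop
  | lin {s s' : UConf n (Geo G)} (q : Path.Homotopic.Quotient s s') : IsLin G q → Gn q
  | mv (d : Dart E) (m : Conf V E) {s s' : UConf n (Geo G)}
      (q : Path.Homotopic.Quotient s s') : IsMv G d m q → Gn q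
  | symm {s s' : UConf n (Geo G)} (q : Path.Homotopic.Quotient s s') : Gn q → Gn q.symm
  | trans {s s' s'' : UConf n (Geo G)} (q : Path.Homotopic.Quotient s s')
      (q' : Path.Homotopic.Quotient s' s'') : Gn q → Gn q' → Gn (q.trans q')

end TP

end GB
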