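import Pool.Agent.Helper95.GB.RD.Defs

/-! # GB/TP/LamC: the value of moving several particles at once (stub, prove in place)

List version: `lcL S [] = 1`, `lcL S (d :: l) = gg d (S.occ.erase (vt d)) S.num * lcL (mvS S {d}) l`, and `lc S M = lcL S M.toList` (classical decidability).
* permutation invariance of `lcL S l` for lists `l` of half-edges at different vertices of `S.occ` (`List.Perm` induction; the property passes to `mvS S {d}` and the tail):
for the exchange of `d`, `d'` at `v ≠ w` use `GRel` for `d`, `d'`, `occ₀ = (S.occ.erase v).erase w` (`insert w occ₀ = S.occ.erase v`, `insert v occ₀ = S.occ.erase w`).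
* `lcL S (l ++ l') = lcL S l * lcL (mvS S l.toFinset) l'` (`mvS (mvS S {d}) M = mvS S (insert d M)` for `d ∉ M`).
* the three claims: `∅.toList = []`, `{d}.toList = [d]`, `(M ∪ M').toList` is a permutation of `M.toList ++ M'.toList` for disjoint `M, M'`.
-/

set_option autoImplicit false

namespace GB

namespace TP

variable {V E : Type} [DecidableEq V] [DecidableEq E] (G : Gr V E)

/-- half-edges at different occupied vertices -/
def Val (S : Conf V E) (M : Finset (Dart E)) : Prop :=
  (∀ d ∈ M, G.vt d ∈ S.occ) ∧ ∀ d ∈ M, ∀ d' ∈ M, G.vt d = G.vt d' → d = d'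

/-- the particles at the vertices of the half-edges in `M` are moved into these half-edges -/
noncomputable def mvS (S : Conf V E) (M : Finset (Dart E)) : Conf V E :=
  ⟨S.occ \ M.image G.vt, S.num + ∑ d ∈ M, δ d.1⟩

/-- one particle is moved into the half-edge `d` -/
noncomputable def LamC_mv (S : Conf V E) (d : Dart E) : Conf V E :=
  ⟨S.occ.erase (G.vt d), S.num + δ d.1⟩

/-- the particles at the vertices of the half-edges of a list are moved one after the other -/
noncomputable def LamC_mvL (S : Conf V E) : List (Dart E) → Conf V E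
  | [] => S
  | d :: l => LamC_mvL (LamC_mv G S d) l

/-- the value of the moves in the list -/
noncomputable def LamC_lcL {L : Type} [Group L] (gg : Dart E → Finset V → (E →₀ ℕ) → L)
    (S : Conf V E) : List (Dart E) → L
  | [] => 1
  | d :: l => gg d (S.occ.erase (G.vt d)) S.num * LamC_lcL gg (LamC_mv G S d) l

omit [DecidableEq E] in
theorem LamC_mvL_eq (l : List (Dart E)) : ∀ S : Conf V E, LamC_mvL G S l =
    ⟨S.occ \ (l.map G.vt).toFinset, S.num + (l.map fun d => δ d.1).sum⟩ := by
  induction l with
  | nil =>
    intro S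
    simp [LamC_mvL]
  | cons d l ih =>
    intro S
    rw [LamC_mvL, ih]
    simp only [LamC_mv, List.map_cons, List.toFinset_cons, List.sum_cons, Conf.mk.injEq]
    refine ⟨?_, by rw [add_assoc]⟩
    ext v
    simp only [Finset.mem_sdiff, Finset.mem_erase, Finset.mem_insert]
    tauto

omit [DecidableEq E] in
theorem LamC_append {L : Type} [Group L] (gg : Dart E → Finset V → (E →₀ ℕ) → L)
    (l l' : List (Dart E)) : ∀ S : Conf V E, LamC_lcL G gg S (l ++ l') =
      LamC_lcL G gg S l * LamC_lcL G gg (LamC_mvL G S l) l' := by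
  induction l with
  | nil =>
    intro S
    simp [LamC_lcL, LamC_mvL]
  | cons d l ih =>
    intro S
    rw [List.cons_append, LamC_lcL, LamC_lcL, LamC_mvL, ih, mul_assoc]

omit [DecidableEq E] in
theorem LamC_perm {L : Type} [Group L] (gg : Dart E → Finset V → (E →₀ ℕ) → L)
    (hg : GRel G gg) {l l' : List (Dart E)} (h : l.Perm l') : ∀ S : Conf V E,
      (l.map G.vt).Nodup → (∀ d ∈ l, G.vt d ∈ S.occ) →
      LamC_lcL G gg S l = LamC_lcL G gg S l' := by
  induction h with
  | nil => intro S _ _; rfl
  | cons d h ih =>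
    intro S h1 h2
    rw [LamC_lcL, LamC_lcL, ih]
    · rw [List.map_cons, List.nodup_cons] at h1
      exact h1.2
    · intro d' hd'
      rw [List.map_cons, List.nodup_cons] at h1
      simp only [LamC_mv, Finset.mem_erase]
      refine ⟨fun h3 => h1.1 ?_, h2 d' (List.mem_cons_of_mem _ hd')⟩
      rw [← h3]
      exact List.mem_map_of_mem hd'
  | swap d d' l =>
    intro S h1 h2
    rw [LamC_lcL, LamC_lcL, LamC_lcL, LamC_lcL, ← mul_assoc, ← mul_assoc]
    have hv : G.vt d ∈ S.occ := h2 d (by simp)
    have hw : G.vt d' ∈ S.occ := h2 d' (by simp)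
    have hne : G.vt d' ≠ G.vt d := by
      rw [List.map_cons, List.map_cons, List.nodup_cons] at h1
      intro h3
      exact h1.1 (by rw [h3]; simp)
    have e1 : LamC_mv G (LamC_mv G S d') d = LamC_mv G (LamC_mv G S d) d' := by
      simp only [LamC_mv, Conf.mk.injEq]
      refine ⟨?_, add_right_comm _ _ _⟩
      exact Finset.erase_right_comm
    rw [e1]
    congr 1
    have h3 := hg d' d ((S.occ.erase (G.vt d')).erase (G.vt d)) S.num hne
      (by simp) (by simp)
    have e2 : insert (G.vt d) ((S.occ.erase (G.vt d')).erase (G.vt d)) =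
        S.occ.erase (G.vt d') :=
      Finset.insert_erase (Finset.mem_erase.2 ⟨hne.symm, hv⟩)
    have e3 : insert (G.vt d') ((S.occ.erase (G.vt d')).erase (G.vt d)) =
        S.occ.erase (G.vt d) := by
      rw [Finset.erase_right_comm]
      exact Finset.insert_erase (Finset.mem_erase.2 ⟨hne, hw⟩)
    rw [e2, e3] at h3
    simp only [LamC_mv]
    rw [h3, Finset.erase_right_comm]
  | trans h h' ih ih' =>
    intro S h1 h2
    rw [ih S h1 h2]
    refine ih' S ?_ ?_
    · exact (h.map G.vt).nodup_iff.1 h1
    · exact fun d hd => h2 d (h.mem_iff.2 hd)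

theorem exists_lamC {L : Type} [Group L] (gg : Dart E → Finset V → (E →₀ ℕ) → L)
    (hg : GRel G gg) : ∃ lc : Conf V E → Finset (Dart E) → L, (∀ S, lc S ∅ = 1) ∧
      (∀ S d, G.vt d ∈ S.occ → lc S {d} = gg d (S.occ.erase (G.vt d)) S.num) ∧
      ∀ S M M', Val G S (M ∪ M') → Disjoint M M' →
        lc S (M ∪ M') = lc S M * lc (mvS G S M) M' := by
  classical
  refine ⟨fun S M => LamC_lcL G gg S M.toList, fun S => ?_, fun S d _ => ?_,
    fun S M M' hV hd => ?_⟩
  · simp only [Finset.toList_empty]
    rfl
  · simp only [Finset.toList_singleton, LamC_lcL, mul_one]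
  · simp only
    have hp : (M ∪ M').toList.Perm (M.toList ++ M'.toList) := by
      refine (List.perm_ext_iff_of_nodup (Finset.nodup_toList _) ?_).2 ?_
      · refine List.Nodup.append (Finset.nodup_toList _) (Finset.nodup_toList _) ?_
        intro x hx hx'
        rw [Finset.mem_toList] at hx hx'
        exact (Finset.disjoint_left.1 hd) hx hx'
      · intro x
        simp
    have e : LamC_mvL G S M.toList = mvS G S M := by
      rw [LamC_mvL_eq, mvS, Conf.mk.injEq]
      refine ⟨?_, ?_⟩
      · congr 1
        ext v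
        simp
      · rw [Finset.sum_map_toList]
    rw [LamC_perm G gg hg hp S ?_ ?_, LamC_append, e]
    · refine List.Nodup.map_on ?_ (Finset.nodup_toList _)
      intro x hx y hy hxy
      rw [Finset.mem_toList] at hx hy
      exact hV.2 x hx y hy hxy
    · intro d hd'
      rw [Finset.mem_toList] at hd'
      exact hV.1 d hd'

end TP

end GB
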