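import Pool.Agent.Helper95.GB.TP.LDefs

/-! # GB/TP/Lin1: compatible ordered configurations (stub, prove in place)

* `Cmp.refl`, `symm`, `trans`, `perm`: clear (`ord` for equal labels; for two different points with the same label (an edge) the
coordinates are different; `lab p = lab p'` and `co p = co p'` imply `p = p'`).
* `Cmp.unique`: `Cmp x (x ∘ τ)` implies `τ = 1`: `τ` preserves the labels, and on the finite set of the `i` with a given edge label it preserves the
order of the coordinates, so it is the identity there (an order preserving permutation of a finite linear order is the identity); for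
vertex labels `x i = x (τ i)`.
* `exists_cmp`: for each label the numbers of the `i` with this label in `x` and `x'` agree (`mem_occ` and injectivity for vertices; the value of `num` at `e` for
edges).  Order each class by the coordinate and match.  E.g. choose linear orders on `V ⊕ E` (`linearOrderOfSTO`/well-order), sort `x` and `x'` by
the key `(lab, co)` in the lexicographic order (`Tuple.sort`); the sorted label sequences are monotone with the same multiset, hence equal.
* `seg_*`: for `Cmp x x'`: `seg (x i) (x' i) t` is `x i` for a vertex, and `ep e (cc u u' t)` with `0 < u, u' < 1` for an edge, `0 < cc u u' t < 1`.  Injective in `i`: labels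
are preserved; for two indices on one edge the strict order is preserved by convex combinations.  `cc u u' 0 = u`, `cc u u' 1 = u'`.
`Continuous (seg p p')` as a function of `t` (cases).
-/

set_option autoImplicit false

namespace GB

open unitInterval Topology

namespace TP

variable {V E : Type} [DecidableEq V] (G : Gr V E) {n : ℕ}

theorem lab_vp (v : V) : lab G (vp G v) = .inl v := rfl

theorem lab_ep (e : E) (x : I) (h0 : 0 < x) (h1 : x < 1) : lab G (ep G e x) = .inr e := by
  unfold lab
  rw [nf_ep G e x h0 h1]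

omit [DecidableEq V] in
private theorem l1_co_vp (v : V) : co G (vp G v) = 0 := rfl

omit [DecidableEq V] in
private theorem l1_co_ep (e : E) (x : I) (h0 : 0 < x) (h1 : x < 1) : co G (ep G e x) = x := by
  unfold co
  rw [nf_ep G e x h0 h1]

theorem lab_eq_inl {p : Geo G} {v : V} : lab G p = .inl v ↔ p = vp G v := by
  constructor
  · intro h
    rcases pt_cases G p with ⟨w, rfl⟩ | ⟨e, u, h0, h1, rfl⟩
    · rw [lab_vp] at h
      rw [Sum.inl_injective h]
    · rw [lab_ep G e u h0 h1] at h
      exact absurd h (by simp)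
  · rintro rfl
    rfl

theorem lab_eq_inr {p : Geo G} {e : E} :
    lab G p = .inr e ↔ ∃ u, 0 < u ∧ u < 1 ∧ p = ep G e u := by
  constructor
  · intro h
    rcases pt_cases G p with ⟨w, rfl⟩ | ⟨e', u, h0, h1, rfl⟩
    · rw [lab_vp] at h
      exact absurd h (by simp)
    · rw [lab_ep G e' u h0 h1] at h
      rw [Sum.inr_injective h]
      exact ⟨u, h0, h1, rfl⟩
  · rintro ⟨u, h0, h1, rfl⟩
    exact lab_ep G e u h0 h1

theorem lab_co {p p' : Geo G} (h : lab G p = lab G p') (h' : co G p = co G p') : p = p' := by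
  rcases pt_cases G p with ⟨w, rfl⟩ | ⟨e, u, h0, h1, rfl⟩
  · exact ((lab_eq_inl G).1 (h.symm.trans (lab_vp G w))).symm
  · obtain ⟨u', h0', h1', rfl⟩ := (lab_eq_inr G).1 (h.symm.trans (lab_ep G e u h0 h1))
    rw [l1_co_ep G e u h0 h1, l1_co_ep G e u' h0' h1'] at h'
    rw [h']

omit [DecidableEq V] in
private theorem l1_seg_vp (v : V) (p' : Geo G) (t : I) : seg G (vp G v) p' t = vp G v := by
  unfold seg
  rw [nf_vp]

omit [DecidableEq V] in
private theorem l1_seg_ep_vp (e : E) (u : I) (h0 : 0 < u) (h1 : u < 1) (v : V) (t : I) :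
    seg G (ep G e u) (vp G v) t = ep G e u := by
  unfold seg
  rw [nf_ep G e u h0 h1, nf_vp]

omit [DecidableEq V] in
private theorem l1_seg_ep_ep (e e' : E) (u u' : I) (h0 : 0 < u) (h1 : u < 1) (h0' : 0 < u')
    (h1' : u' < 1) (t : I) : seg G (ep G e u) (ep G e' u') t = ep G e (cc u u' t) := by
  unfold seg
  rw [nf_ep G e u h0 h1, nf_ep G e' u' h0' h1']

private theorem l1_cc_val (u u' t : I) : ((cc u u' t : I) : ℝ) = (1 - t) * u + t * u' := rfl

private theorem l1_cc_lt {a b a' b' t : I} (h : a < b) (h' : a' < b') : cc a a' t < cc b b' t := by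
  rw [← Subtype.coe_lt_coe, l1_cc_val, l1_cc_val]
  have h1 : (a : ℝ) < b := h
  have h2 : (a' : ℝ) < b' := h'
  have h3 : (0 : ℝ) ≤ t := t.2.1
  have h4 : (t : ℝ) ≤ 1 := t.2.2
  rcases h3.eq_or_lt with h5 | h5
  · rw [← h5]
    linarith
  · have h6 : (t : ℝ) * a' < t * b' := mul_lt_mul_of_pos_left h2 h5
    have h7 : (1 - (t : ℝ)) * a ≤ (1 - t) * b := mul_le_mul_of_nonneg_left h1.le (by linarith)
    linarith

private theorem l1_cc_zero (u u' : I) : cc u u' 0 = u := by
  apply Subtype.ext
  rw [l1_cc_val]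
  simp

private theorem l1_cc_one (u u' : I) : cc u u' 1 = u' := by
  apply Subtype.ext
  rw [l1_cc_val]
  simp

private theorem l1_cc_same (u t : I) : cc u u t = u := by
  apply Subtype.ext
  rw [l1_cc_val]
  ring

private theorem l1_cc_pos {u u' t : I} (h : 0 < u) (h' : 0 < u') : 0 < cc u u' t := by
  have h1 := l1_cc_lt (t := t) h h'
  rwa [l1_cc_same] at h1

private theorem l1_cc_lt_one {u u' t : I} (h : u < 1) (h' : u' < 1) : cc u u' t < 1 := by
  have h1 := l1_cc_lt (t := t) h h'
  rwa [l1_cc_same] at h1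

private theorem l1_cc_cont (u u' : I) : Continuous (cc u u') := by
  refine Continuous.subtype_mk ?_ _
  fun_prop

private theorem l1_seg_lab {p p' : Geo G} (h : lab G p = lab G p') (t : I) :
    lab G (seg G p p' t) = lab G p := by
  rcases pt_cases G p with ⟨w, rfl⟩ | ⟨e, u, h0, h1, rfl⟩
  · rw [l1_seg_vp]
  · obtain ⟨u', h0', h1', rfl⟩ := (lab_eq_inr G).1 (h.symm.trans (lab_ep G e u h0 h1))
    rw [l1_seg_ep_ep G e e u u' h0 h1 h0' h1', lab_ep G e u h0 h1,
      lab_ep G e _ (l1_cc_pos h0 h0') (l1_cc_lt_one h1 h1')]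

private theorem l1_seg_co {p p' : Geo G} (h : lab G p = lab G p') (t : I) :
    co G (seg G p p' t) = cc (co G p) (co G p') t := by
  rcases pt_cases G p with ⟨w, rfl⟩ | ⟨e, u, h0, h1, rfl⟩
  · have h2 := (lab_eq_inl G).1 (h.symm.trans (lab_vp G w))
    rw [h2, l1_seg_vp, l1_co_vp, l1_cc_same]
  · obtain ⟨u', h0', h1', rfl⟩ := (lab_eq_inr G).1 (h.symm.trans (lab_ep G e u h0 h1))
    rw [l1_seg_ep_ep G e e u u' h0 h1 h0' h1', l1_co_ep G e u h0 h1, l1_co_ep G e u' h0' h1',
      l1_co_ep G e _ (l1_cc_pos h0 h0') (l1_cc_lt_one h1 h1')]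

variable {G}

theorem Cmp.refl {x : Fin n → Geo G} (hx : Function.Injective x) : Cmp G x x :=
  ⟨hx, hx, fun _ => rfl, fun _ _ _ => Iff.rfl⟩

theorem Cmp.symm {x x' : Fin n → Geo G} (h : Cmp G x x') : Cmp G x' x := by
  refine ⟨h.inj', h.inj, fun i => (h.lab i).symm, fun i j hij => ?_⟩
  exact (h.ord i j (by rw [h.lab i, h.lab j, hij])).symm

theorem Cmp.trans {x x' x'' : Fin n → Geo G} (h : Cmp G x x') (h' : Cmp G x' x'') :
    Cmp G x x'' := by
  refine ⟨h.inj, h'.inj', fun i => (h.lab i).trans (h'.lab i), fun i j hij => ?_⟩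
  exact (h.ord i j hij).trans (h'.ord i j (by rw [← h.lab i, ← h.lab j, hij]))

theorem Cmp.perm {x x' : Fin n → Geo G} (h : Cmp G x x') (τ : Equiv.Perm (Fin n)) :
    Cmp G (x ∘ τ) (x' ∘ τ) :=
  ⟨h.inj.comp τ.injective, h.inj'.comp τ.injective, fun i => h.lab (τ i),
    fun i j hij => h.ord (τ i) (τ j) hij⟩

theorem Cmp.unique {x : Fin n → Geo G} {τ : Equiv.Perm (Fin n)} (h : Cmp G x (x ∘ τ)) :
    τ = 1 := by
  have hl1 : ∀ i, TP.lab G (x (τ i)) = TP.lab G (x i) := fun i => (h.lab i).symm
  have hlab : ∀ (k : ℕ) (i : Fin n), TP.lab G (x ((τ ^ k) i)) = TP.lab G (x i) := by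
    intro k i
    induction k with
    | zero => rfl
    | succ k ih =>
      rw [pow_succ', Equiv.Perm.mul_apply, hl1]
      exact ih
  have hstep : ∀ i j, TP.lab G (x i) = TP.lab G (x j) →
      (co G (x i) < co G (x j) ↔ co G (x (τ i)) < co G (x (τ j))) := h.ord
  have hord : (τ ^ orderOf τ) = 1 := pow_orderOf_eq_one τ
  refine Equiv.ext fun i => ?_
  rw [Equiv.Perm.one_apply]
  by_contra hne
  have hne' : co G (x (τ i)) ≠ co G (x i) := fun hc => hne (h.inj (lab_co G (hl1 i) hc))
  rcases lt_or_gt_of_ne hne' with hlt | hgt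
  · have h1 : ∀ k : ℕ, co G (x ((τ ^ (k + 1)) i)) < co G (x ((τ ^ k) i)) := by
      intro k
      induction k with
      | zero => simpa using hlt
      | succ k ih =>
        have h2 := (hstep _ _ (by rw [hlab, hlab])).1 ih
        rw [pow_succ' τ (k + 1), Equiv.Perm.mul_apply]
        rw [← Equiv.Perm.mul_apply τ (τ ^ k) i, ← pow_succ'] at h2
        exact h2
    have h3 : StrictAnti (fun k : ℕ => co G (x ((τ ^ k) i))) := strictAnti_nat_of_succ_lt h1
    have h4 := h3 (orderOf_pos τ)
    simp only [hord, pow_zero] at h4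
    exact lt_irrefl _ h4
  · have h1 : ∀ k : ℕ, co G (x ((τ ^ k) i)) < co G (x ((τ ^ (k + 1)) i)) := by
      intro k
      induction k with
      | zero => simpa using hgt
      | succ k ih =>
        have h2 := (hstep _ _ (by rw [hlab, hlab])).1 ih
        rw [pow_succ' τ (k + 1), Equiv.Perm.mul_apply]
        rw [← Equiv.Perm.mul_apply τ (τ ^ k) i, ← pow_succ'] at h2
        exact h2
    have h3 : StrictMono (fun k : ℕ => co G (x ((τ ^ k) i))) := strictMono_nat_of_lt_succ h1
    have h4 := h3 (orderOf_pos τ)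
    simp only [hord, pow_zero] at h4
    exact lt_irrefl _ h4

private theorem l1_nm (p : Geo G) (e : E) [Decidable (TP.lab G p = .inr e)] :
    nm G p e = if TP.lab G p = .inr e then 1 else 0 := by
  classical
  rcases pt_cases G p with ⟨w, rfl⟩ | ⟨e', u, h0, h1, rfl⟩
  · have h2 : nm G (vp G w) = 0 := by
      unfold nm
      rw [nf_vp]
    rw [h2, if_neg (by rw [lab_vp]; simp)]
    rfl
  · have h2 : nm G (ep G e' u) = δ e' := by
      unfold nm
      rw [nf_ep G e' u h0 h1]
    rw [h2]
    by_cases h3 : e' = e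
    · subst h3
      rw [if_pos (lab_ep G e' u h0 h1)]
      exact Finsupp.single_eq_same
    · rw [if_neg (fun h4 => h3 (Sum.inr_injective ((lab_ep G e' u h0 h1).symm.trans h4)))]
      exact Finsupp.single_eq_of_ne (fun h4 => h3 h4.symm)

theorem exists_cmp {x x' : Fin n → Geo G} (hx : Function.Injective x)
    (hx' : Function.Injective x') (h : tpO G x = tpO G x') :
    ∃ τ : Equiv.Perm (Fin n), Cmp G x (x' ∘ τ) := by
  classical
  let _ : LinearOrder (V ⊕ E) := linearOrderOfSTO WellOrderingRel
  let key : Geo G → (V ⊕ E) ×ₗ I := fun p => toLex (TP.lab G p, co G p)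
  have hkey : Function.Injective key := by
    intro p p' hp
    have h1 : (TP.lab G p, co G p) = (TP.lab G p', co G p') := congrArg ofLex hp
    exact lab_co G (congrArg Prod.fst h1) (congrArg Prod.snd h1)
  have hcnt : ∀ y y' : Fin n → Geo G, Function.Injective y → Function.Injective y' →
      tpO G y = tpO G y' → ∀ l : V ⊕ E,
      (Finset.univ.filter (fun i => TP.lab G (y i) = l)).card =
        (Finset.univ.filter (fun i => TP.lab G (y' i) = l)).card := by
    intro y y' hy hy' hyy l
    rcases l with v | e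
    · have h1 : ∀ z : Fin n → Geo G, Function.Injective z →
          (Finset.univ.filter (fun i => TP.lab G (z i) = .inl v)).card =
            if v ∈ (tpO G z).occ then 1 else 0 := by
        intro z hz
        split_ifs with h2
        · obtain ⟨i, hi⟩ := (mem_occ G z v).1 h2
          rw [Finset.card_eq_one]
          refine ⟨i, ?_⟩
          ext j
          rw [Finset.mem_filter, Finset.mem_singleton, lab_eq_inl]
          constructor
          · rintro ⟨-, hj⟩
            exact hz (hj.trans hi.symm)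
          · rintro rfl
            exact ⟨Finset.mem_univ _, hi⟩
        · rw [Finset.card_eq_zero, Finset.filter_eq_empty_iff]
          intro i _ hi
          exact h2 ((mem_occ G z v).2 ⟨i, (lab_eq_inl G).1 hi⟩)
      rw [h1 y hy, h1 y' hy', hyy]
    · have h1 : ∀ z : Fin n → Geo G,
          (Finset.univ.filter (fun i => TP.lab G (z i) = .inr e)).card = (tpO G z).num e := by
        intro z
        have h2 : (tpO G z).num e = ∑ i, nm G (z i) e := by
          change (∑ i, nm G (z i)) e = _
          rw [Finsupp.finsetSum_apply]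
        rw [h2, Finset.card_filter]
        exact Finset.sum_congr rfl fun i _ => (l1_nm _ _).symm
      rw [h1 y, h1 y', hyy]
  have hc : ∀ (f : Fin n → V ⊕ E) (l : V ⊕ E),
      Multiset.count l (↑(List.ofFn f) : Multiset (V ⊕ E)) =
        (Finset.univ.filter fun i => f i = l).card := by
    intro f l
    rw [← Fin.univ_val_map, Multiset.count_map]
    simp only [eq_comm (a := l)]
    rfl
  set ρ := Tuple.sort (key ∘ x) with hρ
  set ρ' := Tuple.sort (key ∘ x') with hρ'
  set y := x ∘ ρ with hy
  set y' := x' ∘ ρ' with hy'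
  have hyi : Function.Injective y := hx.comp ρ.injective
  have hyi' : Function.Injective y' := hx'.comp ρ'.injective
  have hty : tpO G y = tpO G y' := by rw [hy, hy', tpO_perm, tpO_perm, h]
  have hm : Monotone (key ∘ y) := Tuple.monotone_sort (key ∘ x)
  have hm' : Monotone (key ∘ y') := Tuple.monotone_sort (key ∘ x')
  have hsm : StrictMono (key ∘ y) := hm.strictMono_of_injective (hkey.comp hyi)
  have hsm' : StrictMono (key ∘ y') := hm'.strictMono_of_injective (hkey.comp hyi')
  have hlm : ∀ z : Fin n → Geo G, Monotone (key ∘ z) → Monotone (fun i => TP.lab G (z i)) := by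
    intro z hz i j hij
    have h1 := hz hij
    rw [Function.comp_apply, Function.comp_apply, Prod.Lex.le_iff] at h1
    rcases h1 with h1 | h1
    · exact h1.le
    · exact h1.1.le
  have hperm : (List.ofFn fun i => TP.lab G (y i)).Perm (List.ofFn fun i => TP.lab G (y' i)) := by
    rw [← Multiset.coe_eq_coe]
    ext l
    rw [hc, hc]
    exact hcnt y y' hyi hyi' hty l
  have hlab : ∀ i, TP.lab G (y i) = TP.lab G (y' i) := by
    have h1 := List.Perm.eq_of_sortedLE (hlm y hm).sortedLE_ofFn (hlm y' hm').sortedLE_ofFn hperm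
    exact fun i => congrFun (List.ofFn_injective h1) i
  have hco : ∀ z : Fin n → Geo G, StrictMono (key ∘ z) → ∀ i j,
      TP.lab G (z i) = TP.lab G (z j) → (co G (z i) < co G (z j) ↔ i < j) := by
    intro z hz i j hij
    rw [← hz.lt_iff_lt, Function.comp_apply, Function.comp_apply, Prod.Lex.lt_iff]
    constructor
    · intro h1
      exact Or.inr ⟨hij, h1⟩
    · rintro (h1 | h1)
      · exact absurd hij h1.ne
      · exact h1.2
  have hC : Cmp G y y' := by
    refine ⟨hyi, hyi', hlab, fun i j hij => ?_⟩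
    rw [hco y hsm i j hij, hco y' hsm' i j (by rw [← hlab, ← hlab, hij])]
  have hC' := hC.perm ρ⁻¹
  refine ⟨ρ' * ρ⁻¹, ?_⟩
  have e1 : y ∘ (ρ⁻¹ : Equiv.Perm (Fin n)) = x := by
    funext i
    exact congrArg x (ρ.apply_symm_apply i)
  have e2 : y' ∘ (ρ⁻¹ : Equiv.Perm (Fin n)) = x' ∘ (ρ' * ρ⁻¹ : Equiv.Perm (Fin n)) := rfl
  rw [e1, e2] at hC'
  exact hC'

theorem Cmp.seg {x x' : Fin n → Geo G} (h : Cmp G x x') (t : I) :
    Cmp G x (fun i => seg G (x i) (x' i) t) := by
  have hlab : ∀ i, TP.lab G (TP.seg G (x i) (x' i) t) = TP.lab G (x i) :=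
    fun i => l1_seg_lab G (h.lab i) t
  have hco : ∀ i, co G (TP.seg G (x i) (x' i) t) = cc (co G (x i)) (co G (x' i)) t :=
    fun i => l1_seg_co G (h.lab i) t
  have hlt : ∀ i j, TP.lab G (x i) = TP.lab G (x j) → co G (x i) < co G (x j) →
      co G (TP.seg G (x i) (x' i) t) < co G (TP.seg G (x j) (x' j) t) := by
    intro i j hij h1
    rw [hco, hco]
    exact l1_cc_lt h1 ((h.ord i j hij).1 h1)
  refine ⟨h.inj, fun i j hij => ?_, fun i => (hlab i).symm, fun i j hij => ⟨hlt i j hij, ?_⟩⟩
  · have hij' : TP.seg G (x i) (x' i) t = TP.seg G (x j) (x' j) t := hij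
    have h1 : TP.lab G (x i) = TP.lab G (x j) := by rw [← hlab i, hij', hlab j]
    rcases lt_trichotomy (co G (x i)) (co G (x j)) with h2 | h2 | h2
    · have h3 := hlt i j h1 h2
      rw [hij'] at h3
      exact absurd h3 (lt_irrefl _)
    · exact h.inj (lab_co G h1 h2)
    · have h3 := hlt j i h1.symm h2
      rw [hij'] at h3
      exact absurd h3 (lt_irrefl _)
  · intro h4
    rcases lt_trichotomy (co G (x i)) (co G (x j)) with h2 | h2 | h2
    · exact h2
    · have h5 : i = j := h.inj (lab_co G hij h2)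
      rw [h5] at h4
      exact absurd h4 (lt_irrefl _)
    · exact absurd h4 (hlt j i hij.symm h2).asymm

theorem Cmp.tp {x x' : Fin n → Geo G} (h : Cmp G x x') : tpO G x = tpO G x' := by
  classical
  apply Conf.ext
  · ext v
    rw [mem_occ, mem_occ]
    constructor
    · rintro ⟨i, hi⟩
      exact ⟨i, (lab_eq_inl G).1 ((h.lab i).symm.trans ((lab_eq_inl G).2 hi))⟩
    · rintro ⟨i, hi⟩
      exact ⟨i, (lab_eq_inl G).1 ((h.lab i).trans ((lab_eq_inl G).2 hi))⟩
  · change ∑ i, nm G (x i) = ∑ i, nm G (x' i)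
    refine Finset.sum_congr rfl fun i _ => ?_
    ext e
    rw [l1_nm, l1_nm, h.lab i]

theorem seg_zero {p p' : Geo G} : seg G p p' 0 = p := by
  rcases pt_cases G p with ⟨w, rfl⟩ | ⟨e, u, h0, h1, rfl⟩
  · exact l1_seg_vp G w p' 0
  · rcases pt_cases G p' with ⟨w, rfl⟩ | ⟨e', u', h0', h1', rfl⟩
    · exact l1_seg_ep_vp G e u h0 h1 w 0
    · rw [l1_seg_ep_ep G e e' u u' h0 h1 h0' h1', l1_cc_zero]

theorem seg_one {p p' : Geo G} (h : lab G p = lab G p') : seg G p p' 1 = p' := by
  rcases pt_cases G p with ⟨w, rfl⟩ | ⟨e, u, h0, h1, rfl⟩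
  · rw [(lab_eq_inl G).1 (h.symm.trans (lab_vp G w))]
    exact l1_seg_vp G w _ 1
  · obtain ⟨u', h0', h1', rfl⟩ := (lab_eq_inr G).1 (h.symm.trans (lab_ep G e u h0 h1))
    rw [l1_seg_ep_ep G e e u u' h0 h1 h0' h1', l1_cc_one]

theorem continuous_seg (p p' : Geo G) : Continuous (seg G p p') := by
  rcases pt_cases G p with ⟨w, rfl⟩ | ⟨e, u, h0, h1, rfl⟩
  · have h2 : seg G (vp G w) p' = fun _ => vp G w := funext fun t => l1_seg_vp G w p' t
    rw [h2]
    exact continuous_const
  · rcases pt_cases G p' with ⟨w, rfl⟩ | ⟨e', u', h0', h1', rfl⟩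
    · have h2 : seg G (ep G e u) (vp G w) = fun _ => ep G e u :=
        funext fun t => l1_seg_ep_vp G e u h0 h1 w t
      rw [h2]
      exact continuous_const
    · have h2 : seg G (ep G e u) (ep G e' u') = fun t => ep G e (cc u u' t) :=
        funext fun t => l1_seg_ep_ep G e e' u u' h0 h1 h0' h1' t
      rw [h2]
      exact (continuous_ep G e).comp (l1_cc_cont u u')

end TP

end GB
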