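import Pool.Agent.Helper95.GB.TP.Lin1
import Pool.Agent.Helper95.GB.TP.Ind

/-! # GB/TP/Lin2: linear classes (stub, prove in place)

* `exists_lin`: `s = uc x`, `s' = uc x'`, `exists_cmp` gives `τ` with `Cmp x (x' ∘ τ)`, `s' = uc (x' ∘ τ)` (`uc_eq`); the path
`t ↦ uc (fun i => seg (x i) (x' (τ i)) t)` (`Cmp.seg`, `continuous_uc`, `continuous_seg`, `seg_zero`, `seg_one`).
* `IsLin.unique`: let `(x, x', γ)`, `(y, y', γ')` be as in `IsLin` for `q`, `q'` with the same ends.  At `t = 0`, `1`: `uc x = s = uc y`, `uc x' = s' = uc y'`, so `y = x ∘ τ`,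
`y' = x' ∘ τ'` (`uc_eq`).  `Cmp (x ∘ τ) (x' ∘ τ)` and `Cmp (x ∘ τ) (x' ∘ τ')` give `Cmp (x' ∘ τ) (x' ∘ τ')`, so `τ' = τ` (`Cmp.unique` for `x' ∘ τ` and the
permutation `τ⁻¹ τ'`).  So `γ t = γ' t` for all `t` (`uc` is invariant under permutation), `q = q'`.
* `IsLin.refl`: `seg p p t = p`.
* `IsLin.trans`: as above we may assume that `q` is given by `(x, x')` and `q'` by `(x', x'')` (permute the second pair).  Let `x` be given on the indices with
edge labels by coordinates.  Consider the convex set `Ω` of all `c : Fin n → ℝ` with `0 < c i < 1` for the edge indices, `c i = 0` for the vertex indices and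
`c i < c j` whenever `i`, `j` are on the same edge and `co (x i) < co (x j)`; the map `Θ : Ω → UConf`, `c ↦ uc (i ↦ x i` for a vertex, `ep e (c i)` for an edge`)` is
continuous; the three linear paths `x → x'`, `x' → x''`, `x → x''` are images under `Θ` of straight paths in the convex set `Ω`, which is simply connected
(`Convex.contractibleSpace`), so the composition of the first two is homotopic to the third.  So `q.trans q'` is the class of the linear path for `(x, x'')`.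
(Instead of `Ω` one can use `square` for `F (t, u) = uc (i ↦ seg (x i) (seg (x' i) (x'' i) u) t)`: `F (t, 0)` is the path `x → x'`, `F (1, u)` is `x' → x''`,
`F (0, u)` is constant and `F (t, 1)` is `x → x''`; `F` is continuous in both variables.)
* `IsLin.symm`: from `IsLin.trans`, `unique` and `exists_lin` (`q.trans q' = refl` by uniqueness), or directly.
* `IsLin.tp`: the types agree.
-/

set_option autoImplicit false

namespace GB

open unitInterval Topology

namespace TP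

variable {V E : Type} [DecidableEq V] {G : Gr V E} {n : ℕ}

theorem uc_cong {X : Type} {x y : Fin n → X} (h : x = y) (hx : Function.Injective x)
    (hy : Function.Injective y) : uc x hx = uc y hy := by
  subst h
  rfl

theorem cc_pos {a b t : I} (ha : 0 < a) (hb : 0 < b) : 0 < cc a b t := by
  have h1 : (0 : ℝ) < a := ha
  have h2 : (0 : ℝ) < b := hb
  have h3 : (0 : ℝ) ≤ t := t.2.1
  have h4 : (t : ℝ) ≤ 1 := t.2.2
  change (0 : ℝ) < (1 - t) * a + t * b
  rcases eq_or_lt_of_le h3 with h5 | h5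
  · rw [← h5]; linarith
  · have := mul_pos h5 h2
    have := mul_nonneg (sub_nonneg.2 h4) h1.le
    linarith

theorem cc_lt_one {a b t : I} (ha : a < 1) (hb : b < 1) : cc a b t < 1 := by
  have h1 : (a : ℝ) < 1 := ha
  have h2 : (b : ℝ) < 1 := hb
  have h3 : (0 : ℝ) ≤ t := t.2.1
  have h4 : (t : ℝ) ≤ 1 := t.2.2
  change (1 - t) * a + t * b < (1 : ℝ)
  rcases eq_or_lt_of_le h3 with h5 | h5
  · rw [← h5]; linarith
  · have := mul_pos h5 (sub_pos.2 h2)
    have := mul_nonneg (sub_nonneg.2 h4) (sub_nonneg.2 h1.le)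
    linarith

theorem cc_self (a t : I) : cc a a t = a := by
  apply Subtype.ext
  change (1 - (t : ℝ)) * a + t * a = a
  ring

theorem cc_symm (a b t : I) : cc a b (σ t) = cc b a t := by
  apply Subtype.ext
  change (1 - ((σ t : I) : ℝ)) * a + (σ t : I) * b = (1 - (t : ℝ)) * b + t * a
  rw [unitInterval.coe_symm_eq]
  ring

omit [DecidableEq V] in
theorem seg_vp (v : V) (p' : Geo G) (t : I) : seg G (vp G v) p' t = vp G v := by
  unfold seg
  rw [nf_vp]

omit [DecidableEq V] in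
theorem seg_ep (e e' : E) {u u' : I} (h0 : 0 < u) (h1 : u < 1) (h0' : 0 < u') (h1' : u' < 1)
    (t : I) : seg G (ep G e u) (ep G e' u') t = ep G e (cc u u' t) := by
  unfold seg
  rw [nf_ep G e u h0 h1, nf_ep G e' u' h0' h1']

/-- the two cases for points with the same label -/
theorem two_cases {p p' : Geo G} (h : lab G p = lab G p') :
    (∃ v, p = vp G v ∧ p' = vp G v) ∨
      ∃ e u u', 0 < u ∧ u < 1 ∧ 0 < u' ∧ u' < 1 ∧ p = ep G e u ∧ p' = ep G e u' := by
  rcases pt_cases G p with ⟨v, hv⟩ | ⟨e, u, h0, h1, hp⟩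
  · left
    refine ⟨v, hv, ?_⟩
    rw [hv, lab_vp] at h
    exact (lab_eq_inl G).1 h.symm
  · right
    rw [hp, lab_ep G e u h0 h1] at h
    obtain ⟨u', h0', h1', hp'⟩ := (lab_eq_inr G).1 h.symm
    exact ⟨e, u, u', h0, h1, h0', h1', hp, hp'⟩

theorem seg_self (p : Geo G) (t : I) : seg G p p t = p := by
  rcases pt_cases G p with ⟨v, hv⟩ | ⟨e, u, h0, h1, hp⟩
  · rw [hv, seg_vp]
  · rw [hp, seg_ep e e h0 h1 h0 h1, cc_self]

theorem seg_symm {p p' : Geo G} (h : lab G p = lab G p') (t : I) :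
    seg G p p' (σ t) = seg G p' p t := by
  rcases two_cases h with ⟨v, hv, hv'⟩ | ⟨e, u, u', h0, h1, h0', h1', hp, hp'⟩
  · rw [hv, hv', seg_vp, seg_vp]
  · rw [hp, hp', seg_ep e e h0 h1 h0' h1', seg_ep e e h0' h1' h0 h1, cc_symm]

theorem continuous_seg2 {p p' p'' : Geo G} (h : lab G p = lab G p') (h' : lab G p' = lab G p'') :
    Continuous (fun a : I × I => seg G p (seg G p' p'' a.2) a.1) := by
  rcases two_cases h with ⟨v, hv, hv'⟩ | ⟨e, u, u', h0, h1, h0', h1', hp, hp'⟩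
  · rw [hv]
    have h2 : (fun a : I × I => seg G (vp G v) (seg G p' p'' a.2) a.1) = fun _ => vp G v := by
      funext a
      exact seg_vp v _ _
    rw [h2]
    exact continuous_const
  · rw [hp', lab_ep G e u' h0' h1'] at h'
    obtain ⟨u'', h0'', h1'', hp''⟩ := (lab_eq_inr G).1 h'.symm
    have h2 : (fun a : I × I => seg G p (seg G p' p'' a.2) a.1) =
        fun a => ep G e (cc u (cc u' u'' a.2) a.1) := by
      funext a
      rw [hp, hp', hp'', seg_ep e e h0' h1' h0'' h1'',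
        seg_ep e e h0 h1 (cc_pos h0' h0'') (cc_lt_one h1' h1'')]
    rw [h2]
    apply (continuous_ep G e).comp
    apply Continuous.subtype_mk
    change Continuous (fun a : I × I => (1 - (a.1 : ℝ)) * u +
      a.1 * ((1 - (a.2 : ℝ)) * u' + a.2 * u''))
    fun_prop

theorem lin_ends {x x' : Fin n → Geo G} (h : Cmp G x x') {s s' : UConf n (Geo G)}
    (γ : Path s s') (hγ : ∀ t, ∃ h, γ t = uc (fun i => seg G (x i) (x' i) t) h) :
    s = uc x h.inj ∧ s' = uc x' h.inj' := by
  constructor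
  · obtain ⟨h1, h2⟩ := hγ 0
    rw [γ.source] at h2
    rw [h2]
    exact uc_cong (funext fun i => seg_zero) _ _
  · obtain ⟨h1, h2⟩ := hγ 1
    rw [γ.target] at h2
    rw [h2]
    exact uc_cong (funext fun i => seg_one (h.lab i)) _ _

theorem uc_perm {X : Type} {x : Fin n → X} (hx : Function.Injective x)
    (τ : Equiv.Perm (Fin n)) (hx' : Function.Injective (x ∘ τ)) :
    uc (x ∘ τ) hx' = uc x hx := ((uc_eq hx hx').2 ⟨τ, rfl⟩).symm

/-- a linear path with given ordered end points -/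
theorem isLin_of' {x x' : Fin n → Geo G} (h : Cmp G x x') (γ : Path (uc x h.inj) (uc x' h.inj'))
    (hγ : ∀ t, γ t = uc (fun i => seg G (x i) (x' i) t) (h.seg t).inj') :
    IsLin G (Path.Homotopic.Quotient.mk γ) :=
  ⟨x, x', γ, h, fun t => ⟨_, hγ t⟩, rfl⟩

theorem exists_linPath' {x x' : Fin n → Geo G} (h : Cmp G x x') :
    ∃ γ : Path (uc x h.inj) (uc x' h.inj'),
      ∀ t, γ t = uc (fun i => seg G (x i) (x' i) t) (h.seg t).inj' := by
  refine ⟨⟨⟨fun t => uc (fun i => seg G (x i) (x' i) t) (h.seg t).inj', ?_⟩, ?_, ?_⟩,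
    fun t => rfl⟩
  · exact continuous_uc (fun t i => seg G (x i) (x' i) t) (fun i => continuous_seg _ _) _
  · exact uc_cong (funext fun i => seg_zero) _ _
  · exact uc_cong (funext fun i => seg_one (h.lab i)) _ _

theorem exists_lin {s s' : UConf n (Geo G)} (h : tp G s = tp G s') :
    ∃ q : Path.Homotopic.Quotient s s', IsLin G q := by
  obtain ⟨x, hx, rfl⟩ := uc_surj s
  obtain ⟨x', hx', rfl⟩ := uc_surj s'
  obtain ⟨τ, hτ⟩ := exists_cmp hx hx' h
  have h1 : uc x' hx' = uc (x' ∘ τ) hτ.inj' := (uc_perm hx' τ hτ.inj').symm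
  obtain ⟨γ, hγ⟩ := exists_linPath' hτ
  rw [h1]
  exact ⟨_, isLin_of' hτ γ hγ⟩

theorem IsLin.unique {s s' : UConf n (Geo G)} {q q' : Path.Homotopic.Quotient s s'}
    (h : IsLin G q) (h' : IsLin G q') : q = q' := by
  obtain ⟨x, x', γ, hc, hγ, rfl⟩ := h
  obtain ⟨y, y', γ', hc', hγ', rfl⟩ := h'
  obtain ⟨h1, h2⟩ := lin_ends hc γ hγ
  obtain ⟨h3, h4⟩ := lin_ends hc' γ' hγ'
  obtain ⟨τ, rfl⟩ := (uc_eq hc.inj hc'.inj).1 (h1.symm.trans h3)
  obtain ⟨τ', rfl⟩ := (uc_eq hc.inj' hc'.inj').1 (h2.symm.trans h4)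
  have h5 : Cmp G (x' ∘ τ) (x' ∘ τ') := (hc.perm τ).symm.trans hc'
  have h6 : x' ∘ τ' = (x' ∘ τ) ∘ (τ⁻¹ * τ' : Equiv.Perm (Fin n)) := by
    funext i
    simp
  rw [h6] at h5
  have h7 : τ' = τ := (inv_mul_eq_one.1 h5.unique).symm
  subst h7
  have h8 : γ = γ' := by
    apply Path.ext
    funext t
    obtain ⟨h9, h10⟩ := hγ t
    obtain ⟨h11, h12⟩ := hγ' t
    rw [h10, h12]
    exact (uc_perm h9 τ' h11).symm
  rw [h8]

theorem IsLin.refl (s : UConf n (Geo G)) : IsLin G (Path.Homotopic.Quotient.refl s) := by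
  obtain ⟨x, hx, rfl⟩ := uc_surj s
  have h1 : ∀ t : I, (fun i => seg G (x i) (x i) t) = x := fun t => funext fun i => seg_self _ _
  refine ⟨x, x, Path.refl _, Cmp.refl hx, fun t => ⟨by rw [h1 t]; exact hx, ?_⟩, rfl⟩
  exact uc_cong (h1 t).symm _ _

theorem IsLin.trans {s s' s'' : UConf n (Geo G)} {q : Path.Homotopic.Quotient s s'}
    {q' : Path.Homotopic.Quotient s' s''} (h : IsLin G q) (h' : IsLin G q') :
    IsLin G (q.trans q') := by
  obtain ⟨x, x', γ, hc, hγ, rfl⟩ := h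
  obtain ⟨y, y', γ', hc', hγ', rfl⟩ := h'
  obtain ⟨h1, h2⟩ := lin_ends hc γ hγ
  obtain ⟨h3, h4⟩ := lin_ends hc' γ' hγ'
  obtain ⟨τ, hτ⟩ := (uc_eq hc.inj' hc'.inj).1 (h2.symm.trans h3)
  obtain ⟨x'', hx''⟩ : ∃ x'' : Fin n → Geo G, y' = x'' ∘ τ := ⟨y' ∘ τ.symm, by
    funext i
    simp⟩
  subst hτ
  subst hx''
  have hc2 : Cmp G x' x'' := by
    have h5 := hc'.perm τ.symm
    have h6 : (x' ∘ τ) ∘ τ.symm = x' := by
      funext i
      simp
    have h7 : (x'' ∘ τ) ∘ τ.symm = x'' := by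
      funext i
      simp
    rwa [h6, h7] at h5
  have hγ2 : ∀ t, ∃ h, γ' t = uc (fun i => seg G (x' i) (x'' i) t) h := by
    intro t
    obtain ⟨h5, h6⟩ := hγ' t
    refine ⟨(hc2.seg t).inj', ?_⟩
    rw [h6]
    exact uc_perm (hc2.seg t).inj' τ h5
  have h5 : s'' = uc x'' hc2.inj' := (lin_ends hc2 γ' hγ2).2
  have hc3 : Cmp G x x'' := hc.trans hc2
  subst h1
  subst h5
  obtain ⟨δ, hδ⟩ := exists_linPath' hc3
  have hF : ∀ a : I × I, Cmp G x (fun i => seg G (x i) (seg G (x' i) (x'' i) a.2) a.1) :=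
    fun a => (hc.trans (hc2.seg a.2)).seg a.1
  have hcont : Continuous (fun a : I × I =>
      uc (fun i => seg G (x i) (seg G (x' i) (x'' i) a.2) a.1) (hF a).inj') :=
    continuous_uc (fun (a : I × I) i => seg G (x i) (seg G (x' i) (x'' i) a.2) a.1)
      (fun i => continuous_seg2 (hc.lab i) (hc2.lab i)) _
  have hsq := square _ hcont γ γ' (Path.refl _) δ
    (fun t => by
      obtain ⟨h6, h7⟩ := hγ t
      rw [h7]
      exact uc_cong (funext fun i => by simp only [seg_zero]) _ _)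
    (fun t => by
      obtain ⟨h6, h7⟩ := hγ2 t
      rw [h7]
      refine uc_cong (funext fun i => ?_) _ _
      exact (seg_one ((hc.lab i).trans ((hc2.seg t).lab i))).symm)
    (fun t => by
      exact uc_cong (funext fun i => seg_zero.symm) _ _)
    (fun t => by
      rw [hδ t]
      refine uc_cong (funext fun i => ?_) _ _
      simp only [seg_one (hc2.lab i)])
  have h8 : (γ.trans γ').Homotopic δ := hsq.trans ⟨Path.Homotopy.reflTrans δ⟩
  have h9 : (Path.Homotopic.Quotient.mk γ).trans (Path.Homotopic.Quotient.mk γ') =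
      Path.Homotopic.Quotient.mk δ := by
    rw [← Path.Homotopic.Quotient.mk_trans]
    exact Path.Homotopic.Quotient.eq.2 h8
  rw [h9]
  exact isLin_of' hc3 δ hδ

theorem IsLin.symm {s s' : UConf n (Geo G)} {q : Path.Homotopic.Quotient s s'}
    (h : IsLin G q) : IsLin G q.symm := by
  obtain ⟨x, x', γ, hc, hγ, rfl⟩ := h
  refine ⟨x', x, γ.symm, hc.symm, fun t => ?_, (Path.Homotopic.Quotient.mk_symm γ).symm⟩
  obtain ⟨h1, h2⟩ := hγ (σ t)
  have h3 : (fun i => seg G (x i) (x' i) (σ t)) = fun i => seg G (x' i) (x i) t :=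
    funext fun i => seg_symm (hc.lab i) t
  refine ⟨by rw [← h3]; exact h1, ?_⟩
  change γ (σ t) = _
  rw [h2]
  exact uc_cong h3 _ _

theorem IsLin.tp {s s' : UConf n (Geo G)} {q : Path.Homotopic.Quotient s s'}
    (h : IsLin G q) : tp G s = tp G s' := by
  obtain ⟨x, x', γ, hc, hγ, rfl⟩ := h
  obtain ⟨h1, h2⟩ := lin_ends hc γ hγ
  rw [h1, h2, tp_uc, tp_uc]
  exact hc.tp

/-- a linear path with given ordered end points -/
theorem isLin_of {x x' : Fin n → Geo G} (h : Cmp G x x') (γ : Path (uc x h.inj) (uc x' h.inj'))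
    (hγ : ∀ t, γ t = uc (fun i => seg G (x i) (x' i) t) (h.seg t).inj') :
    IsLin G (Path.Homotopic.Quotient.mk γ) := isLin_of' h γ hγ

theorem exists_linPath {x x' : Fin n → Geo G} (h : Cmp G x x') :
    ∃ γ : Path (uc x h.inj) (uc x' h.inj'),
      ∀ t, γ t = uc (fun i => seg G (x i) (x' i) t) (h.seg t).inj' := exists_linPath' h

end TP

end GB
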