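import Pool.Agent.Helper95.GB.TP.Iso
import Pool.Agent.Helper95.GB.TP.HolP
import Pool.Agent.Helper95.GB.TP.Gen
import Pool.Agent.Helper95.GB.Main
import Pool.Agent.Helper95.GB.KT.Final

/-! # GB/TP/Main: the braid group is the fundamental group of the configuration space 

`top_iso`.  `K = G.cx`, `R S = (S.card = n)`; `pt S = uc x` for a configuration `x` of type `S` if `S.card = n` (`exists_type`), and `s` otherwise; `tp (pt S) = S` if `R S`.  `hR`: `card` (insert of a new vertex
against one more particle on an edge).  For `a = ⟨(d, m), hd⟩`: `K.s a = ⟨insert (vt d) m.occ, m.num⟩`, `K.t a = ⟨m.occ, m.num + δ d.1⟩`; `P a h` is the class of `exists_ed`.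
* `hsq`: by inversion of `PC` the class of `[(a, true), (b, true)]` is `(P a).trans ((P b).trans refl)`; `ed_square` (the data of a 2-cell are `x, y, m`).
* `hsurj`: claim: for `Gn q`, `q : s → s'`, and linear `k : pt (tp s) → s`, `k' : s' → pt (tp s')` there is `w` with `PC (tp s) (tp s') w ((k.trans q).trans k')`.  Induction on `Gn`: for a linear `q`: `tp s = tp s'` and
the class is linear from `pt (tp s)` to itself, so it is `refl` (`IsLin.unique`, `IsLin.refl`), `w = []`.  For a move: it is an `IsEd` class, so it equals `P a h` (`IsEd.unique`, `IsEd.pre`, `IsEd.post`), `w = [(a, true)]`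
(`IsMv.tp` identifies the types).  `symm`: reverse the walk, `trans`: concatenate (insert a linear `k` and its inverse; `exists_lin`, `IsLin.symm`).  For a loop at `pt S₀`: `tp (pt S₀) = S₀`, `k = k' = refl`, `all_gn`.
* `hhol`: `gg d occ num = l ⟨(d, ⟨occ, num⟩), _⟩` if `vt d ∉ occ` and `1` otherwise; `GRel` by `K.Lab l`; `exists_holP`.
`iso_of` gives `K.Pi1 (tp s) ≃* FundamentalGroup _ (pt (tp s))`, and a linear path from `pt (tp s)` to `s` gives `FundamentalGroup.fundamentalGroupMulEquivOfPath`.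
`genus1_equiv`: compose the isomorphisms.
`planar_genus1_top`: `top_iso`, `planar_genus1`, `genus1_equiv`.  `notGenus_top`: `KT.notGenus` gives `c` with `c.card = 2`; `exists_type` gives `s : UConf 2 _` with `tp s = c`; `top_iso`.
-/

set_option autoImplicit false

namespace GB

open unitInterval Topology

theorem genus1_equiv {G H : Type} [Group G] [Group H] (e : G ≃* H) (h : Genus1 G) :
    Genus1 H := by
  obtain ⟨S, R, hR, ⟨f⟩⟩ := h
  exact ⟨S, R, hR, ⟨f.trans e⟩⟩

section PCLemmas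

open Path.Homotopic

variable {K : Cx} {X : Type} [TopologicalSpace X] {R : K.X → Prop} {pt : K.X → X}
  {P : ∀ a : K.Ed, R (K.s a) → Path.Homotopic.Quotient (pt (K.s a)) (pt (K.t a))}

theorem TP.mn_pc_inv {x y : K.X} {l : List (K.Ed × Bool)}
    {q : Path.Homotopic.Quotient (pt x) (pt y)} (h : TP.PC K R pt P x y l q) (a : K.Ed)
    (w : List (K.Ed × Bool)) (hl : l = (a, true) :: w) :
    ∃ (_ : x = K.s a) (h' : R (K.s a)) (q' : Path.Homotopic.Quotient (pt (K.t a)) (pt y)),
      TP.PC K R pt P (K.t a) y w q' ∧ HEq q ((P a h').trans q') := by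
  cases h with
  | nil x => exact absurd hl (by simp)
  | fwd b hb y w' q' hpc =>
    rw [List.cons.injEq, Prod.mk.injEq] at hl
    obtain ⟨⟨h1, -⟩, h2⟩ := hl
    subst h1
    subst h2
    exact ⟨rfl, hb, q', hpc, HEq.rfl⟩
  | bwd b hb y w' q' hpc =>
    rw [List.cons.injEq, Prod.mk.injEq] at hl
    exact absurd hl.1.2 (by simp)

theorem TP.mn_pc_nil {x y : K.X} {l : List (K.Ed × Bool)}
    {q : Path.Homotopic.Quotient (pt x) (pt y)} (h : TP.PC K R pt P x y l q) (hl : l = []) :
    ∃ _ : x = y, HEq q (Path.Homotopic.Quotient.refl (pt x)) := by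
  cases h with
  | nil x => exact ⟨rfl, HEq.rfl⟩
  | fwd b hb y w' q' hpc => exact absurd hl (by simp)
  | bwd b hb y w' q' hpc => exact absurd hl (by simp)

theorem TP.mn_pc_single {x y : K.X} {b : K.Ed} {q : Path.Homotopic.Quotient (pt x) (pt y)}
    (h : TP.PC K R pt P x y [(b, true)] q) :
    ∃ (_ : x = K.s b) (_ : y = K.t b) (h' : R (K.s b)), HEq q (P b h') := by
  obtain ⟨h1, hb, q', hpc, heq⟩ := TP.mn_pc_inv h b [] rfl
  obtain ⟨h2, heq2⟩ := TP.mn_pc_nil hpc rfl
  subst h1
  subst h2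
  refine ⟨rfl, rfl, hb, ?_⟩
  rw [eq_of_heq heq2, Path.Homotopic.Quotient.trans_refl] at heq
  exact heq

theorem TP.mn_pc_append {x y z : K.X} {u v : List (K.Ed × Bool)}
    {p : Path.Homotopic.Quotient (pt x) (pt y)} {q : Path.Homotopic.Quotient (pt y) (pt z)}
    (h : TP.PC K R pt P x y u p) (h' : TP.PC K R pt P y z v q) :
    TP.PC K R pt P x z (u ++ v) (p.trans q) := by
  induction h with
  | nil x =>
    rw [Path.Homotopic.Quotient.refl_trans]
    exact h'
  | fwd a ha y w p hpc ih =>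
    rw [Path.Homotopic.Quotient.trans_assoc]
    exact TP.PC.fwd a ha z _ _ (ih h')
  | bwd a ha y w p hpc ih =>
    rw [Path.Homotopic.Quotient.trans_assoc]
    exact TP.PC.bwd a ha z _ _ (ih h')

theorem TP.mn_quot_symm_trans {x y z : X} (p : Path.Homotopic.Quotient x y)
    (q : Path.Homotopic.Quotient y z) : (p.trans q).symm = q.symm.trans p.symm := by
  induction p using Path.Homotopic.Quotient.ind with | mk p =>
  induction q using Path.Homotopic.Quotient.ind with | mk q =>
  change Path.Homotopic.Quotient.mk (p.trans q).symm =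
    Path.Homotopic.Quotient.mk (q.symm.trans p.symm)
  rw [Path.trans_symm]

theorem TP.mn_quot_symm_symm {x y : X} (p : Path.Homotopic.Quotient x y) : p.symm.symm = p := by
  induction p using Path.Homotopic.Quotient.ind with | mk p =>
  change Path.Homotopic.Quotient.mk p.symm.symm = Path.Homotopic.Quotient.mk p
  rw [Path.symm_symm]

theorem TP.mn_quot_refl_symm (x : X) :
    (Path.Homotopic.Quotient.refl x).symm = Path.Homotopic.Quotient.refl x := by
  change Path.Homotopic.Quotient.mk (Path.refl x).symm = Path.Homotopic.Quotient.mk (Path.refl x)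
  rw [Path.refl_symm]

theorem TP.mn_pc_rev {x y : K.X} {u : List (K.Ed × Bool)}
    {p : Path.Homotopic.Quotient (pt x) (pt y)} (h : TP.PC K R pt P x y u p) :
    TP.PC K R pt P y x (K.rev u) p.symm := by
  induction h with
  | nil x =>
    rw [TP.mn_quot_refl_symm]
    exact TP.PC.nil x
  | fwd a ha y w p hpc ih =>
    rw [TP.mn_quot_symm_trans, Cx.rev_cons]
    refine TP.mn_pc_append ih ?_
    have h1 := TP.PC.bwd (pt := pt) (P := P) a ha (K.s a) [] _ (TP.PC.nil (K.s a))
    rw [Path.Homotopic.Quotient.trans_refl] at h1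
    exact h1
  | bwd a ha y w p hpc ih =>
    rw [TP.mn_quot_symm_trans, Cx.rev_cons, TP.mn_quot_symm_symm]
    refine TP.mn_pc_append ih ?_
    have h1 := TP.PC.fwd (pt := pt) (P := P) a ha (K.t a) [] _ (TP.PC.nil (K.t a))
    rw [Path.Homotopic.Quotient.trans_refl] at h1
    exact h1

end PCLemmas

theorem TP.mn_card_st {V E : Type} [DecidableEq V] (G : Gr V E) (a : G.cx.Ed) :
    (G.cx.s a).card = (G.cx.t a).card := by
  obtain ⟨⟨d, m⟩, hd⟩ := a
  change (insert (G.vt d) m.occ).card + m.num.sum (fun _ k => k) =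
    m.occ.card + (m.num + δ d.1).sum (fun _ k => k)
  rw [Finset.card_insert_of_notMem hd, Finsupp.sum_add_index' (by simp) (by intros; rfl),
    Finsupp.sum_single_index (by rfl)]
  ring

theorem TP.top_iso {V E : Type} [DecidableEq V] [Finite E] (G : Gr V E) {n : ℕ}
    (s : UConf n (Geo G)) :
    Nonempty (BraidGroup G (TP.tp G s) ≃* FundamentalGroup (UConf n (Geo G)) s) := by
  classical
  let R : G.cx.X → Prop := fun S => Conf.card S = n
  have hpt0 : ∀ S : G.cx.X, ∃ u : UConf n (Geo G), R S → TP.tp G u = S := by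
    intro S
    by_cases hS : R S
    · obtain ⟨x, hx, hxS⟩ := TP.exists_type G (n := n) S hS
      exact ⟨TP.uc x hx, fun _ => hxS⟩
    · exact ⟨s, fun h => absurd h hS⟩
  choose pt hpt using hpt0
  have hR : ∀ a : G.cx.Ed, R (G.cx.s a) ↔ R (G.cx.t a) := by
    intro a
    change Conf.card _ = n ↔ Conf.card _ = n
    rw [TP.mn_card_st G a]
  have hP0 : ∀ (a : G.cx.Ed) (h : R (G.cx.s a)),
      ∃ q : Path.Homotopic.Quotient (pt (G.cx.s a)) (pt (G.cx.t a)),
        TP.IsEd G a.1.1 a.1.2 q := fun a h =>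
    TP.exists_ed a.2 (hpt _ h) (hpt _ ((hR a).1 h))
  choose P hP using hP0
  have hRs : R (TP.tp G s) := TP.tp_card G s
  -- words of length at most one
  have hnil : ∀ (S S' : G.cx.X) (_ : S = S') (r : Path.Homotopic.Quotient (pt S) (pt S')),
      TP.IsLin G r → TP.PC G.cx R pt P S S' [] r := by
    intro S S' hS r hr
    subst hS
    rw [hr.unique (TP.IsLin.refl (pt S))]
    exact TP.PC.nil S
  have hone : ∀ (a : G.cx.Ed) (S S' : G.cx.X) (_ : S = G.cx.s a) (_ : S' = G.cx.t a)
      (r : Path.Homotopic.Quotient (pt S) (pt S')), R S → TP.IsEd G a.1.1 a.1.2 r →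
      TP.PC G.cx R pt P S S' [(a, true)] r := by
    intro a S S' hS hS' r hRS hr
    subst hS
    subst hS'
    rw [hr.unique (hP a hRS)]
    have h1 := TP.PC.fwd (pt := pt) (P := P) a hRS (G.cx.t a) [] _ (TP.PC.nil (G.cx.t a))
    rw [Path.Homotopic.Quotient.trans_refl] at h1
    exact h1
  -- generation
  have hgen : ∀ {u v : UConf n (Geo G)} (q : Path.Homotopic.Quotient u v), TP.Gn G q →
      ∀ (S S' : G.cx.X), TP.tp G u = S → TP.tp G v = S' →
      ∀ (k : Path.Homotopic.Quotient (pt S) u) (k' : Path.Homotopic.Quotient v (pt S')),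
      TP.IsLin G k → TP.IsLin G k' → ∃ w, TP.PC G.cx R pt P S S' w ((k.trans q).trans k') := by
    intro u v q hq
    induction hq with
    | lin q hq =>
      intro S S' hS hS' k k' hk hk'
      exact ⟨[], hnil S S' (by rw [← hS, ← hS', hq.tp]) _ ((hk.trans hq).trans hk')⟩
    | mv d m q hq =>
      intro S S' hS hS' k k' hk hk'
      obtain ⟨h1, h2, h3⟩ := hq.tp
      refine ⟨[(⟨(d, m), h1⟩, true)], hone ⟨(d, m), h1⟩ S S' ?_ ?_ _ ?_ ?_⟩
      · rw [← hS, h2]
        rfl
      · rw [← hS', h3]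
        rfl
      · rw [← hS]
        exact TP.tp_card G _
      · exact TP.IsEd.post (TP.IsEd.pre hk (TP.IsEd.of_mv hq)) hk'
    | symm q hq ih =>
      intro S S' hS hS' k k' hk hk'
      obtain ⟨w, hw⟩ := ih S' S hS' hS k'.symm k.symm hk'.symm hk.symm
      refine ⟨G.cx.rev w, ?_⟩
      have h1 := TP.mn_pc_rev hw
      rw [TP.mn_quot_symm_trans, TP.mn_quot_symm_trans, TP.mn_quot_symm_symm, TP.mn_quot_symm_symm,
        ← Path.Homotopic.Quotient.trans_assoc] at h1
      exact h1
    | trans q q' hq hq' ih ih' =>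
      rename_i u₁ u₂ u₃
      intro S S' hS hS' k k' hk hk'
      have hm : TP.tp G u₂ = TP.tp G (pt (TP.tp G u₂)) := (hpt _ (TP.tp_card G _)).symm
      obtain ⟨l, hl⟩ := TP.exists_lin hm
      obtain ⟨w, hw⟩ := ih S (TP.tp G u₂) hS rfl k l hk hl
      obtain ⟨w', hw'⟩ := ih' (TP.tp G u₂) S' rfl hS' l.symm k' hl.symm hk'
      refine ⟨w ++ w', ?_⟩
      have h1 := TP.mn_pc_append hw hw'
      have h2 : ((k.trans q).trans l).trans ((l.symm.trans q').trans k') =
          (k.trans (q.trans q')).trans k' := by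
        simp only [Path.Homotopic.Quotient.trans_assoc]
        congr 2
        rw [← Path.Homotopic.Quotient.trans_assoc, Path.Homotopic.Quotient.trans_symm,
          Path.Homotopic.Quotient.refl_trans]
      rw [h2] at h1
      exact h1
  have hsq : ∀ a b c d, G.cx.sq a b c d → R (G.cx.s a) → ∀ q q',
      TP.PC G.cx R pt P (G.cx.s a) (G.cx.t b) [(a, true), (b, true)] q →
      TP.PC G.cx R pt P (G.cx.s a) (G.cx.t b) [(c, true), (d, true)] q' → q = q' := by
    rintro a b c d ⟨x, y, m, hxy, hx, hy, ha, hb, hc, hd⟩ hRa q q' hq hq'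
    have htwo : ∀ (a b : G.cx.Ed) (S S' : G.cx.X)
        (q : Path.Homotopic.Quotient (pt S) (pt S')),
        TP.PC G.cx R pt P S S' [(a, true), (b, true)] q →
        ∃ (u : UConf n (Geo G)) (q₁ : Path.Homotopic.Quotient (pt S) u)
          (q₂ : Path.Homotopic.Quotient u (pt S')), TP.IsEd G a.1.1 a.1.2 q₁ ∧
          TP.IsEd G b.1.1 b.1.2 q₂ ∧ q = q₁.trans q₂ := by
      intro a b S S' q hq
      obtain ⟨h1, ha, q₂, hpc, heq⟩ := TP.mn_pc_inv hq a _ rfl
      subst h1
      obtain ⟨h2, h3, hb, heq2⟩ := TP.mn_pc_single hpc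
      subst h3
      refine ⟨_, P a ha, q₂, hP a ha, ?_, eq_of_heq heq⟩
      have hgen2 : ∀ (T : G.cx.X) (_ : T = G.cx.s b)
          (r : Path.Homotopic.Quotient (pt T) (pt (G.cx.t b))), HEq r (P b hb) →
          TP.IsEd G b.1.1 b.1.2 r := by
        intro T hT r hr
        subst hT
        rw [eq_of_heq hr]
        exact hP b hb
      exact hgen2 _ h2 _ heq2
    obtain ⟨u, q₁, q₂, h1, h2, rfl⟩ := htwo a b _ _ q hq
    obtain ⟨u', q₁', q₂', h1', h2', rfl⟩ := htwo c d _ _ q' hq'
    rw [ha] at h1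
    rw [hb] at h2
    rw [hc] at h1'
    rw [hd] at h2'
    exact TP.ed_square hxy hx hy h1 h2 h1' h2'
  obtain ⟨e⟩ := TP.iso_of G.cx R hR pt P hsq (TP.tp G s) hRs (by
    intro γ
    obtain ⟨w, hw⟩ := hgen γ (TP.all_gn γ) (TP.tp G s) (TP.tp G s) (hpt _ hRs) (hpt _ hRs)
      (Path.Homotopic.Quotient.refl _) (Path.Homotopic.Quotient.refl _) (TP.IsLin.refl _)
      (TP.IsLin.refl _)
    rw [Path.Homotopic.Quotient.refl_trans, Path.Homotopic.Quotient.trans_refl] at hw
    exact ⟨w, hw⟩) (by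
    intro L _ l hl
    let gg : Dart E → Finset V → (E →₀ ℕ) → L := fun d occ num =>
      if h : G.vt d ∉ occ then l ⟨(d, ⟨occ, num⟩), h⟩ else 1
    have hgg : ∀ d occ num (h : G.vt d ∉ occ), gg d occ num = l ⟨(d, ⟨occ, num⟩), h⟩ :=
      fun d occ num h => dif_pos h
    have hG : GRel G gg := by
      intro x y occ num hxy hx hy
      have h1 : G.vt x ∉ insert (G.vt y) occ := by
        rw [Finset.mem_insert, not_or]
        exact ⟨hxy, hx⟩
      have h2 : G.vt y ∉ insert (G.vt x) occ := by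
        rw [Finset.mem_insert, not_or]
        exact ⟨hxy.symm, hy⟩
      rw [hgg x _ _ h1, hgg y _ _ hy, hgg y _ _ h2, hgg x _ _ hx]
      exact hl _ _ _ _ ⟨x, y, ⟨occ, num⟩, hxy, hx, hy, rfl, rfl, rfl, rfl⟩
    obtain ⟨Hol, h1, h2, h3⟩ := TP.exists_holP G n gg hG
    refine ⟨Hol, h1, h2, fun a h => ?_⟩
    rw [h3 _ _ _ _ _ (hP a h), hgg _ _ _ a.2]
    rfl)
  have hlin : TP.tp G (pt (TP.tp G s)) = TP.tp G s := hpt _ hRs
  obtain ⟨q, -⟩ := TP.exists_lin hlin
  obtain ⟨γ, -⟩ := Path.Homotopic.Quotient.mk_surjective q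
  exact ⟨e.trans (FundamentalGroup.fundamentalGroupMulEquivOfPath γ)⟩

theorem planar_genus1_top {V E : Type} [Finite E] (G : Gr V E) (hc : G.Connected)
    (hP : G.Planar) (hθ : ¬ G.HasTheta4) (n : ℕ) (s : UConf n (Geo G)) :
    Genus1 (FundamentalGroup (UConf n (Geo G)) s) := by
  classical
  obtain ⟨e⟩ := TP.top_iso G s
  exact genus1_equiv e (planar_genus1 G hc hP hθ (TP.tp G s))

theorem notGenus_top : ∃ s : UConf 2 (Geo KT.K33),
    ¬ Genus1 (FundamentalGroup (UConf 2 (Geo KT.K33)) s) := by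
  obtain ⟨c, hc, hn⟩ := KT.notGenus
  obtain ⟨x, hx, hxc⟩ := TP.exists_type KT.K33 c hc
  refine ⟨TP.uc x hx, fun h => hn ?_⟩
  obtain ⟨e⟩ := TP.top_iso KT.K33 (TP.uc x hx)
  have h1 := genus1_equiv e.symm h
  have h2 : TP.tp KT.K33 (TP.uc x hx) = c := hxc
  rw [h2] at h1
  exact h1

end GB
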