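import Pool.Agent.Helper95.GB.TP.Lin2

/-! # GB/TP/Mv: moving a point from a vertex into a half-edge (stub, prove in place)

`v = vt d`, `x i = vp v`.
* `exists_adm`: for `j ≠ i`: `x j ≠ vp v`, so `dv v (x j) > 0` (`dv_eq_zero`, `dv_nonneg`).  Take `ε > 0` smaller than `ε₀`, `1/2` and all `dv v (x j)`: if
`x j = hp d t` with `0 < t ≤ ε` then `dv v (x j) = t` (`dv_hp`), contradiction.
* `Adm.inj`: `update x i (hp d (ε * t))` is injective: if `ε * t = 0` it is `x` (`hp_zero`), otherwise use `Adm` for `ε * t`.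
* `exists_mvPath`: `continuous_uc`, `continuous_hp`.
* `tp_mv`: `tpO_vertex`, `tpO_edge`, `tpE_update`, `hp_mem`.
* `IsMv.nat`.  Let `(x, i, ε, γ)`, `(y, j, η, γ')` be as in `IsMv` for `q`, `q'`.
(a) for `ζ ≤ ε`: the class of the move by `ε` is the class of the move by `ζ` followed by a linear class: `square` for
`F (t, u) = uc (update x i (hp d (cc ζ ε u * t)))`: `F (t, 0)` is the move by `ζ`, `F (1, u)` the linear path from `update x i (hp d ζ)` to `update x i (hp d ε)` (`hp d (cc ζ ε u)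
= seg (hp d ζ) (hp d ε) u`; `Cmp` because all other points on the edge of `d` are farther than `ε` from the end of `d`), `F (0, u)` is constant, `F (t, 1)` the move by `ε`.
(b) `tp s₁ = tp s₂`, so `exists_cmp` gives `τ` with `Cmp x (y ∘ τ)`; replacing `y`, `j` by `y ∘ τ`, `τ⁻¹ j` does not change the path.  So assume `Cmp x y`; then `y i = vp v`
(labels), so `j = i` (`y` injective).
(c) for `k ≠ i` the continuous function `u ↦ dv v (seg (x k) (y k) u)` is positive on `I` (the label is never `v`), so it has a positive minimum.  Let `ζ > 0` be smaller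
than these minima, `ε`, `η`, `1/2`.  `square` for `F (u, t) = uc (update (fun k => seg (x k) (y k) u) i (hp d (ζ * t)))`: `F (u, 0)` is the linear path `x → y`, `F (1, t)` the move of
`y` by `ζ`, `F (0, t)` the move of `x` by `ζ`, `F (u, 1)` the linear path from `update x i (hp d ζ)` to `update y i (hp d ζ)` (`seg p p u = p`).
(d) combine (a) for `x`, (a) for `y`, (c) and `IsLin.unique`, `IsLin.trans`.
-/

set_option autoImplicit false

namespace GB

open unitInterval Topology

namespace TP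

variable {V E : Type} [DecidableEq V] {G : Gr V E} {n : ℕ}

/-- `update` by a new value is injective -/
theorem inj_update {X : Type} {x : Fin n → X} (hx : Function.Injective x) (i : Fin n) (p : X)
    (h : ∀ j, j ≠ i → x j ≠ p) : Function.Injective (Function.update x i p) := by
  intro j k hjk
  by_cases hj : j = i
  · by_cases hk : k = i
    · rw [hj, hk]
    · rw [hj, Function.update_self, Function.update_of_ne hk] at hjk
      exact absurd hjk.symm (h k hk)
  · by_cases hk : k = i
    · rw [hk, Function.update_self, Function.update_of_ne hj] at hjk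
      exact absurd hjk (h j hj)
    · rw [Function.update_of_ne hj, Function.update_of_ne hk] at hjk
      exact hx hjk

/-- a small positive number -/
theorem exists_small (f : Fin n → ℝ) (hf : ∀ j, 0 < f j) (i : Fin n) (ε₀ : I) (h0 : 0 < ε₀) :
    ∃ ε : I, 0 < ε ∧ ε ≤ ε₀ ∧ (ε : ℝ) < 1 / 2 ∧ ∀ j, (ε : ℝ) < f j := by
  have : Nonempty (Fin n) := ⟨i⟩
  obtain ⟨j0, hj0⟩ := Finite.exists_min f
  have h1 : (0 : ℝ) < ε₀ := h0
  have h2 : (0 : ℝ) < min (ε₀ : ℝ) (min (1 / 4) (f j0 / 2)) :=
    lt_min h1 (lt_min (by norm_num) (half_pos (hf j0)))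
  refine ⟨⟨min (ε₀ : ℝ) (min (1 / 4) (f j0 / 2)), h2.le, (min_le_left _ _).trans ε₀.2.2⟩,
    h2, (show min (ε₀ : ℝ) (min (1 / 4) (f j0 / 2)) ≤ ε₀ from min_le_left _ _), ?_, fun j => ?_⟩
  · have h3 : min (ε₀ : ℝ) (min (1 / 4) (f j0 / 2)) ≤ 1 / 4 :=
      (min_le_right _ _).trans (min_le_left _ _)
    change min (ε₀ : ℝ) (min (1 / 4) (f j0 / 2)) < 1 / 2
    linarith
  · have h3 : min (ε₀ : ℝ) (min (1 / 4) (f j0 / 2)) ≤ f j0 / 2 :=
      (min_le_right _ _).trans (min_le_right _ _)
    have h4 := hj0 j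
    have h5 := hf j0
    change min (ε₀ : ℝ) (min (1 / 4) (f j0 / 2)) < f j
    linarith

theorem dv_pos {v : V} {p : Geo G} (h : p ≠ vp G v) : 0 < dv G v p :=
  lt_of_le_of_ne (dv_nonneg G v p) (fun h' => h ((dv_eq_zero G v p).1 h'.symm))

/-- a criterion for `Adm` -/
theorem adm_of {x : Fin n → Geo G} {i : Fin n} {d : Dart E} {ε : I} (h1 : (ε : ℝ) < 1 / 2)
    (h2 : ∀ j, j ≠ i → (ε : ℝ) < dv G (G.vt d) (x j)) : Adm G x i d ε := by
  intro j hj t h3 h4 h5
  have h6 : (t : ℝ) ≤ ε := h4
  have h7 := h2 j hj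
  rw [h5, dv_hp G d t (by linarith)] at h7
  linarith

theorem exists_adm {x : Fin n → Geo G} (hx : Function.Injective x) {i : Fin n} {d : Dart E}
    (hi : x i = vp G (G.vt d)) (ε₀ : I) (h0 : 0 < ε₀) :
    ∃ ε : I, 0 < ε ∧ ε ≤ ε₀ ∧ (ε : ℝ) < 1 / 2 ∧ Adm G x i d ε := by
  classical
  obtain ⟨ε, h1, h2, h3, h4⟩ := exists_small
    (fun j => if j = i then 1 else dv G (G.vt d) (x j)) (fun j => by
      by_cases hj : j = i
      · rw [if_pos hj]
        exact one_pos
      · rw [if_neg hj]
        refine dv_pos fun h => hj (hx ?_)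
        rw [h, hi]) i ε₀ h0
  refine ⟨ε, h1, h2, h3, adm_of h3 fun j hj => ?_⟩
  have h5 := h4 j
  rwa [if_neg hj] at h5

theorem Adm.mono {x : Fin n → Geo G} {i : Fin n} {d : Dart E} {ε ε' : I}
    (h : Adm G x i d ε) (h' : ε' ≤ ε) : Adm G x i d ε' :=
  fun j hj t h0 h1 => h j hj t h0 (h1.trans h')

theorem mul_le_self (ε t : I) : ε * t ≤ ε := by
  have h1 : (0 : ℝ) ≤ ε := ε.2.1
  have h2 : (t : ℝ) ≤ 1 := t.2.2
  change ((ε * t : I) : ℝ) ≤ ε
  rw [Set.Icc.coe_mul]
  exact mul_le_of_le_one_right h1 h2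

theorem Adm.inj {x : Fin n → Geo G} (hx : Function.Injective x) {i : Fin n} {d : Dart E}
    (hi : x i = vp G (G.vt d)) {ε : I} (ha : Adm G x i d ε) (t : I) :
    Function.Injective (Function.update x i (hp G d (ε * t))) := by
  apply inj_update hx
  intro j hj h
  rcases eq_or_lt_of_le (show (0 : I) ≤ ε * t from (ε * t).2.1) with h1 | h1
  · rw [← h1, hp_zero, ← hi] at h
    exact hj (hx h)
  · exact ha j hj _ h1 (mul_le_self ε t) h

theorem exists_mvPath {x : Fin n → Geo G} (hx : Function.Injective x) {i : Fin n} {d : Dart E}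
    (hi : x i = vp G (G.vt d)) {ε : I} (ha : Adm G x i d ε)
    (h' : Function.Injective (Function.update x i (hp G d ε))) :
    ∃ γ : Path (uc x hx) (uc (Function.update x i (hp G d ε)) h'),
      ∀ t, ∃ h, γ t = uc (Function.update x i (hp G d (ε * t))) h := by
  refine ⟨⟨⟨fun t => uc (Function.update x i (hp G d (ε * t))) (Adm.inj hx hi ha t), ?_⟩,
    ?_, ?_⟩, fun t => ⟨Adm.inj hx hi ha t, rfl⟩⟩
  · refine continuous_uc (fun (t : I) => Function.update x i (hp G d (ε * t))) (fun j => ?_) _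
    by_cases hj : j = i
    · subst hj
      simp only [Function.update_self]
      exact (continuous_hp G d).comp (by fun_prop)
    · simp only [Function.update_of_ne hj]
      exact continuous_const
  · refine uc_cong ?_ _ _
    rw [mul_zero, hp_zero, ← hi, Function.update_eq_self]
  · refine uc_cong ?_ _ _
    rw [mul_one]

/-- the ends of a move -/
theorem mv_ends {x : Fin n → Geo G} (hx : Function.Injective x) {i : Fin n} {d : Dart E}
    (hi : x i = vp G (G.vt d)) {ε : I} {s s' : UConf n (Geo G)} (γ : Path s s')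
    (hγ : ∀ t, ∃ h, γ t = uc (Function.update x i (hp G d (ε * t))) h) :
    s = uc x hx ∧ ∃ h, s' = uc (Function.update x i (hp G d ε)) h := by
  constructor
  · obtain ⟨h1, h2⟩ := hγ 0
    rw [γ.source] at h2
    rw [h2]
    refine uc_cong ?_ _ _
    rw [mul_zero, hp_zero, ← hi, Function.update_eq_self]
  · obtain ⟨h1, h2⟩ := hγ 1
    rw [γ.target] at h2
    rw [h2]
    have h3 : Function.update x i (hp G d (ε * 1)) = Function.update x i (hp G d ε) := by
      rw [mul_one]
    exact ⟨by rw [← h3]; exact h1, uc_cong h3 _ _⟩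

theorem IsMv.tp {d : Dart E} {m : Conf V E} {s s' : UConf n (Geo G)}
    {q : Path.Homotopic.Quotient s s'} (h : IsMv G d m q) : G.vt d ∉ m.occ ∧
      tp G s = ⟨insert (G.vt d) m.occ, m.num⟩ ∧ tp G s' = ⟨m.occ, m.num + δ d.1⟩ := by
  obtain ⟨x, i, ε, γ, hx, hi, h0, h1, ha, hm, hγ, rfl⟩ := h
  obtain ⟨h2, h3, h4⟩ := mv_ends hx hi γ hγ
  subst hm
  obtain ⟨h5, h6⟩ := tpO_vertex G hx hi
  refine ⟨h5, ?_, ?_⟩
  · rw [h2, tp_uc, h6]
  · rw [h4, tp_uc]
    obtain ⟨u, h7, h8, h9⟩ := hp_mem G d ε h0 h1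
    have h10 := tpO_edge G (x := Function.update x i (hp G d ε)) (i := i) h7 h8
      (by rw [Function.update_self, h9])
    rw [h10, tpE_update]

theorem lab_hp (d : Dart E) {a : I} (h0 : 0 < a) (h1 : a < 1) :
    lab G (hp G d a) = .inr d.1 := by
  obtain ⟨u, h2, h3, h4⟩ := hp_mem G d a h0 h1
  rw [h4, lab_ep G d.1 u h2 h3]

theorem co_ep (e : E) {u : I} (h0 : 0 < u) (h1 : u < 1) : co G (ep G e u) = u := by
  unfold co
  rw [nf_ep G e u h0 h1]

theorem symm_pos {a : I} (h : a < 1) : 0 < σ a := by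
  have h1 : (a : ℝ) < 1 := h
  change (0 : ℝ) < (σ a : I)
  rw [unitInterval.coe_symm_eq]
  linarith

theorem symm_lt_one' {a : I} (h : 0 < a) : σ a < 1 := by
  have h1 : (0 : ℝ) < a := h
  change ((σ a : I) : ℝ) < 1
  rw [unitInterval.coe_symm_eq]
  linarith

theorem symm_lt' {a b : I} (h : a < b) : σ b < σ a := by
  have h1 : (a : ℝ) < b := h
  change ((σ b : I) : ℝ) < (σ a : I)
  rw [unitInterval.coe_symm_eq, unitInterval.coe_symm_eq]
  linarith

/-- the position of a point on the edge of `d` which is not close to the end of `d` -/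
theorem co_adm {d : Dart E} {a ζ : I} {q : Geo G} (h0 : 0 < a) (ha : a ≤ ζ) (h1 : ζ < 1)
    (hlab : lab G q = .inr d.1) (hq : ∀ t : I, 0 < t → t ≤ ζ → q ≠ hp G d t) :
    (co G (hp G d a) < co G q ↔ d.2 = false) ∧ (co G q < co G (hp G d a) ↔ d.2 = true) := by
  obtain ⟨u, h2, h3, h4⟩ := (lab_eq_inr G).1 hlab
  have h5 : a < 1 := lt_of_le_of_lt ha h1
  have h6 : co G q = u := by rw [h4, co_ep d.1 h2 h3]
  rw [h6]
  rcases hd : d.2 with _ | _
  · have h7 : hp G d a = ep G d.1 a := by
      unfold hp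
      rw [hd]
      rfl
    have h8 : ζ < u := by
      by_contra h9
      refine hq u h2 (not_lt.1 h9) ?_
      unfold hp
      rw [hd, h4]
      rfl
    rw [h7, co_ep d.1 h0 h5]
    have h9 : a < u := lt_of_le_of_lt ha h8
    exact ⟨iff_of_true h9 rfl, iff_of_false h9.not_gt (by decide)⟩
  · have h7 : hp G d a = ep G d.1 (σ a) := by
      unfold hp
      rw [hd]
      rfl
    have h8 : ζ < σ u := by
      by_contra h9
      refine hq (σ u) (symm_pos h3) (not_lt.1 h9) ?_
      unfold hp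
      rw [hd, h4]
      change ep G d.1 u = ep G d.1 (σ (σ u))
      rw [unitInterval.symm_symm]
    rw [h7, co_ep d.1 (symm_pos h5) (symm_lt_one' h0)]
    have h9 : u < σ a := by
      have h10 := symm_lt' (lt_of_le_of_lt ha h8)
      rwa [unitInterval.symm_symm] at h10
    exact ⟨iff_of_false h9.not_gt (by decide), iff_of_true h9 rfl⟩

/-- compatibility after a small move of one point -/
theorem cmp_update {x y : Fin n → Geo G} {i : Fin n} {d : Dart E} {a b ζ : I}
    (hl : ∀ j, j ≠ i → lab G (x j) = lab G (y j))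
    (hc : ∀ j k, j ≠ i → k ≠ i → lab G (x j) = lab G (x k) →
      (co G (x j) < co G (x k) ↔ co G (y j) < co G (y k)))
    (hx : Function.Injective (Function.update x i (hp G d a)))
    (hy : Function.Injective (Function.update y i (hp G d b)))
    (hax : Adm G x i d ζ) (hay : Adm G y i d ζ) (h0 : 0 < a) (h1 : a ≤ ζ) (h2 : 0 < b)
    (h3 : b ≤ ζ) (h4 : ζ < 1) :
    Cmp G (Function.update x i (hp G d a)) (Function.update y i (hp G d b)) := by
  have hla : lab G (hp G d a) = .inr d.1 := lab_hp d h0 (lt_of_le_of_lt h1 h4)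
  have hlb : lab G (hp G d b) = .inr d.1 := lab_hp d h2 (lt_of_le_of_lt h3 h4)
  refine ⟨hx, hy, fun j => ?_, fun j k => ?_⟩
  · by_cases hj : j = i
    · subst hj
      rw [Function.update_self, Function.update_self, hla, hlb]
    · rw [Function.update_of_ne hj, Function.update_of_ne hj]
      exact hl j hj
  · by_cases hj : j = i
    · by_cases hk : k = i
      · intro _
        rw [hj, hk]
        simp
      · subst hj
        rw [Function.update_self, Function.update_self, Function.update_of_ne hk,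
          Function.update_of_ne hk, hla]
        intro h5
        have h6 := hl k hk
        rw [← h5] at h6
        exact (co_adm h0 h1 h4 h5.symm (hax k hk)).1.trans
          (co_adm h2 h3 h4 h6.symm (hay k hk)).1.symm
    · by_cases hk : k = i
      · subst hk
        rw [Function.update_self, Function.update_self, Function.update_of_ne hj,
          Function.update_of_ne hj, hla]
        intro h5
        have h6 := hl j hj
        rw [h5] at h6
        exact (co_adm h0 h1 h4 h5 (hax j hj)).2.trans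
          (co_adm h2 h3 h4 h6.symm (hay j hj)).2.symm
      · rw [Function.update_of_ne hj, Function.update_of_ne hj, Function.update_of_ne hk,
          Function.update_of_ne hk]
        exact hc j k hj hk

theorem cc_symm2 (a b t : I) : cc (σ a) (σ b) t = σ (cc a b t) := by
  apply Subtype.ext
  rw [unitInterval.coe_symm_eq]
  change (1 - (t : ℝ)) * (σ a : I) + t * (σ b : I) = 1 - ((1 - (t : ℝ)) * a + t * b)
  rw [unitInterval.coe_symm_eq, unitInterval.coe_symm_eq]
  ring

theorem seg_hp (d : Dart E) {a b : I} (h0 : 0 < a) (h1 : a < 1) (h2 : 0 < b) (h3 : b < 1)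
    (t : I) : seg G (hp G d a) (hp G d b) t = hp G d (cc a b t) := by
  rcases hd : d.2 with _ | _
  · have h7 : ∀ a, hp G d a = ep G d.1 a := fun a => by
      unfold hp
      rw [hd]
      rfl
    rw [h7, h7, h7, seg_ep d.1 d.1 h0 h1 h2 h3]
  · have h7 : ∀ a, hp G d a = ep G d.1 (σ a) := fun a => by
      unfold hp
      rw [hd]
      rfl
    rw [h7, h7, h7, seg_ep d.1 d.1 (symm_pos h1) (symm_lt_one' h0) (symm_pos h3)
      (symm_lt_one' h2), cc_symm2]

theorem cc_le {a b ζ t : I} (ha : a ≤ ζ) (hb : b ≤ ζ) : cc a b t ≤ ζ := by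
  have h1 : (a : ℝ) ≤ ζ := ha
  have h2 : (b : ℝ) ≤ ζ := hb
  have h3 : (0 : ℝ) ≤ t := t.2.1
  have h4 : (t : ℝ) ≤ 1 := t.2.2
  change (1 - (t : ℝ)) * a + t * b ≤ ζ
  have h5 := mul_le_mul_of_nonneg_left h1 (sub_nonneg.2 h4)
  have h6 := mul_le_mul_of_nonneg_left h2 h3
  linarith

theorem cc_zero (a b : I) : cc a b 0 = a := by
  apply Subtype.ext
  change (1 - (0 : ℝ)) * a + 0 * b = a
  ring

theorem cc_one (a b : I) : cc a b 1 = b := by
  apply Subtype.ext
  change (1 - (1 : ℝ)) * a + 1 * b = b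
  ring

/-- a move can be made shorter -/
theorem mv_shrink {x : Fin n → Geo G} (hx : Function.Injective x) {i : Fin n} {d : Dart E}
    (hi : x i = vp G (G.vt d)) {ε ζ : I} (ha : Adm G x i d ε) (h0 : 0 < ζ) (hle : ζ ≤ ε)
    (h1 : ε < 1) {s' s'' : UConf n (Geo G)} (γ : Path (uc x hx) s')
    (hγ : ∀ t, ∃ h, γ t = uc (Function.update x i (hp G d (ε * t))) h)
    (β : Path (uc x hx) s'')
    (hβ : ∀ t, ∃ h, β t = uc (Function.update x i (hp G d (ζ * t))) h) :
    ∃ q : Path.Homotopic.Quotient s'' s', IsLin G q ∧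
      Path.Homotopic.Quotient.mk γ = (Path.Homotopic.Quotient.mk β).trans q := by
  obtain ⟨-, h2, h3⟩ := mv_ends hx hi γ hγ
  obtain ⟨-, h4, h5⟩ := mv_ends hx hi β hβ
  subst h3
  subst h5
  have hc : Cmp G (Function.update x i (hp G d ζ)) (Function.update x i (hp G d ε)) :=
    cmp_update (fun _ _ => rfl) (fun _ _ _ _ _ => Iff.rfl) h4 h2 ha ha h0 hle
      (lt_of_lt_of_le h0 hle) le_rfl h1
  obtain ⟨lam, hlam⟩ := exists_linPath' hc
  refine ⟨Path.Homotopic.Quotient.mk lam, isLin_of' hc lam hlam, ?_⟩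
  have hinj : ∀ a : I × I,
      Function.Injective (Function.update x i (hp G d (cc ζ ε a.2 * a.1))) := fun a =>
    Adm.inj hx hi (ha.mono (cc_le hle le_rfl)) a.1
  have hcont : Continuous (fun a : I × I =>
      uc (Function.update x i (hp G d (cc ζ ε a.2 * a.1))) (hinj a)) := by
    refine continuous_uc (fun (a : I × I) =>
      Function.update x i (hp G d (cc ζ ε a.2 * a.1))) (fun j => ?_) _
    by_cases hj : j = i
    · subst hj
      simp only [Function.update_self]
      refine (continuous_hp G d).comp (Continuous.mul ?_ continuous_fst)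
      refine Continuous.subtype_mk ?_ _
      fun_prop
    · simp only [Function.update_of_ne hj]
      exact continuous_const
  have hsq := square _ hcont β lam (Path.refl _) γ
    (fun t => by
      obtain ⟨h6, h7⟩ := hβ t
      rw [h7]
      refine uc_cong ?_ _ _
      simp only [cc_zero])
    (fun t => by
      rw [hlam t]
      refine uc_cong ?_ _ _
      funext j
      by_cases hj : j = i
      · subst hj
        simp only [Function.update_self]
        rw [seg_hp d h0 (lt_of_le_of_lt hle h1) (lt_of_lt_of_le h0 hle) h1, mul_one]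
      · simp only [Function.update_of_ne hj]
        exact seg_self _ _)
    (fun t => by
      refine uc_cong ?_ _ _
      simp only [mul_zero]
      rw [hp_zero, ← hi, Function.update_eq_self])
    (fun t => by
      obtain ⟨h6, h7⟩ := hγ t
      rw [h7]
      refine uc_cong ?_ _ _
      simp only [cc_one])
  rw [← Path.Homotopic.Quotient.mk_trans]
  exact (Path.Homotopic.Quotient.eq.2 (hsq.trans ⟨Path.Homotopy.reflTrans γ⟩)).symm

/-- a short move commutes with a linear path -/
theorem mv_lin {x y : Fin n → Geo G} (hc : Cmp G x y) {i : Fin n} {d : Dart E}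
    (hi : x i = vp G (G.vt d)) {ζ : I} (h0 : 0 < ζ) (h1 : (ζ : ℝ) < 1 / 2)
    (hz : ∀ j, j ≠ i → ∀ u : I, (ζ : ℝ) < dv G (G.vt d) (seg G (x j) (y j) u))
    {s₁ s₂ : UConf n (Geo G)} (β : Path (uc x hc.inj) s₁)
    (hβ : ∀ t, ∃ h, β t = uc (Function.update x i (hp G d (ζ * t))) h)
    (β' : Path (uc y hc.inj') s₂)
    (hβ' : ∀ t, ∃ h, β' t = uc (Function.update y i (hp G d (ζ * t))) h) :
    ∃ (p : Path.Homotopic.Quotient (uc x hc.inj) (uc y hc.inj'))
      (p' : Path.Homotopic.Quotient s₁ s₂), IsLin G p ∧ IsLin G p' ∧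
      p.trans (Path.Homotopic.Quotient.mk β') = (Path.Homotopic.Quotient.mk β).trans p' := by
  have hz1 : ζ < 1 := by
    change (ζ : ℝ) < 1
    linarith
  have hyi : y i = vp G (G.vt d) := by
    have h2 := hc.lab i
    rw [hi, lab_vp] at h2
    exact (lab_eq_inl G).1 h2.symm
  obtain ⟨-, h2, h3⟩ := mv_ends hc.inj hi β hβ
  obtain ⟨-, h4, h5⟩ := mv_ends hc.inj' hyi β' hβ'
  subst h3
  subst h5
  have hax : Adm G x i d ζ := adm_of h1 fun j hj => by
    have h6 := hz j hj 0
    rwa [seg_zero] at h6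
  have hay : Adm G y i d ζ := adm_of h1 fun j hj => by
    have h6 := hz j hj 1
    rwa [seg_one (hc.lab j)] at h6
  have hc' : Cmp G (Function.update x i (hp G d ζ)) (Function.update y i (hp G d ζ)) :=
    cmp_update (fun j _ => hc.lab j) (fun j k _ _ => hc.ord j k) h2 h4 hax hay h0 le_rfl h0
      le_rfl hz1
  obtain ⟨lam, hlam⟩ := exists_linPath' hc
  obtain ⟨lam', hlam'⟩ := exists_linPath' hc'
  refine ⟨Path.Homotopic.Quotient.mk lam, Path.Homotopic.Quotient.mk lam', isLin_of' hc lam hlam,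
    isLin_of' hc' lam' hlam', ?_⟩
  have hsi : ∀ u : I, seg G (x i) (y i) u = vp G (G.vt d) := fun u => by rw [hi, seg_vp]
  have hinj : ∀ a : I × I, Function.Injective
      (Function.update (fun k => seg G (x k) (y k) a.1) i (hp G d (ζ * a.2))) := fun a =>
    Adm.inj (hc.seg a.1).inj' (hsi a.1) (adm_of h1 fun j hj => hz j hj a.1) a.2
  have hcont : Continuous (fun a : I × I =>
      uc (Function.update (fun k => seg G (x k) (y k) a.1) i (hp G d (ζ * a.2))) (hinj a)) := by
    refine continuous_uc (fun (a : I × I) =>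
      Function.update (fun k => seg G (x k) (y k) a.1) i (hp G d (ζ * a.2))) (fun j => ?_) _
    by_cases hj : j = i
    · subst hj
      simp only [Function.update_self]
      exact (continuous_hp G d).comp (by fun_prop)
    · simp only [Function.update_of_ne hj]
      exact (continuous_seg (x j) (y j)).comp continuous_fst
  have hsq := square _ hcont lam β' β lam'
    (fun t => by
      rw [hlam t]
      refine uc_cong ?_ _ _
      simp only [mul_zero]
      rw [hp_zero, ← hsi t, Function.update_eq_self i (fun k => seg G (x k) (y k) t)])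
    (fun t => by
      obtain ⟨h6, h7⟩ := hβ' t
      rw [h7]
      refine uc_cong ?_ _ _
      have h8 : (fun k => seg G (x k) (y k) 1) = y := funext fun k => seg_one (hc.lab k)
      simp only [h8])
    (fun t => by
      obtain ⟨h6, h7⟩ := hβ t
      rw [h7]
      refine uc_cong ?_ _ _
      have h8 : (fun k => seg G (x k) (y k) 0) = x := funext fun k => seg_zero
      simp only [h8])
    (fun t => by
      rw [hlam' t]
      refine uc_cong ?_ _ _
      funext j
      by_cases hj : j = i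
      · subst hj
        simp only [Function.update_self]
        rw [seg_self, mul_one]
      · simp only [Function.update_of_ne hj])
  rw [← Path.Homotopic.Quotient.mk_trans, ← Path.Homotopic.Quotient.mk_trans]
  exact Path.Homotopic.Quotient.eq.2 hsq

/-- a lower bound for the distances along a linear path -/
theorem exists_dist {x y : Fin n → Geo G} (hc : Cmp G x y) {i : Fin n} {v : V}
    (hi : x i = vp G v) :
    ∃ f : Fin n → ℝ, (∀ j, 0 < f j) ∧ ∀ j, j ≠ i → ∀ u : I, f j ≤ dv G v (seg G (x j) (y j) u) := by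
  have h1 : ∀ j, ∃ r : ℝ, 0 < r ∧ (j ≠ i → ∀ u : I, r ≤ dv G v (seg G (x j) (y j) u)) := by
    intro j
    by_cases hj : j = i
    · exact ⟨1, one_pos, fun h => absurd hj h⟩
    · obtain ⟨u0, -, hu0⟩ := isCompact_univ.exists_isMinOn (s := (Set.univ : Set I))
        Set.univ_nonempty (f := fun u => dv G v (seg G (x j) (y j) u))
        ((continuous_dv G v).comp (continuous_seg (x j) (y j))).continuousOn
      refine ⟨dv G v (seg G (x j) (y j) u0), dv_pos ?_, fun _ u => hu0 (Set.mem_univ u)⟩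
      intro h
      have h2 := (hc.seg u0).lab j
      rw [h, lab_vp, lab_eq_inl] at h2
      exact hj (hc.inj (h2.trans hi.symm))
  choose f hf using h1
  exact ⟨f, fun j => (hf j).1, fun j => (hf j).2⟩

/-- naturality for compatible ordered configurations -/
theorem nat_aux {x y : Fin n → Geo G} (hc : Cmp G x y) {i : Fin n} {d : Dart E}
    (hi : x i = vp G (G.vt d)) {ε η : I} (h0 : 0 < ε) (h1 : ε < 1) (h0' : 0 < η) (h1' : η < 1)
    (ha : Adm G x i d ε) (ha' : Adm G y i d η) {s₁ s₂ s₁' s₂' : UConf n (Geo G)}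
    (γ : Path s₁ s₁') (hγ : ∀ t, ∃ h, γ t = uc (Function.update x i (hp G d (ε * t))) h)
    (γ' : Path s₂ s₂') (hγ' : ∀ t, ∃ h, γ' t = uc (Function.update y i (hp G d (η * t))) h)
    {p : Path.Homotopic.Quotient s₁ s₂} {p' : Path.Homotopic.Quotient s₁' s₂'}
    (hp : IsLin G p) (hp' : IsLin G p') :
    (Path.Homotopic.Quotient.mk γ).trans p' = p.trans (Path.Homotopic.Quotient.mk γ') := by
  have hyi : y i = vp G (G.vt d) := by
    have h2 := hc.lab i
    rw [hi, lab_vp] at h2
    exact (lab_eq_inl G).1 h2.symm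
  obtain ⟨h2, -⟩ := mv_ends hc.inj hi γ hγ
  obtain ⟨h3, -⟩ := mv_ends hc.inj' hyi γ' hγ'
  subst h2
  subst h3
  obtain ⟨f, hf, hf'⟩ := exists_dist hc hi
  obtain ⟨ζ, hz0, hz1, hz2, hz3⟩ := exists_small f hf i (min ε η) (lt_min h0 h0')
  have hzε : ζ ≤ ε := hz1.trans (min_le_left _ _)
  have hzη : ζ ≤ η := hz1.trans (min_le_right _ _)
  have hinjx := Adm.inj hc.inj hi (ha.mono hzε) 1
  have hinjy := Adm.inj hc.inj' hyi (ha'.mono hzη) 1
  rw [mul_one] at hinjx hinjy
  obtain ⟨β, hβ⟩ := exists_mvPath hc.inj hi (ha.mono hzε) hinjx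
  obtain ⟨β', hβ'⟩ := exists_mvPath hc.inj' hyi (ha'.mono hzη) hinjy
  obtain ⟨q1, hq1, hq1'⟩ := mv_shrink hc.inj hi ha hz0 hzε h1 γ hγ β hβ
  obtain ⟨q2, hq2, hq2'⟩ := mv_shrink hc.inj' hyi ha' hz0 hzη h1' γ' hγ' β' hβ'
  obtain ⟨l, l', hl, hl', hll⟩ := mv_lin hc hi hz0 hz2
    (fun j hj u => lt_of_lt_of_le (hz3 j) (hf' j hj u)) β hβ β' hβ'
  rw [hp.unique hl, hq1', hq2', Path.Homotopic.Quotient.trans_assoc,
    ← Path.Homotopic.Quotient.trans_assoc l, hll, Path.Homotopic.Quotient.trans_assoc,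
    (hq1.trans hp').unique (hl'.trans hq2)]

theorem IsMv.nat {d : Dart E} {m : Conf V E} {s₁ s₂ s₁' s₂' : UConf n (Geo G)}
    {q : Path.Homotopic.Quotient s₁ s₁'} {q' : Path.Homotopic.Quotient s₂ s₂'}
    {p : Path.Homotopic.Quotient s₁ s₂} {p' : Path.Homotopic.Quotient s₁' s₂'}
    (hq : IsMv G d m q) (hq' : IsMv G d m q') (hp : IsLin G p) (hp' : IsLin G p') :
    q.trans p' = p.trans q' := by
  obtain ⟨x, i, ε, γ, hx, hi, h0, h1, ha, hm, hγ, rfl⟩ := hq
  obtain ⟨y₀, j₀, η, γ', hy₀, hj₀, h0', h1', ha', hm', hγ', rfl⟩ := hq'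
  have htp := hp.tp
  obtain ⟨h2, -⟩ := mv_ends hx hi γ hγ
  obtain ⟨h3, -⟩ := mv_ends hy₀ hj₀ γ' hγ'
  rw [h2, h3, tp_uc, tp_uc] at htp
  obtain ⟨τ, hτ⟩ := exists_cmp hx hy₀ htp
  have hyj : (y₀ ∘ τ) (τ.symm j₀) = vp G (G.vt d) := by
    rw [Function.comp_apply, Equiv.apply_symm_apply, hj₀]
  have hyi : (y₀ ∘ τ) i = vp G (G.vt d) := by
    have h2 := hτ.lab i
    rw [hi, lab_vp] at h2
    exact (lab_eq_inl G).1 h2.symm
  have hji : τ.symm j₀ = i := hτ.inj' (hyj.trans hyi.symm)
  have hupd : ∀ r : Geo G, Function.update (y₀ ∘ τ) i r = (Function.update y₀ j₀ r) ∘ τ := by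
    intro r
    rw [Function.update_comp_equiv, hji]
  have hay : Adm G (y₀ ∘ τ) i d η := by
    intro k hk t h4 h5 h6
    refine ha' (τ k) (fun h7 => hk ?_) t h4 h5 h6
    rw [← hji, ← h7, Equiv.symm_apply_apply]
  refine nat_aux hτ hi h0 h1 h0' h1' ha hay γ hγ γ' (fun t => ?_) hp hp'
  obtain ⟨h4, h5⟩ := hγ' t
  have h7 : Function.Injective
      (Function.update y₀ j₀ (TP.hp G d (η * t)) ∘ τ) := h4.comp τ.injective
  rw [hupd]
  exact ⟨h7, h5.trans (uc_perm h4 τ h7).symm⟩

end TP

end GB
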