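import Pool.Agent.Helper95.GB.TP.Defs

/-! # GB/TP/Pt: points of the space of a graph

Normal form of the points, the distance from a vertex cut off at one half, half-edges.
-/

set_option autoImplicit false

namespace GB

open unitInterval Topology

namespace TP

variable {V E : Type} (G : Gr V E)

private theorem pt_nf0_rel {a b : V ⊕ E × I} (h : GeoRel G a b) : nf0 G a = nf0 G b := by
  cases h with
  | zero e => simp [nf0]
  | one e =>
    have h10 : (1 : I) ≠ 0 := by
      intro h
      have := congrArg Subtype.val h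
      norm_num at this
    simp [nf0, h10]

private theorem pt_dv0_rel (v : V) {a b : V ⊕ E × I} (h : GeoRel G a b) :
    dv0 G v a = dv0 G v b := by
  classical
  cases h with
  | zero e =>
    simp only [dv0, Set.Icc.coe_zero, sub_zero]
    by_cases h1 : G.fin e false = v
    · simp only [h1, if_true]
      split_ifs <;> norm_num
    · simp only [h1, if_false]
      split_ifs <;> norm_num
  | one e =>
    simp only [dv0, Set.Icc.coe_one, sub_self]
    by_cases h1 : G.fin e true = v
    · simp only [h1, if_true]
      split_ifs <;> norm_num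
    · simp only [h1, if_false]
      split_ifs <;> norm_num

/-- normal form -/
noncomputable def nf : Geo G → V ⊕ E × I := Quot.lift (nf0 G) (by
  intro a b h
  exact pt_nf0_rel G h)

/-- distance from a vertex, cut off at `1/2` -/
noncomputable def dv (v : V) : Geo G → ℝ := Quot.lift (dv0 G v) (by
  intro a b h
  exact pt_dv0_rel G v h)

theorem nf_vp (v : V) : nf G (vp G v) = .inl v := rfl

theorem nf_ep (e : E) (x : I) (h0 : 0 < x) (h1 : x < 1) : nf G (ep G e x) = .inr (e, x) := by
  show nf0 G (.inr (e, x)) = _
  simp [nf0, h0.ne', h1.ne]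

theorem ep_zero (e : E) : ep G e 0 = vp G (G.fin e false) := Quot.sound (.zero e)

theorem ep_one (e : E) : ep G e 1 = vp G (G.fin e true) := Quot.sound (.one e)

theorem pt_cases (p : Geo G) :
    (∃ v, p = vp G v) ∨ ∃ e x, 0 < x ∧ x < 1 ∧ p = ep G e x := by
  induction p using Quot.ind with
  | mk a =>
    rcases a with v | ⟨e, x⟩
    · exact Or.inl ⟨v, rfl⟩
    · by_cases h0 : x = 0
      · subst h0
        exact Or.inl ⟨_, ep_zero G e⟩
      · by_cases h1 : x = 1
        · subst h1
          exact Or.inl ⟨_, ep_one G e⟩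
        · exact Or.inr ⟨e, x, lt_of_le_of_ne (show (0 : I) ≤ x from x.2.1) (fun h => h0 h.symm),
            lt_of_le_of_ne (show x ≤ (1 : I) from x.2.2) h1, rfl⟩

theorem nf_inj : Function.Injective (nf G) := by
  intro p q h
  rcases pt_cases G p with ⟨v, rfl⟩ | ⟨e, x, h0, h1, rfl⟩ <;>
    rcases pt_cases G q with ⟨w, rfl⟩ | ⟨f, y, k0, k1, rfl⟩
  · rw [nf_vp, nf_vp] at h
    rw [Sum.inl.inj h]
  · rw [nf_vp, nf_ep G f y k0 k1] at h
    exact absurd h (by simp)
  · rw [nf_vp, nf_ep G e x h0 h1] at h
    exact absurd h (by simp)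
  · rw [nf_ep G e x h0 h1, nf_ep G f y k0 k1] at h
    have := Sum.inr.inj h
    rw [(Prod.mk.inj this).1, (Prod.mk.inj this).2]

theorem hp_zero (d : Dart E) : hp G d 0 = vp G (G.vt d) := by
  rcases d with ⟨e, b⟩
  cases b
  · simpa [hp, Gr.vt] using ep_zero G e
  · simpa [hp, Gr.vt] using ep_one G e

theorem continuous_ep (e : E) : Continuous (ep G e) := by
  letI : TopologicalSpace V := ⊥
  letI : TopologicalSpace E := ⊥
  have h : Continuous (fun x : I => (Sum.inr (e, x) : V ⊕ E × I)) :=
    continuous_inr.comp (by fun_prop)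
  exact continuous_quot_mk.comp h

theorem continuous_hp (d : Dart E) : Continuous (hp G d) := by
  rcases d with ⟨e, b⟩
  cases b
  · have : hp G (e, false) = ep G e := by
      funext t
      simp [hp]
    rw [this]
    exact continuous_ep G e
  · have : hp G (e, true) = ep G e ∘ σ := by
      funext t
      simp [hp]
    rw [this]
    exact (continuous_ep G e).comp continuous_symm

theorem continuous_dv (v : V) : Continuous (dv G v) := by
  classical
  letI : TopologicalSpace V := ⊥
  letI : TopologicalSpace E := ⊥
  haveI : DiscreteTopology V := ⟨rfl⟩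
  haveI : DiscreteTopology E := ⟨rfl⟩
  refine continuous_quot_lift _ ?_
  refine continuous_sum_dom.mpr ⟨continuous_of_discreteTopology, ?_⟩
  refine continuous_prod_of_discrete_left.mpr ?_
  intro e
  show Continuous (fun x : I => min (1 / 2) (min (if G.fin e false = v then (x : ℝ) else 1)
        (if G.fin e true = v then 1 - (x : ℝ) else 1)))
  refine continuous_const.min (Continuous.min ?_ ?_)
  · by_cases h : G.fin e false = v
    · simp only [h, if_true]
      exact continuous_subtype_val
    · simp only [h, if_false]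
      exact continuous_const
  · by_cases h : G.fin e true = v
    · simp only [h, if_true]
      exact continuous_const.sub continuous_subtype_val
    · simp only [h, if_false]
      exact continuous_const

private theorem pt_dv_vp (v w : V) : dv G v (vp G w) = dv0 G v (.inl w) := rfl

private theorem pt_dv_ep (v : V) (e : E) (x : I) : dv G v (ep G e x) = dv0 G v (.inr (e, x)) := rfl

theorem dv_nonneg (v : V) (p : Geo G) : 0 ≤ dv G v p := by
  classical
  induction p using Quot.ind with
  | mk a =>
    show 0 ≤ dv0 G v a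
    rcases a with w | ⟨e, x⟩
    · simp only [dv0]
      split_ifs <;> norm_num
    · have h0 := x.2.1
      have h1 := x.2.2
      simp only [dv0]
      refine le_min (by norm_num) (le_min ?_ ?_)
      · split_ifs
        · exact h0
        · norm_num
      · split_ifs
        · linarith
        · norm_num

theorem dv_ne {v w : V} (h : w ≠ v) : dv G v (vp G w) = 1 / 2 := by
  classical
  rw [pt_dv_vp]
  simp only [dv0]
  rw [if_neg h]

theorem dv_eq_zero (v : V) (p : Geo G) : dv G v p = 0 ↔ p = vp G v := by
  classical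
  constructor
  · intro h
    rcases pt_cases G p with ⟨w, rfl⟩ | ⟨e, x, h0, h1, rfl⟩
    · by_cases hw : w = v
      · rw [hw]
      · rw [dv_ne G hw] at h
        norm_num at h
    · exfalso
      rw [pt_dv_ep] at h
      simp only [dv0] at h
      have h0' : (0 : ℝ) < x := h0
      have h1' : (x : ℝ) < 1 := h1
      have h2 : (0 : ℝ) < min (1 / 2) (min (if G.fin e false = v then (x : ℝ) else 1)
        (if G.fin e true = v then 1 - (x : ℝ) else 1)) := by
        refine lt_min (by norm_num) (lt_min ?_ ?_)
        · split_ifs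
          · exact h0'
          · norm_num
        · split_ifs
          · linarith
          · norm_num
      rw [h] at h2
      exact lt_irrefl _ h2
  · rintro rfl
    rw [pt_dv_vp]
    simp [dv0]

theorem dv_hp (d : Dart E) (t : I) (ht : (t : ℝ) ≤ 1 / 2) : dv G (G.vt d) (hp G d t) = t := by
  classical
  rcases d with ⟨e, b⟩
  have h0 : (0 : ℝ) ≤ t := t.2.1
  cases b
  · have : hp G (e, false) t = ep G e t := by simp [hp]
    rw [this, pt_dv_ep]
    simp only [dv0, Gr.vt, if_true]
    rw [min_eq_right (le_trans (min_le_left _ _) ht), min_eq_left]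
    split_ifs <;> linarith
  · have : hp G (e, true) t = ep G e (σ t) := by simp [hp]
    rw [this, pt_dv_ep]
    simp only [dv0, Gr.vt, if_true, coe_symm_eq]
    have h2 : (1 : ℝ) - (1 - t) = t := by ring
    rw [h2]
    rw [min_eq_right (le_trans (min_le_right _ _) ht), min_eq_right]
    split_ifs <;> linarith

theorem of_dv_lt {v : V} {p : Geo G} (h : dv G v p < 1 / 2) : p = vp G v ∨
    ∃ (d : Dart E) (t : I), G.vt d = v ∧ 0 < t ∧ (t : ℝ) < 1 / 2 ∧ p = hp G d t := by
  classical
  rcases pt_cases G p with ⟨w, rfl⟩ | ⟨e, x, h0, h1, rfl⟩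
  · left
    by_cases hw : w = v
    · rw [hw]
    · rw [dv_ne G hw] at h
      exact absurd h (lt_irrefl _)
  · right
    rw [pt_dv_ep] at h
    simp only [dv0] at h
    have h0' : (0 : ℝ) < x := h0
    have h1' : (x : ℝ) < 1 := h1
    rcases min_lt_iff.mp h with h2 | h2
    · exact absurd h2 (lt_irrefl _)
    · rcases min_lt_iff.mp h2 with h3 | h3
      · split_ifs at h3 with hv
        · exact ⟨(e, false), x, hv, h0, h3, by simp [hp]⟩
        · norm_num at h3
      · split_ifs at h3 with hv
        · refine ⟨(e, true), σ x, hv, ?_, ?_, ?_⟩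
          · show (0 : ℝ) < ((σ x : I) : ℝ)
            rw [coe_symm_eq]
            linarith
          · rw [coe_symm_eq]
            exact h3
          · simp [hp]
        · norm_num at h3

/-- `hp d t` for `0 < t < 1` is in the open edge -/
theorem hp_mem (d : Dart E) (t : I) (h0 : 0 < t) (h1 : t < 1) :
    ∃ x, 0 < x ∧ x < 1 ∧ hp G d t = ep G d.1 x := by
  rcases d with ⟨e, b⟩
  have h0' : (0 : ℝ) < t := h0
  have h1' : (t : ℝ) < 1 := h1
  cases b
  · exact ⟨t, h0, h1, by simp [hp]⟩
  · refine ⟨σ t, ?_, ?_, by simp [hp]⟩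
    · show (0 : ℝ) < ((σ t : I) : ℝ)
      rw [coe_symm_eq]
      linarith
    · show ((σ t : I) : ℝ) < 1
      rw [coe_symm_eq]
      linarith

theorem hp_inj {d d' : Dart E} {t t' : I} (h0 : 0 < t) (h1 : (t : ℝ) < 1 / 2)
    (h1' : (t' : ℝ) < 1 / 2) (h : hp G d t = hp G d' t') : d = d' ∧ t = t' := by
  have h0r : (0 : ℝ) < t := h0
  have ht1 : t < 1 := by
    show (t : ℝ) < 1
    linarith
  have ht'1 : t' < 1 := by
    show (t' : ℝ) < 1
    linarith
  have h0' : 0 < t' := by
    rcases eq_or_lt_of_le (show (0 : I) ≤ t' from t'.2.1) with h' | h'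
    · exfalso
      rw [← h', hp_zero] at h
      obtain ⟨x, hx0, hx1, hx⟩ := hp_mem G d t h0 ht1
      rw [hx] at h
      have := congrArg (nf G) h
      rw [nf_ep G _ x hx0 hx1, nf_vp] at this
      exact absurd this (by simp)
    · exact h'
  rcases d with ⟨e, b⟩
  rcases d' with ⟨e', b'⟩
  have key : ∀ (e : E) (b : Bool) (t : I), 0 < t → t < 1 →
      nf G (hp G (e, b) t) = .inr (e, if b then σ t else t) := by
    intro e b t h0 h1
    have h0' : (0 : ℝ) < t := h0
    have h1' : (t : ℝ) < 1 := h1
    cases b
    · simpa [hp] using nf_ep G e t h0 h1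
    · have : hp G (e, true) t = ep G e (σ t) := by simp [hp]
      rw [this, nf_ep G e (σ t)]
      · simp
      · show (0 : ℝ) < ((σ t : I) : ℝ)
        rw [coe_symm_eq]
        linarith
      · show ((σ t : I) : ℝ) < 1
        rw [coe_symm_eq]
        linarith
  have h2 := congrArg (nf G) h
  rw [key e b t h0 ht1, key e' b' t' h0' ht'1] at h2
  have h3 := Prod.mk.inj (Sum.inr.inj h2)
  have h4 := congrArg Subtype.val h3.2
  cases b <;> cases b'
  · refine ⟨by rw [h3.1], ?_⟩
    simpa using h3.2
  · exfalso
    simp at h4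
    linarith
  · exfalso
    simp at h4
    linarith
  · refine ⟨by rw [h3.1], ?_⟩
    have h5 : σ t = σ t' := by simpa using h3.2
    exact symm_bijective.injective h5

/-- the stars of radius `1/2` of two vertices are disjoint -/
theorem dv_disj {v w : V} {p : Geo G} (h : dv G v p < 1 / 2) (h' : dv G w p < 1 / 2) :
    v = w := by
  rcases of_dv_lt G h with rfl | ⟨d, t, hd, ht0, ht, rfl⟩
  · by_contra hne
    rw [dv_ne G hne] at h'
    exact lt_irrefl _ h'
  · rcases of_dv_lt G h' with h2 | ⟨d', t', hd', ht0', ht', h2⟩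
    · exfalso
      obtain ⟨x, hx0, hx1, hx⟩ := hp_mem G d t ht0 (by
        show (t : ℝ) < 1
        linarith)
      rw [hx] at h2
      have := congrArg (nf G) h2
      rw [nf_ep G _ x hx0 hx1, nf_vp] at this
      exact absurd this (by simp)
    · obtain ⟨h3, _⟩ := hp_inj G ht0 ht ht' h2
      rw [← hd, ← hd', h3]

end TP

end GB
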