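import Pool.Agent.Helper95.GB.TP.LamC
import Pool.Agent.Helper95.GB.TP.Hol
import Pool.Agent.Helper95.GB.TP.Lin3
import Pool.Agent.Helper95.GB.TP.Mv

/-! # GB/TP/Sys: the transition system on the configuration space 

For each `s` choose an ordered representative `Z s` (`uc (Z s) = s`, `uc_surj`) and balls `B s` around it (`exists_balls`).  `N s = CR (B s)` (`CR_open`).
`Pts y = {p | ∃ x hx i, y = uc x hx ∧ x i = p}`.
`Ms s y : Finset (Dart E) = univ.filter (fun d => ∃ i (t : I), 0 < t ∧ (t : ℝ) < 1/2 ∧ Z s i = vp (vt d) ∧ hp d t ∈ B s i ∧ hp d t ∈ Pts y)`, `lam s y = lc (tp s) (Ms s y)` with `lc` of `exists_lamC`.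
Let `y = uc w`, `w i ∈ B s i` (`y ∈ N s`).  As the balls are disjoint, `w i` is the only element of `Pts y` in `B s i`, so
(A) `d ∈ Ms s y` iff there is `i` with `Z s i = vp (vt d)` and `w i = hp d t` for some `0 < t < 1/2`.
(B) `Val (tp s) (Ms s y)` and `mvS (tp s) (Ms s y) = tp y`: for the `i` with `Z s i = vp v` either `w i = vp v` or `w i = hp d t`, `vt d = v`, `0 < t < 1/2` (`Good`, `of_dv_lt`), with a unique `d`
(`hp_inj`); for the other `i` `w i` and `Z s i` are in the same open edge.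
(C) for `y'` near `y`: `Ms s y' = Ms s y ∪ Ms y y'`, a disjoint union, and `y' ∈ N s`.  Choose the numbering of `Z y` such that `Z y i ∈ B s i`, that is, replace `w` by `Z y ∘ τ` and let `B' i = B y (τ i)`, a ball
around `w i`.  Let `U i = B s i ∩ B' i ∩ H i` with `H i = hp d '' Ioo 0 (1/2)` (open, `iv_open`) if `Z s i = vp v`, `w i = hp d t`, `0 < t < 1/2`, and `H i = univ` otherwise; `w i ∈ U i`, `CR U` is an open
neighbourhood of `y` (`U i ⊆ B s i` are disjoint).  Let `y' = uc w'`, `w' i ∈ U i`.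
 `d ∈ Ms s y'`: `Z s i = vp (vt d)`, `w' i = hp d t'`.  If `w i = vp (vt d)` then `d ∈ Ms y y'` by (A) for `y`.  Otherwise `w i = hp d₁ t₁`, `w' i ∈ H i = hp d₁ '' Ioo 0 (1/2)`, `hp_inj`: `d = d₁ ∈ Ms s y`.
 `d ∈ Ms s y`: `w i = hp d t`, `w' i ∈ H i` is `hp d t'`, so `d ∈ Ms s y'`.  `d ∈ Ms y y'`: `w j = vp (vt d)`, `w' j = hp d t'`; `w j ∈ B s j` is a vertex, so `B s j` is a star at this vertex (`Good`; `dv_ne`),
`Z s j = vp (vt d)`, so `d ∈ Ms s y'`.  Disjoint: in the first case `w i` is not a vertex, in the second it is.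
`coc`: (C), (B) and the third property of `lc`.
`exists_sys`, first property: `tp y = tp s` implies `Ms s y = ∅` (`chart_cmp`).  Second property: `s = uc x`; let `Z s = x ∘ τ`, `i₀ = τ⁻¹ i`.  `B s i₀` is the star of some radius `r ≤ 1/2` at `v = vt d`; for
`t < r`: `hp d t ∈ B s i₀`, so `uc (update x i (hp d t)) ∈ N s`, and for `t > 0` `Ms s (uc (update x i (hp d t))) = {d}` by (A).  `(tpO x).occ.erase v = (tpE i x).occ`, `(tpO x).num = (tpE i x).num` (`tpO_vertex`).
-/

set_option autoImplicit false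

namespace GB

open unitInterval Topology

namespace TP

variable {V E : Type} [DecidableEq V] [Finite E] (G : Gr V E) {n : ℕ}

section

omit [DecidableEq V] [Finite E] in
private theorem vp_inj {v w : V} (h : vp G v = vp G w) : v = w := by
  have h1 := congrArg (nf G) h
  rw [nf_vp, nf_vp] at h1
  exact Sum.inl_injective h1

omit [DecidableEq V] [Finite E] in
private theorem vp_ne_ep {v : V} {e : E} {x : I} (h0 : 0 < x) (h1 : x < 1) :
    vp G v ≠ ep G e x := by
  intro h
  have h2 := congrArg (nf G) h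
  rw [nf_vp, nf_ep G e x h0 h1] at h2
  exact absurd h2 (by simp)

omit [DecidableEq V] [Finite E] in
private theorem vp_ne_hp {v : V} {d : Dart E} {t : I} (h0 : 0 < t) (h1 : (t : ℝ) < 1 / 2) :
    vp G v ≠ hp G d t := by
  intro h
  have h2 : t < 1 := by
    rw [← Subtype.coe_lt_coe]
    exact lt_trans h1 (by norm_num)
  obtain ⟨x, hx0, hx1, hx⟩ := hp_mem G d t h0 h2
  rw [hx] at h
  exact vp_ne_ep G hx0 hx1 h

omit [DecidableEq V] [Finite E] in
/-- the ball around a vertex -/
private theorem good_vertex {p : Geo G} {B : Set (Geo G)} (hg : Good G p B) {v : V}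
    (hp : p = vp G v) : ∃ r : ℝ, 0 < r ∧ r ≤ 1 / 2 ∧ B = {q | dv G v q < r} := by
  rcases hg with ⟨w, r, hw, hr0, hr, hB⟩ | ⟨e, u, a, b, hu, hau, hub, hB⟩
  · have h1 : v = w := vp_inj G (hp.symm.trans hw)
    rw [h1]
    exact ⟨r, hr0, hr, hB⟩
  · exfalso
    rw [hp] at hu
    exact vp_ne_ep G ((zero_le (a := a)).trans_lt hau) (hub.trans_le (le_one' (t := b))) hu

omit [DecidableEq V] [Finite E] in
/-- a vertex in the ball is the centre of the ball -/
private theorem good_mem {p : Geo G} {B : Set (Geo G)} (hg : Good G p B) {v : V}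
    (hv : vp G v ∈ B) : p = vp G v := by
  rcases hg with ⟨w, r, hw, hr0, hr, hB⟩ | ⟨e, u, a, b, hu, hau, hub, hB⟩
  · rw [hB] at hv
    by_cases h : v = w
    · rw [h]; exact hw
    · exfalso
      have h1 : dv G w (vp G v) < r := hv
      rw [dv_ne G h] at h1
      linarith
  · exfalso
    rw [hB] at hv
    obtain ⟨c, hc, hc'⟩ := hv
    exact vp_ne_ep G ((zero_le (a := a)).trans_lt hc.1) (hc.2.trans_le (le_one' (t := b)))
      hc'.symm

omit [DecidableEq V] [Finite E] in
/-- points in the ball around a vertex -/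
private theorem good_cases {p q : Geo G} {B : Set (Geo G)} (hg : Good G p B) (hq : q ∈ B) {v : V}
    (hv : p = vp G v) : q = vp G v ∨
      ∃ (d : Dart E) (t : I), G.vt d = v ∧ 0 < t ∧ (t : ℝ) < 1 / 2 ∧ q = hp G d t := by
  obtain ⟨r, hr0, hr, hB⟩ := good_vertex G hg hv
  rw [hB] at hq
  have h1 : dv G v q < r := hq
  exact of_dv_lt G (h1.trans_le hr)

/-- the half-edges into which the points of the configuration `y` near the vertices in `z` have
moved -/
private noncomputable def MM (z : Fin n → Geo G) (B : Fin n → Set (Geo G))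
    (y : UConf n (Geo G)) : Finset (Dart E) :=
  (Set.toFinite {d : Dart E | ∃ (i : Fin n) (t : I), 0 < t ∧ (t : ℝ) < 1 / 2 ∧
    z i = vp G (G.vt d) ∧ hp G d t ∈ B i ∧ ∃ (x : Fin n → Geo G) (hx : Function.Injective x)
      (j : Fin n), y = uc x hx ∧ x j = hp G d t}).toFinset

omit [DecidableEq V] in
private theorem mem_MM {z : Fin n → Geo G} {B : Fin n → Set (Geo G)}
    (hd : ∀ i j, i ≠ j → Disjoint (B i) (B j)) {w : Fin n → Geo G} (hw : Function.Injective w)
    (hwB : ∀ i, w i ∈ B i) (d : Dart E) : d ∈ MM G z B (uc w hw) ↔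
      ∃ (i : Fin n) (t : I), z i = vp G (G.vt d) ∧ 0 < t ∧ (t : ℝ) < 1 / 2 ∧ w i = hp G d t := by
  rw [MM, Set.Finite.mem_toFinset]
  constructor
  · rintro ⟨i, t, h0, h1, h2, h3, x, hx, j, h4, h5⟩
    obtain ⟨τ, hτ⟩ := (uc_eq hx hw).1 h4.symm
    have h6 : w (τ.symm j) = hp G d t := by
      rw [hτ]
      simp [h5]
    have h7 : i = τ.symm j := by
      by_contra hne
      have h8 := hwB (τ.symm j)
      rw [h6] at h8
      exact Set.disjoint_left.1 (hd _ _ hne) h3 h8
    rw [← h7] at h6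
    exact ⟨i, t, h2, h0, h1, h6⟩
  · rintro ⟨i, t, h2, h0, h1, h6⟩
    refine ⟨i, t, h0, h1, h2, ?_, w, hw, i, rfl, h6⟩
    rw [← h6]
    exact hwB i

omit [DecidableEq V] in
private theorem MM_perm (z : Fin n → Geo G) (B : Fin n → Set (Geo G)) (y : UConf n (Geo G))
    (τ : Equiv.Perm (Fin n)) : MM G (z ∘ τ) (B ∘ τ) y = MM G z B y := by
  ext d
  rw [MM, MM, Set.Finite.mem_toFinset, Set.Finite.mem_toFinset]
  constructor
  · rintro ⟨i, t, h0, h1, h2, h3, h4⟩
    exact ⟨τ i, t, h0, h1, h2, h3, h4⟩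
  · rintro ⟨i, t, h0, h1, h2, h3, h4⟩
    refine ⟨τ.symm i, t, h0, h1, ?_, ?_, h4⟩
    · simp [h2]
    · simp [h3]

private theorem MM_val [DecidableEq E] {z : Fin n → Geo G} (hz : Function.Injective z)
    {B : Fin n → Set (Geo G)} (hd : ∀ i j, i ≠ j → Disjoint (B i) (B j))
    {w : Fin n → Geo G} (hw : Function.Injective w) (hwB : ∀ i, w i ∈ B i) :
    Val G (tpO G z) (MM G z B (uc w hw)) := by
  constructor
  · intro d h
    obtain ⟨i, t, h1, -⟩ := (mem_MM G hd hw hwB d).1 h
    exact (mem_occ G z _).2 ⟨i, h1⟩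
  · intro d h d' h' hdd
    obtain ⟨i, t, h1, h2, h3, h4⟩ := (mem_MM G hd hw hwB d).1 h
    obtain ⟨i', t', h1', h2', h3', h4'⟩ := (mem_MM G hd hw hwB d').1 h'
    have h5 : i = i' := hz (by rw [h1, h1', hdd])
    rw [← h5, h4] at h4'
    exact (hp_inj G h2 h3 h3' h4').1

omit [DecidableEq V] [Finite E] in
private theorem nm_hp (d : Dart E) (t : I) (h0 : 0 < t) (h1 : (t : ℝ) < 1 / 2) :
    nm G (hp G d t) = δ d.1 := by
  have h2 : t < 1 := by
    rw [← Subtype.coe_lt_coe]
    exact lt_trans h1 (by norm_num)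
  obtain ⟨x, hx0, hx1, hx⟩ := hp_mem G d t h0 h2
  rw [hx, nm, nf_ep G d.1 x hx0 hx1]

private theorem MM_mvS [DecidableEq E] {z : Fin n → Geo G} (hz : Function.Injective z)
    {B : Fin n → Set (Geo G)} (hg : ∀ i, Good G (z i) (B i))
    (hd : ∀ i j, i ≠ j → Disjoint (B i) (B j))
    {w : Fin n → Geo G} (hw : Function.Injective w) (hwB : ∀ i, w i ∈ B i) :
    mvS G (tpO G z) (MM G z B (uc w hw)) = tpO G w := by
  classical
  apply Conf.ext
  · ext v
    change v ∈ (tpO G z).occ \ (MM G z B (uc w hw)).image G.vt ↔ _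
    rw [Finset.mem_sdiff, mem_occ, mem_occ, Finset.mem_image]
    constructor
    · rintro ⟨⟨i, hi⟩, h⟩
      rcases good_cases G (hg i) (hwB i) hi with h1 | ⟨d, t, h1, h2, h3, h4⟩
      · exact ⟨i, h1⟩
      · exact absurd ⟨d, (mem_MM G hd hw hwB d).2 ⟨i, t, by rw [h1]; exact hi, h2, h3, h4⟩, h1⟩ h
    · rintro ⟨j, hj⟩
      have h1 : z j = vp G v := good_mem G (hg j) (by rw [← hj]; exact hwB j)
      refine ⟨⟨j, h1⟩, ?_⟩
      rintro ⟨d, h2, h3⟩
      obtain ⟨i, t, h4, h5, h6, h7⟩ := (mem_MM G hd hw hwB d).1 h2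
      have h8 : i = j := hz (by rw [h4, h1, h3])
      rw [h8, hj] at h7
      exact vp_ne_hp G h5 h6 h7
  · change (∑ i, nm G (z i)) + ∑ d ∈ MM G z B (uc w hw), δ d.1 = ∑ i, nm G (w i)
    have h1 : ∑ d ∈ MM G z B (uc w hw), (δ d.1 : E →₀ ℕ) =
        ∑ i, ∑ d ∈ MM G z B (uc w hw), if z i = vp G (G.vt d) then (δ d.1 : E →₀ ℕ) else 0 := by
      rw [Finset.sum_comm]
      apply Finset.sum_congr rfl
      intro d h
      obtain ⟨i, t, h4, h5, h6, h7⟩ := (mem_MM G hd hw hwB d).1 h
      rw [Finset.sum_eq_single i]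
      · rw [if_pos h4]
      · intro j _ hj
        rw [if_neg]
        intro h8
        exact hj (hz (h8.trans h4.symm))
      · intro h8
        exact absurd (Finset.mem_univ i) h8
    rw [h1, ← Finset.sum_add_distrib]
    apply Finset.sum_congr rfl
    intro i _
    rcases hg i with ⟨v, r, hv, hr0, hr, hB⟩ | ⟨e, u, a, b, hu, hau, hub, hB⟩
    · have h2 : nm G (z i) = 0 := by
        rw [hv, nm, nf_vp]
      rw [h2, zero_add]
      rcases good_cases G (hg i) (hwB i) hv with h3 | ⟨d, t, h3, h4, h5, h6⟩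
      · have h4 : nm G (w i) = 0 := by
          rw [h3, nm, nf_vp]
        rw [h4]
        apply Finset.sum_eq_zero
        intro d h
        rw [if_neg]
        intro h5
        obtain ⟨j, t, h6, h7, h8, h9⟩ := (mem_MM G hd hw hwB d).1 h
        have h10 : j = i := hz (h6.trans h5.symm)
        rw [h10, h3] at h9
        exact vp_ne_hp G h7 h8 h9
      · rw [h6, nm_hp G d t h4 h5, Finset.sum_eq_single d]
        · rw [if_pos (by rw [h3]; exact hv)]
        · intro d' h hne
          rw [if_neg]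
          intro h7
          obtain ⟨j, t', h8, h9, h10, h11⟩ := (mem_MM G hd hw hwB d').1 h
          have h12 : j = i := hz (h8.trans h7.symm)
          rw [h12, h6] at h11
          exact hne (hp_inj G h4 h5 h10 h11).1.symm
        · intro h7
          exact absurd ((mem_MM G hd hw hwB d).2 ⟨i, t, by rw [h3]; exact hv, h4, h5, h6⟩) h7
    · have h2 := hwB i
      rw [hB] at h2
      obtain ⟨c, hc, hc'⟩ := h2
      have h0u : 0 < u := (zero_le (a := a)).trans_lt hau
      have hu1 : u < 1 := hub.trans_le (le_one' (t := b))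
      have h3 : nm G (z i) = δ e := by
        rw [hu, nm, nf_ep G e u h0u hu1]
      have h4 : nm G (w i) = δ e := by
        rw [← hc', nm, nf_ep G e c ((zero_le (a := a)).trans_lt hc.1) (hc.2.trans_le (le_one' (t := b)))]
      rw [h3, h4, Finset.sum_eq_zero, add_zero]
      intro d _
      rw [if_neg]
      intro h5
      rw [hu] at h5
      exact vp_ne_ep G h0u hu1 h5.symm

omit [DecidableEq V] [Finite E] in
private theorem hp_open (d : Dart E) :
    IsOpen {p | ∃ t : I, 0 < t ∧ (t : ℝ) < 1 / 2 ∧ p = hp G d t} := by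
  let hf : I := ⟨1 / 2, by norm_num, by norm_num⟩
  obtain ⟨e, b⟩ := d
  cases b with
  | false =>
    have h1 : {p | ∃ t : I, 0 < t ∧ (t : ℝ) < 1 / 2 ∧ p = hp G (e, false) t} =
        ep G e '' Set.Ioo 0 hf := by
      ext p
      constructor
      · rintro ⟨t, h0, h1, h2⟩
        exact ⟨t, ⟨h0, h1⟩, h2.symm⟩
      · rintro ⟨t, ⟨h0, h1⟩, h2⟩
        exact ⟨t, h0, h1, h2.symm⟩
    rw [h1]
    exact iv_open G e _ _
  | true =>
    have h1 : {p | ∃ t : I, 0 < t ∧ (t : ℝ) < 1 / 2 ∧ p = hp G (e, true) t} =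
        ep G e '' Set.Ioo hf 1 := by
      ext p
      constructor
      · rintro ⟨t, h0, h1, h2⟩
        refine ⟨σ t, ⟨?_, ?_⟩, h2.symm⟩
        · rw [← Subtype.coe_lt_coe, coe_symm_eq]
          change (1 / 2 : ℝ) < 1 - t
          linarith
        · rw [← Subtype.coe_lt_coe, coe_symm_eq]
          have : (0 : ℝ) < t := h0
          change 1 - (t : ℝ) < 1
          linarith
      · rintro ⟨t, ⟨h0, h1⟩, h2⟩
        refine ⟨σ t, ?_, ?_, ?_⟩
        · rw [← Subtype.coe_lt_coe, coe_symm_eq]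
          have : (t : ℝ) < 1 := h1
          change (0 : ℝ) < 1 - t
          linarith
        · rw [coe_symm_eq]
          have : (1 / 2 : ℝ) < t := h0
          linarith
        · rw [← h2, hp]
          simp
    rw [h1]
    exact iv_open G e _ _

omit [DecidableEq V] [Finite E] in
private theorem exists_H (p : Geo G) : ∃ H : Set (Geo G), IsOpen H ∧ p ∈ H ∧
    ∀ (d : Dart E) (t : I), 0 < t → (t : ℝ) < 1 / 2 → p = hp G d t → ∀ q ∈ H,
      ∃ t' : I, 0 < t' ∧ (t' : ℝ) < 1 / 2 ∧ q = hp G d t' := by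
  by_cases h : ∃ (d : Dart E) (t : I), 0 < t ∧ (t : ℝ) < 1 / 2 ∧ p = hp G d t
  · obtain ⟨d, t, h0, h1, h2⟩ := h
    refine ⟨_, hp_open G d, ⟨t, h0, h1, h2⟩, ?_⟩
    intro d' t' h0' h1' h2' q hq
    rw [h2] at h2'
    rw [← (hp_inj G h0 h1 h1' h2').1]
    exact hq
  · refine ⟨Set.univ, isOpen_univ, Set.mem_univ _, ?_⟩
    intro d t h0 h1 h2
    exact absurd ⟨d, t, h0, h1, h2⟩ h

private theorem MM_coc [DecidableEq E] {z : Fin n → Geo G} (hz : Function.Injective z)
    {B : Fin n → Set (Geo G)} (hg : ∀ i, Good G (z i) (B i)) (hB : ∀ i, IsOpen (B i))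
    (hd : ∀ i j, i ≠ j → Disjoint (B i) (B j))
    {w : Fin n → Geo G} (hw : Function.Injective w) (hwB : ∀ i, w i ∈ B i)
    {B' : Fin n → Set (Geo G)} (hB' : ∀ i, IsOpen (B' i)) (hm' : ∀ i, w i ∈ B' i)
    (hd' : ∀ i j, i ≠ j → Disjoint (B' i) (B' j)) :
    ∀ᶠ y' in 𝓝 (uc w hw), MM G z B y' = MM G z B (uc w hw) ∪ MM G w B' y' ∧
      Disjoint (MM G z B (uc w hw)) (MM G w B' y') ∧
      Val G (tpO G z) (MM G z B y') := by
  choose H hH1 hH2 hH3 using fun i => exists_H G (w i)
  let U : Fin n → Set (Geo G) := fun i => B i ∩ B' i ∩ H i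
  have hUo : ∀ i, IsOpen (U i) := fun i => ((hB i).inter (hB' i)).inter (hH1 i)
  have hUd : ∀ i j, i ≠ j → Disjoint (U i) (U j) := fun i j hij =>
    (hd i j hij).mono (fun _ h => h.1.1) (fun _ h => h.1.1)
  have hUm : ∀ i, w i ∈ U i := fun i => ⟨⟨hwB i, hm' i⟩, hH2 i⟩
  have hn : CR U ∈ 𝓝 (uc w hw) := (CR_open U hUo hUd).mem_nhds ⟨w, hw, rfl, hUm⟩
  filter_upwards [hn] with y' hy'
  obtain ⟨w', hw', rfl, hU⟩ := hy'
  have hw'B : ∀ i, w' i ∈ B i := fun i => (hU i).1.1
  have hw'B' : ∀ i, w' i ∈ B' i := fun i => (hU i).1.2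
  refine ⟨?_, ?_, MM_val G hz hd hw' hw'B⟩
  · ext d
    rw [Finset.mem_union, mem_MM G hd hw' hw'B, mem_MM G hd hw hwB, mem_MM G hd' hw' hw'B']
    constructor
    · rintro ⟨i, t', h1, h2, h3, h4⟩
      rcases good_cases G (hg i) (hwB i) h1 with h5 | ⟨d₁, t₁, h5, h6, h7, h8⟩
      · exact Or.inr ⟨i, t', h5, h2, h3, h4⟩
      · obtain ⟨t'', h9, h10, h11⟩ := hH3 i d₁ t₁ h6 h7 h8 (w' i) (hU i).2
        rw [h4] at h11
        have h12 := (hp_inj G h2 h3 h10 h11).1
        rw [← h12] at h8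
        exact Or.inl ⟨i, t₁, h1, h6, h7, h8⟩
    · rintro (⟨i, t, h1, h2, h3, h4⟩ | ⟨i, t, h1, h2, h3, h4⟩)
      · obtain ⟨t', h5, h6, h7⟩ := hH3 i d t h2 h3 h4 (w' i) (hU i).2
        exact ⟨i, t', h1, h5, h6, h7⟩
      · exact ⟨i, t, good_mem G (hg i) (by rw [← h1]; exact hwB i), h2, h3, h4⟩
  · rw [Finset.disjoint_left]
    intro d h h'
    obtain ⟨i, t, h1, h2, h3, h4⟩ := (mem_MM G hd hw hwB d).1 h
    obtain ⟨j, t', h1', h2', h3', h4'⟩ := (mem_MM G hd' hw' hw'B' d).1 h'
    have h5 : z j = vp G (G.vt d) := good_mem G (hg j) (by rw [← h1']; exact hwB j)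
    have h6 : i = j := hz (h1.trans h5.symm)
    rw [h6, h1'] at h4
    exact vp_ne_hp G h2 h3 h4

end

theorem exists_sys {L : Type} [Group L] (gg : Dart E → Finset V → (E →₀ ℕ) → L)
    (hg : GRel G gg) : ∃ Λ : LamSys (UConf n (Geo G)) L,
      (∀ s y, y ∈ Λ.N s → tp G y = tp G s → Λ.lam s y = 1) ∧
      ∀ (x : Fin n → Geo G) (hx : Function.Injective x) (i : Fin n) (d : Dart E),
        x i = vp G (G.vt d) → ∃ ε₀ : I, 0 < ε₀ ∧
          (∀ t : I, t ≤ ε₀ → ∀ h, uc (Function.update x i (hp G d t)) h ∈ Λ.N (uc x hx)) ∧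
          ∀ ε : I, 0 < ε → ε ≤ ε₀ → ∀ h,
            Λ.lam (uc x hx) (uc (Function.update x i (hp G d ε)) h) =
              gg d (tpE G i x).occ (tpE G i x).num := by
  classical
  obtain ⟨lc, hlc1, hlc2, hlc3⟩ := exists_lamC G gg hg
  choose Z hZi hZs using fun s : UConf n (Geo G) => uc_surj s
  choose B hgood hopen hmem hcontr hdisj using fun s : UConf n (Geo G) =>
    exists_balls G (Z s) (hZi s)
  have htp : ∀ s, tp G s = tpO G (Z s) := fun s => by
    conv_lhs => rw [hZs s]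
    exact tp_uc G _ _
  let Λ : LamSys (UConf n (Geo G)) L :=
    { N := fun s => CR (B s)
      isOpen := fun s => CR_open (B s) (hopen s) (hdisj s)
      mem := fun s => ⟨Z s, hZi s, hZs s, hmem s⟩
      lam := fun s y => lc (tpO G (Z s)) (MM G (Z s) (B s) y)
      coc := by
        rintro s y ⟨w, hw, rfl, hwB⟩
        obtain ⟨τ, hτ⟩ := (uc_eq (hZi (uc w hw)) hw).1 (hZs (uc w hw)).symm
        have h1 := MM_coc G (hZi s) (hgood s) (hopen s) (hdisj s) hw hwB
          (B' := B (uc w hw) ∘ τ) (fun i => hopen _ (τ i))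
          (fun i => by
            have h2 := hmem (uc w hw) (τ i)
            have h3 : w i = Z (uc w hw) (τ i) := congrFun hτ i
            rw [h3]
            exact h2)
          (fun i j hij => hdisj _ _ _ (fun h => hij (τ.injective h)))
        filter_upwards [h1] with y' hy'
        obtain ⟨h2, h3, h4⟩ := hy'
        have h5 : MM G w (B (uc w hw) ∘ τ) y' = MM G (Z (uc w hw)) (B (uc w hw)) y' := by
          have h6 := MM_perm G (Z (uc w hw)) (B (uc w hw)) y' τ
          rw [← hτ] at h6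
          exact h6
        rw [h5] at h2 h3
        have h7 : mvS G (tpO G (Z s)) (MM G (Z s) (B s) (uc w hw)) = tpO G (Z (uc w hw)) := by
          rw [MM_mvS G (hZi s) (hgood s) (hdisj s) hw hwB, ← htp, tp_uc]
        rw [h2] at h4
        rw [h2, hlc3 _ _ _ h4 h3, h7] }
  refine ⟨Λ, ?_, ?_⟩
  · rintro s y ⟨w, hw, rfl, hwB⟩ h
    rw [tp_uc, htp] at h
    change lc (tpO G (Z s)) (MM G (Z s) (B s) (uc w hw)) = 1
    have h1 : MM G (Z s) (B s) (uc w hw) = ∅ := by
      rw [Finset.eq_empty_iff_forall_notMem]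
      intro d hd
      obtain ⟨i, t, h2, h3, h4, h5⟩ := (mem_MM G (hdisj s) hw hwB d).1 hd
      have h6 := lin3_chart_vertex (hZi s) (hgood s) hwB h h2
      rw [h6] at h5
      exact vp_ne_hp G h3 h4 h5
    rw [h1, hlc1]
  · intro x hx i d hxi
    obtain ⟨τ, hτ⟩ := (uc_eq hx (hZi (uc x hx))).1 (hZs (uc x hx))
    set s := uc x hx with hs
    have hZi0 : Z s (τ.symm i) = vp G (G.vt d) := by
      rw [hτ]
      simp [hxi]
    obtain ⟨r, hr0, hr, hB⟩ := good_vertex G (hgood s (τ.symm i)) hZi0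
    have hr1 : r / 2 ≤ 1 := by linarith
    have hperm : ∀ t : I, Function.update x i (hp G d t) ∘ τ =
        Function.update (Z s) (τ.symm i) (hp G d t) := by
      intro t
      funext j
      by_cases hj : j = τ.symm i
      · rw [hj]
        simp
      · have hj' : τ j ≠ i := fun h => hj (by rw [← h]; simp)
        rw [Function.comp_apply, Function.update_of_ne hj', Function.update_of_ne hj, hτ]
        rfl
    have hball : ∀ t : I, (t : ℝ) ≤ r / 2 → ∀ j,
        Function.update (Z s) (τ.symm i) (hp G d t) j ∈ B s j := by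
      intro t ht j
      by_cases hj : j = τ.symm i
      · rw [hj, Function.update_self, hB]
        change dv G (G.vt d) (hp G d t) < r
        rw [dv_hp G d t (by linarith)]
        linarith
      · rw [Function.update_of_ne hj]
        exact hmem s j
    refine ⟨⟨r / 2, by positivity, hr1⟩, ?_, ?_, ?_⟩
    · change (0 : ℝ) < r / 2
      positivity
    · intro t ht h
      have h1 : Function.Injective (Function.update x i (hp G d t) ∘ τ) :=
        h.comp τ.injective
      refine ⟨_, h1, (uc_eq h h1).2 ⟨τ, rfl⟩, fun j => ?_⟩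
      rw [hperm]
      exact hball t ht j
    · intro ε hε0 hε h
      have h1 : Function.Injective (Function.update x i (hp G d ε) ∘ τ) :=
        h.comp τ.injective
      have h2 : uc (Function.update x i (hp G d ε)) h = uc _ h1 := (uc_eq h h1).2 ⟨τ, rfl⟩
      have hε' : (ε : ℝ) ≤ r / 2 := hε
      have hε2 : (ε : ℝ) < 1 / 2 := by linarith
      have h3 : ∀ j, (Function.update x i (hp G d ε) ∘ τ) j ∈ B s j := by
        intro j
        rw [hperm]
        exact hball ε hε' j
      change lc (tpO G (Z s)) (MM G (Z s) (B s) (uc (Function.update x i (hp G d ε)) h)) = _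
      have h4 : MM G (Z s) (B s) (uc (Function.update x i (hp G d ε)) h) = {d} := by
        rw [h2]
        ext d'
        rw [mem_MM G (hdisj s) h1 h3, Finset.mem_singleton, hperm]
        constructor
        · rintro ⟨j, t, h5, h6, h7, h8⟩
          by_cases hj : j = τ.symm i
          · rw [hj, Function.update_self] at h8
            exact (hp_inj G hε0 hε2 h7 h8).1.symm
          · rw [Function.update_of_ne hj, h5] at h8
            exact absurd h8 (vp_ne_hp G h6 h7)
        · rintro rfl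
          exact ⟨τ.symm i, ε, hZi0, hε0, hε2, by rw [Function.update_self]⟩
      have h5 : tpO G (Z s) = tpO G x := by
        rw [hτ, tpO_perm]
      obtain ⟨h6, h7⟩ := tpO_vertex G hx hxi
      rw [h4, hlc2 _ d ((mem_occ G _ _).2 ⟨_, hZi0⟩), h5, h7]
      simp only
      rw [Finset.erase_insert h6]

end TP

end GB
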