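import Pool.Agent.Helper95.GB.TP.Pt
import Pool.Agent.Helper95.GB.TP.Chart

/-! # GB/TP/Tp: the combinatorial type of a configuration (stub, prove in place)

`vs p = {v}` for `p = vp v` and `∅` otherwise; `nm p = δ e` for `p` in the open edge `e` and `0` otherwise (`pt_cases`, `nf_vp`, `nf_ep`).
`tpF J x`: type of the points with index in `J`.  `tp`: `Quot.lift` (`Finset.sum` and `biUnion` over `univ` are invariant under permutations).
`tp_card`: `card = |biUnion| + ∑ = n` (for different `i` the sets `vs (x i)` are disjoint as `x` is injective; each point contributes one):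
`Finset.card_biUnion`, and the degree of `∑ nm (x i)`.
`exists_type`: list the vertices of `S.occ` and for each `e` the points `ep e ((k+1)/(S.num e + 1))`, `k < S.num e`; the total number is `n`;
numbering by `Fin n` (e.g. build the finite set of points of `Geo G` and use `Finset.equivFin`-type enumeration).
-/

set_option autoImplicit false

namespace GB

open unitInterval Topology

namespace TP

variable {V E : Type} [DecidableEq V] (G : Gr V E) {n : ℕ}

noncomputable def vs (p : Geo G) : Finset V := match nf G p with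
  | .inl v => {v}
  | .inr _ => ∅

noncomputable def nm (p : Geo G) : E →₀ ℕ := match nf G p with
  | .inl _ => 0
  | .inr (e, _) => δ e

/-- type of the points with indices in `J` -/
noncomputable def tpF (J : Finset (Fin n)) (x : Fin n → Geo G) : Conf V E :=
  ⟨J.biUnion (fun i => vs G (x i)), ∑ i ∈ J, nm G (x i)⟩

/-- type of an ordered configuration -/
noncomputable def tpO (x : Fin n → Geo G) : Conf V E := tpF G Finset.univ x

/-- type without the point `i` -/
noncomputable def tpE (i : Fin n) (x : Fin n → Geo G) : Conf V E :=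
  tpF G (Finset.univ.erase i) x

theorem tpO_perm (x : Fin n → Geo G) (τ : Equiv.Perm (Fin n)) : tpO G (x ∘ τ) = tpO G x := by
  unfold tpO tpF
  congr 1
  · ext v
    simp only [Finset.mem_biUnion, Finset.mem_univ, true_and, Function.comp_apply]
    constructor
    · rintro ⟨i, hi⟩
      exact ⟨τ i, hi⟩
    · rintro ⟨i, hi⟩
      exact ⟨τ.symm i, by rwa [Equiv.apply_symm_apply]⟩
  · exact Equiv.sum_comp τ (fun i => nm G (x i))

omit [DecidableEq V] in
private theorem tp_vs_vp (v : V) : vs G (vp G v) = {v} := by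
  unfold vs
  rw [nf_vp]

omit [DecidableEq V] in
private theorem tp_nm_vp (v : V) : nm G (vp G v) = 0 := by
  unfold nm
  rw [nf_vp]

omit [DecidableEq V] in
private theorem tp_vs_ep (e : E) (u : I) (h0 : 0 < u) (h1 : u < 1) : vs G (ep G e u) = ∅ := by
  unfold vs
  rw [nf_ep G e u h0 h1]

omit [DecidableEq V] in
private theorem tp_nm_ep (e : E) (u : I) (h0 : 0 < u) (h1 : u < 1) :
    nm G (ep G e u) = δ e := by
  unfold nm
  rw [nf_ep G e u h0 h1]

omit [DecidableEq V] in
private theorem tp_vp_inj {v w : V} (h : vp G v = vp G w) : v = w := by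
  have h1 := congrArg (nf G) h
  rw [nf_vp, nf_vp] at h1
  exact Sum.inl_injective h1

omit [DecidableEq V] in
private theorem tp_vp_ne {v : V} {e : E} {u : I} (h0 : 0 < u) (h1 : u < 1) :
    vp G v ≠ ep G e u := by
  intro h
  have h2 := congrArg (nf G) h
  rw [nf_vp, nf_ep G e u h0 h1] at h2
  exact absurd h2 (by simp)

omit [DecidableEq V] in
private theorem tp_mem_vs {p : Geo G} {v : V} : v ∈ vs G p ↔ p = vp G v := by
  rcases pt_cases G p with ⟨w, rfl⟩ | ⟨e, u, h0, h1, rfl⟩
  · rw [tp_vs_vp, Finset.mem_singleton]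
    constructor
    · rintro rfl
      rfl
    · intro h
      exact (tp_vp_inj G h).symm
  · rw [tp_vs_ep G e u h0 h1]
    constructor
    · intro h
      exact absurd h (Finset.notMem_empty _)
    · intro h
      exact absurd h.symm (tp_vp_ne G h0 h1)

/-- the type of a configuration -/
noncomputable def tp : UConf n (Geo G) → Conf V E := Quot.lift (fun x => tpO G x.1) (by
  rintro x y ⟨τ, h⟩
  change tpO G x.1 = tpO G y.1
  rw [h, tpO_perm])

theorem tp_uc (x : Fin n → Geo G) (hx : Function.Injective x) :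
    tp G (uc x hx) = tpO G x := rfl

theorem tp_card (s : UConf n (Geo G)) : (tp G s).card = n := by
  obtain ⟨x, hx, rfl⟩ := uc_surj s
  rw [tp_uc]
  have h1 : (tpO G x).occ.card = ∑ i, (vs G (x i)).card := by
    refine Finset.card_biUnion ?_
    intro i _ j _ hij
    refine Finset.disjoint_left.2 ?_
    intro v hv hv'
    rw [tp_mem_vs] at hv hv'
    exact hij (hx (hv.trans hv'.symm))
  have h2 : (tpO G x).num.sum (fun _ k => k) = ∑ i, (nm G (x i)).sum (fun _ k => k) := by
    have h3 : ∀ f : E →₀ ℕ, f.sum (fun _ k => k) = Finsupp.degree f := fun f => rfl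
    rw [h3]
    simp only [h3]
    exact map_sum Finsupp.degree _ _
  unfold Conf.card
  rw [h1, h2, ← Finset.sum_add_distrib]
  have h4 : ∀ p : Geo G, (vs G p).card + (nm G p).sum (fun _ k => k) = 1 := by
    intro p
    rcases pt_cases G p with ⟨w, rfl⟩ | ⟨e, u, h0, h1, rfl⟩
    · rw [tp_vs_vp, tp_nm_vp, Finset.card_singleton, Finsupp.sum_zero_index, add_zero]
    · rw [tp_vs_ep G e u h0 h1, tp_nm_ep G e u h0 h1, Finset.card_empty,
        Finsupp.sum_single_index rfl]
  simp only [h4]
  rw [Finset.sum_const, Finset.card_univ, Fintype.card_fin, smul_eq_mul, mul_one]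

theorem mem_occ (x : Fin n → Geo G) (v : V) : v ∈ (tpO G x).occ ↔ ∃ i, x i = vp G v := by
  unfold tpO tpF
  simp only [Finset.mem_biUnion, Finset.mem_univ, true_and, tp_mem_vs]

theorem tpO_vertex {x : Fin n → Geo G} (hx : Function.Injective x) {i : Fin n} {v : V}
    (hi : x i = vp G v) : v ∉ (tpE G i x).occ ∧
      tpO G x = ⟨insert v (tpE G i x).occ, (tpE G i x).num⟩ := by
  constructor
  · unfold tpE tpF
    simp only [Finset.mem_biUnion, tp_mem_vs, not_exists, not_and, Finset.mem_erase]
    intro j hj hjv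
    exact hj.1 (hx (hjv.trans hi.symm))
  · unfold tpO tpE tpF
    congr 1
    · conv_lhs => rw [← Finset.insert_erase (Finset.mem_univ i)]
      rw [Finset.biUnion_insert, hi, tp_vs_vp, Finset.singleton_union]
    · rw [← Finset.add_sum_erase _ _ (Finset.mem_univ i), hi, tp_nm_vp, zero_add]

theorem tpO_edge {x : Fin n → Geo G} {i : Fin n} {e : E} {u : I} (h0 : 0 < u) (h1 : u < 1)
    (hi : x i = ep G e u) : tpO G x = ⟨(tpE G i x).occ, (tpE G i x).num + δ e⟩ := by
  unfold tpO tpE tpF
  congr 1
  · conv_lhs => rw [← Finset.insert_erase (Finset.mem_univ i)]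
    rw [Finset.biUnion_insert, hi, tp_vs_ep G e u h0 h1, Finset.empty_union]
  · rw [← Finset.add_sum_erase _ _ (Finset.mem_univ i), hi, tp_nm_ep G e u h0 h1, add_comm]

theorem tpE_update (x : Fin n → Geo G) (i : Fin n) (p : Geo G) :
    tpE G i (Function.update x i p) = tpE G i x := by
  unfold tpE tpF
  congr 1
  · refine Finset.biUnion_congr rfl fun j hj => ?_
    rw [Function.update_of_ne (Finset.ne_of_mem_erase hj)]
  · refine Finset.sum_congr rfl fun j hj => ?_
    rw [Function.update_of_ne (Finset.ne_of_mem_erase hj)]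

/-- the point `(k + 1) / (m + 1)` of the interval -/
private noncomputable def tpPt (m : ℕ) (k : Fin m) : I :=
  ⟨((k : ℕ) + 1 : ℝ) / (m + 1), by
    have h : ((k : ℕ) : ℝ) ≤ m := by exact_mod_cast k.2.le
    have h' : (0 : ℝ) ≤ ((k : ℕ) : ℝ) := Nat.cast_nonneg _
    exact ⟨by positivity, by rw [div_le_one (by positivity)]; linarith⟩⟩

private theorem tpPt_pos (m : ℕ) (k : Fin m) : 0 < tpPt m k := by
  rw [← Subtype.coe_lt_coe]
  change (0 : ℝ) < ((k : ℕ) + 1 : ℝ) / (m + 1)
  positivity

private theorem tpPt_lt (m : ℕ) (k : Fin m) : tpPt m k < 1 := by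
  rw [← Subtype.coe_lt_coe]
  change ((k : ℕ) + 1 : ℝ) / (m + 1) < 1
  have h : ((k : ℕ) : ℝ) < m := by exact_mod_cast k.2
  rw [div_lt_one (by positivity)]
  linarith

private theorem tpPt_inj (m : ℕ) {k l : Fin m} (h : tpPt m k = tpPt m l) : k = l := by
  have h1 : ((k : ℕ) + 1 : ℝ) / (m + 1) = ((l : ℕ) + 1 : ℝ) / (m + 1) := congrArg Subtype.val h
  have h2 : ((m : ℝ) + 1) ≠ 0 := by positivity
  rw [div_left_inj' h2] at h1
  have h3 : ((k : ℕ) : ℝ) = (l : ℕ) := by linarith
  exact Fin.ext (by exact_mod_cast h3)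

theorem exists_type (S : Conf V E) (hS : S.card = n) :
    ∃ x : Fin n → Geo G, Function.Injective x ∧ tpO G x = S := by
  classical
  let T : Type := S.occ ⊕ (Σ e : S.num.support, Fin (S.num e))
  let f : T → Geo G := fun t => match t with
    | .inl v => vp G v
    | .inr p => ep G p.1 (tpPt _ p.2)
  have hfl : ∀ v : S.occ, f (.inl v) = vp G v := fun v => rfl
  have hfr : ∀ p : (Σ e : S.num.support, Fin (S.num e)), f (.inr p) = ep G p.1 (tpPt _ p.2) :=
    fun p => rfl
  have hf : Function.Injective f := by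
    intro a b hab
    rcases a with v | ⟨e, k⟩ <;> rcases b with w | ⟨e', k'⟩
    · rw [hfl, hfl] at hab
      rw [Subtype.ext (tp_vp_inj G hab)]
    · rw [hfl, hfr] at hab
      exact absurd hab (tp_vp_ne G (tpPt_pos _ _) (tpPt_lt _ _))
    · rw [hfl, hfr] at hab
      exact absurd hab.symm (tp_vp_ne G (tpPt_pos _ _) (tpPt_lt _ _))
    · rw [hfr, hfr] at hab
      have h1 := congrArg (nf G) hab
      rw [nf_ep G _ _ (tpPt_pos _ _) (tpPt_lt _ _), nf_ep G _ _ (tpPt_pos _ _) (tpPt_lt _ _)] at h1
      have h2 := Sum.inr_injective h1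
      have h3 : e = e' := Subtype.ext (congrArg Prod.fst h2)
      subst h3
      have h4 : k = k' := tpPt_inj _ (congrArg Prod.snd h2)
      rw [h4]
  have hcard : Fintype.card T = n := by
    rw [← hS]
    unfold Conf.card
    change Fintype.card (S.occ ⊕ (Σ e : S.num.support, Fin (S.num e))) = _
    rw [Fintype.card_sum, Fintype.card_coe, Fintype.card_sigma]
    simp only [Fintype.card_fin]
    rw [Finset.sum_coe_sort S.num.support (fun e => S.num e)]
    rfl
  let eq : Fin n ≃ T := (Fintype.equivFinOfCardEq hcard).symm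
  refine ⟨f ∘ eq, hf.comp eq.injective, ?_⟩
  apply Conf.ext
  · ext v
    rw [mem_occ]
    constructor
    · rintro ⟨i, hi⟩
      have h1 : f (eq i) = vp G v := hi
      rcases h2 : eq i with w | p
      · rw [h2, hfl] at h1
        rw [← tp_vp_inj G h1]
        exact w.2
      · rw [h2, hfr] at h1
        exact absurd h1.symm (tp_vp_ne G (tpPt_pos _ _) (tpPt_lt _ _))
    · intro hv
      refine ⟨eq.symm (.inl ⟨v, hv⟩), ?_⟩
      change f (eq (eq.symm _)) = _
      rw [Equiv.apply_symm_apply, hfl]
  · change ∑ i, nm G (f (eq i)) = S.num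
    rw [Equiv.sum_comp eq (fun t => nm G (f t))]
    change ∑ t : S.occ ⊕ (Σ e : S.num.support, Fin (S.num e)), nm G (f t) = S.num
    rw [Fintype.sum_sum_type, Fintype.sum_sigma]
    have h1 : ∀ v : S.occ, nm G (f (.inl v)) = 0 := fun v => by rw [hfl, tp_nm_vp]
    have h2 : ∀ (e : S.num.support) (k : Fin (S.num e)), nm G (f (.inr ⟨e, k⟩)) = δ (e : E) :=
      fun e k => by rw [hfr, tp_nm_ep G _ _ (tpPt_pos _ _) (tpPt_lt _ _)]
    simp only [h1, h2]
    rw [Finset.sum_const_zero, zero_add]
    simp only [Finset.sum_const, Finset.card_univ, Fintype.card_fin]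
    rw [Finset.sum_coe_sort S.num.support (fun e => S.num e • δ e)]
    conv_rhs => rw [← Finsupp.sum_single S.num]
    refine Finset.sum_congr rfl fun e _ => ?_
    rw [Finsupp.smul_single, smul_eq_mul, mul_one]

end TP

end GB
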